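import Pool.Agent.MP_c01216_gt.Defs

set_option autoImplicit false

namespace Pool.Agent.MP_c01216_gt

open Set Filter Topology

/-- The point with given coordinates. -/
noncomputable def pt (a b c : ℝ) : E3 := !₂[a, b, c]

@[simp] lemma pt_0 (a b c : ℝ) : pt a b c 0 = a := rfl
@[simp] lemma pt_1 (a b c : ℝ) : pt a b c 1 = b := rfl
@[simp] lemma pt_2 (a b c : ℝ) : pt a b c 2 = c := rfl

lemma ext3 {p q : E3} (h0 : p 0 = q 0) (h1 : p 1 = q 1) (h2 : p 2 = q 2) : p = q := by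
  ext i
  fin_cases i
  exacts [h0, h1, h2]

lemma pt_eta (p : E3) : pt (p 0) (p 1) (p 2) = p := ext3 rfl rfl rfl

lemma norm_sq3 (v : E3) : ‖v‖ ^ 2 = v 0 ^ 2 + v 1 ^ 2 + v 2 ^ 2 := by
  simp [EuclideanSpace.real_norm_sq_eq, Fin.sum_univ_three]

lemma inner3 (v w : E3) : inner ℝ v w = v 0 * w 0 + v 1 * w 1 + v 2 * w 2 := by
  simp [PiLp.inner_apply, Fin.sum_univ_three, mul_comm]

@[fun_prop] lemma continuous_co {X : Type*} [TopologicalSpace X] {f : X → E3} (hf : Continuous f)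
    (i : Fin 3) : Continuous fun x => f x i :=
  (EuclideanSpace.proj (𝕜 := ℝ) i).continuous.comp hf

@[fun_prop] lemma continuous_pt {X : Type*} [TopologicalSpace X] {a b c : X → ℝ}
    (ha : Continuous a) (hb : Continuous b) (hc : Continuous c) :
    Continuous fun x => pt (a x) (b x) (c x) := by
  refine (PiLp.continuous_toLp 2 _).comp (continuous_pi fun i => ?_)
  fin_cases i
  exacts [ha, hb, hc]

lemma hasDerivAt_co {γ : ℝ → E3} {v : E3} {t : ℝ} (h : HasDerivAt γ v t) (i : Fin 3) :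
    HasDerivAt (fun s => γ s i) (v i) t :=
  (EuclideanSpace.proj (𝕜 := ℝ) i).hasFDerivAt.comp_hasDerivAt t h

/-- A linear involution that preserves the norm, as an isometry. -/
noncomputable def isoOf (f : E3 →ₗ[ℝ] E3) (h : ∀ p, f (f p) = p) (h' : ∀ p, ‖f p‖ ^ 2 = ‖p‖ ^ 2) :
    E3 ≃ₗᵢ[ℝ] E3 :=
  { LinearEquiv.ofInvolutive f h with
    norm_map' := fun p => (pow_left_inj₀ (norm_nonneg _) (norm_nonneg _) two_ne_zero).1 (h' p) }

/-- The reflection `x ↦ -x`. -/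
noncomputable def Rx : E3 ≃ₗᵢ[ℝ] E3 :=
  isoOf ⟨⟨fun p => pt (-p 0) (p 1) (p 2), fun p q => ext3 (by simp [add_comm]) rfl rfl⟩,
    fun c p => ext3 (by simp) rfl rfl⟩ (fun p => ext3 (by simp) rfl rfl)
    fun p => by simp [norm_sq3]

/-- The reflection `z ↦ -z`. -/
noncomputable def Rz : E3 ≃ₗᵢ[ℝ] E3 :=
  isoOf ⟨⟨fun p => pt (p 0) (p 1) (-p 2), fun p q => ext3 rfl rfl (by simp [add_comm])⟩,
    fun c p => ext3 rfl rfl (by simp)⟩ (fun p => ext3 rfl rfl (by simp))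
    fun p => by simp [norm_sq3]

/-- The exchange of `x` and `z`. -/
noncomputable def Sw : E3 ≃ₗᵢ[ℝ] E3 :=
  isoOf ⟨⟨fun p => pt (p 2) (p 1) (p 0), fun _ _ => ext3 rfl rfl rfl⟩,
    fun _ _ => ext3 rfl rfl rfl⟩ (fun _ => ext3 rfl rfl rfl)
    fun p => by simp only [norm_sq3, LinearMap.coe_mk, AddHom.coe_mk, pt_0, pt_1, pt_2]; ring

@[simp] lemma Rx_0 (p : E3) : Rx p 0 = -p 0 := rfl
@[simp] lemma Rx_1 (p : E3) : Rx p 1 = p 1 := rfl
@[simp] lemma Rx_2 (p : E3) : Rx p 2 = p 2 := rfl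
@[simp] lemma Rz_0 (p : E3) : Rz p 0 = p 0 := rfl
@[simp] lemma Rz_1 (p : E3) : Rz p 1 = p 1 := rfl
@[simp] lemma Rz_2 (p : E3) : Rz p 2 = -p 2 := rfl
@[simp] lemma Sw_0 (p : E3) : Sw p 0 = p 2 := rfl
@[simp] lemma Sw_1 (p : E3) : Sw p 1 = p 1 := rfl
@[simp] lemma Sw_2 (p : E3) : Sw p 2 = p 0 := rfl
@[simp] lemma Rx_Rx (p : E3) : Rx (Rx p) = p := ext3 (by simp) rfl rfl
@[simp] lemma Rz_Rz (p : E3) : Rz (Rz p) = p := ext3 rfl rfl (by simp)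
@[simp] lemma Sw_Sw (p : E3) : Sw (Sw p) = p := ext3 rfl rfl rfl
@[simp] lemma Sw_pt (a b c : ℝ) : Sw (pt a b c) = pt c b a := ext3 rfl rfl rfl
@[simp] lemma Rx_pt (a b c : ℝ) : Rx (pt a b c) = pt (-a) b c := ext3 rfl rfl rfl
@[simp] lemma Rz_pt (a b c : ℝ) : Rz (pt a b c) = pt a b (-c) := ext3 rfl rfl rfl

/-- An ovaloid with two perpendicular mirrors. -/
structure Body (F : E3 → ℝ) : Prop where
  smooth : ContDiff ℝ 4 F
  conv : ∀ p v : E3, v ≠ 0 → 0 < fderiv ℝ (fderiv ℝ F) p v v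
  neg : ∃ p, F p < 0
  bdd : Bornology.IsBounded {p | F p ≤ 0}
  sx : ∀ p, F (Rx p) = F p
  sz : ∀ p, F (Rz p) = F p

/-- The normal acceleration factor. -/
noncomputable def mu (F : E3 → ℝ) (p v : E3) : ℝ :=
  fderiv ℝ (fderiv ℝ F) p v v / ‖gradient F p‖ ^ 2

/-- A complete unit speed geodesic `γ` with velocity `v`. -/
structure Geo (F : E3 → ℝ) (γ v : ℝ → E3) : Prop where
  on : ∀ t, F (γ t) = 0
  unit : ∀ t, ‖v t‖ = 1
  d1 : ∀ t, HasDerivAt γ (v t) t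
  d2 : ∀ t, HasDerivAt v (-(mu F (γ t) (v t)) • gradient F (γ t)) t

/-- The two points of the surface on the axis. -/
structure Poles (F : E3 → ℝ) (y₂ y₁ : ℝ) : Prop where
  lt : y₂ < y₁
  bot : F (pt 0 y₂ 0) = 0
  top : F (pt 0 y₁ 0) = 0
  mid : ∀ y ∈ Ioo y₂ y₁, F (pt 0 y 0) < 0
  gbot : gradient F (pt 0 y₂ 0) 1 < 0
  gtop : 0 < gradient F (pt 0 y₁ 0) 1
  lo : ∀ p, F p ≤ 0 → p ≠ pt 0 y₂ 0 → y₂ < p 1
  hi : ∀ p, F p ≤ 0 → p ≠ pt 0 y₁ 0 → p 1 < y₁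

/-- A geodesic that leaves the plane `x = 0` orthogonally and reaches `z = 0` at the time `T`. -/
structure Shot (F : E3 → ℝ) (a v : ℝ → E3) (T : ℝ) : Prop where
  geo : Geo F a v
  x0 : a 0 0 = 0
  v0 : v 0 = pt 1 0 0
  pos : 0 < T
  zT : a T 2 = 0
  zpos : ∀ t ∈ Ico 0 T, 0 < a t 2
  vz : ∀ t ∈ Ioc 0 T, v t 2 < 0
  xpos : ∀ t ∈ Ioo 0 T, 0 < a t 0

/-- A shot that ends at the lower pole at a small angle. -/
structure Arc (F : E3 → ℝ) (y₂ : ℝ) (a v : ℝ → E3) (T : ℝ) : Prop extends Shot F a v T where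
  stop : a T = pt 0 y₂ 0
  vneg : v T 0 < 0
  small : -(1 / 2) ≤ v T 0

/-- A family of shots whose end points sweep from one pole to the other. -/
structure Fam (F : E3 → ℝ) (y₂ y₁ : ℝ) (α V : ℝ → ℝ → E3) (T : ℝ → ℝ) (lo hi : ℝ) : Prop where
  cα : Continuous fun q : ℝ × ℝ => α q.1 q.2
  cV : Continuous fun q : ℝ × ℝ => V q.1 q.2
  cT : ContinuousOn T (Icc lo hi)
  lt : lo < hi
  shot : ∀ y ∈ Icc lo hi, Shot F (α y) (V y) (T y)
  valid : ∀ y ∈ Ioo lo hi, 0 < α y (T y) 0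
  arc : Arc F y₂ (α hi) (V hi) (T hi)
  top : α lo (T lo) = pt 0 y₁ 0

/-- `p` lies below the arc `a`. -/
def Below (a : ℝ → E3) (T : ℝ) (p : E3) : Prop :=
  (∃ s ∈ Icc 0 T, a s 2 = p 2 ∧ p 1 < a s 1) ∨ (a 0 2 < p 2 ∧ p 1 < a 0 1)

/-- The area density of the unit sphere in the gnomonic chart. -/
noncomputable def dens (q : ℝ × ℝ) : ℝ := 1 / √(1 + q.1 ^ 2 + q.2 ^ 2) ^ 3

/-- The upper half plane. -/
def HP : Set (ℝ × ℝ) := {q | 0 < q.2}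

lemma fderiv_eq_inner (F : E3 → ℝ) (p v : E3) : fderiv ℝ F p v = inner ℝ (gradient F p) v := by
  simp [gradient]

lemma fderiv_eq3 (F : E3 → ℝ) (p v : E3) :
    fderiv ℝ F p v = gradient F p 0 * v 0 + gradient F p 1 * v 1 + gradient F p 2 * v 2 := by
  rw [fderiv_eq_inner, inner3]

end Pool.Agent.MP_c01216_gt
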