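import Pool.Agent.MP_c01216_gt.Basic

set_option autoImplicit false

namespace Pool.Agent.MP_c01216_gt

open Set Filter Topology

variable {F : E3 → ℝ}

theorem Conv_fderiv_iso (F : E3 → ℝ) (L : E3 ≃ₗᵢ[ℝ] E3) (p v : E3) :
    fderiv ℝ (fun q => F (L q)) p v = fderiv ℝ F (L p) (L v) := by
  have h := L.toContinuousLinearEquiv.comp_right_fderiv (f := F) (x := p)
  exact congrArg (fun A : E3 →L[ℝ] ℝ => A v) h

theorem grad_iso (F : E3 → ℝ) (L : E3 ≃ₗᵢ[ℝ] E3) (p : E3) :
    gradient (fun q => F (L q)) p = L.symm (gradient F (L p)) := by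
  refine ext_inner_right ℝ fun v => ?_
  rw [← fderiv_eq_inner, Conv_fderiv_iso, fderiv_eq_inner,
    ← L.inner_map_map (L.symm _), L.apply_symm_apply]

theorem hess_iso (F : E3 → ℝ) (L : E3 ≃ₗᵢ[ℝ] E3) (p v w : E3) :
    fderiv ℝ (fderiv ℝ fun q => F (L q)) p v w = fderiv ℝ (fderiv ℝ F) (L p) (L v) (L w) := by
  set Φ : (E3 →L[ℝ] ℝ) ≃L[ℝ] (E3 →L[ℝ] ℝ) :=
    L.toContinuousLinearEquiv.symm.arrowCongr (ContinuousLinearEquiv.refl ℝ ℝ) with hΦ
  have e : (fderiv ℝ fun q => F (L q)) = Φ ∘ (fderiv ℝ F ∘ L.toContinuousLinearEquiv) := by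
    funext q
    ext u
    exact Conv_fderiv_iso F L q u
  rw [e, Φ.comp_fderiv, L.toContinuousLinearEquiv.comp_right_fderiv]
  rfl

theorem Conv_symm (L : E3 ≃ₗᵢ[ℝ] E3) (h : ∀ p, L (L p) = p) (x : E3) : L.symm x = L x := by
  apply L.injective
  rw [L.apply_symm_apply, h]

theorem grad_Sw (F : E3 → ℝ) (p : E3) : gradient (fun q => F (Sw q)) p = Sw (gradient F (Sw p)) :=
  by rw [grad_iso, Conv_symm Sw Sw_Sw]

theorem body_of (hF : IsOvaloid F) (h0 : IsMirror F 0) (h2 : IsMirror F 2) : Body F := by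
  refine ⟨hF.1, hF.2.1, hF.2.2.1, hF.2.2.2, fun p => h0 p _ rfl fun j hj => ?_,
    fun p => h2 p _ rfl fun j hj => ?_⟩
  · fin_cases j
    exacts [absurd rfl hj, rfl, rfl]
  · fin_cases j
    exacts [rfl, rfl, absurd rfl hj]

theorem Body.swap (h : Body F) : Body fun p => F (Sw p) := by
  refine ⟨h.smooth.comp Sw.contDiff, fun p v hv => ?_, ?_, ?_, fun p => ?_, fun p => ?_⟩
  · rw [hess_iso]
    exact h.conv _ _ fun h0 => hv (by simpa using congrArg Sw h0)
  · obtain ⟨p, hp⟩ := h.neg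
    exact ⟨Sw p, by rwa [Sw_Sw]⟩
  · obtain ⟨C, hC⟩ := isBounded_iff_forall_norm_le.1 h.bdd
    exact isBounded_iff_forall_norm_le.2 ⟨C, fun p hp => by
      rw [← Sw.norm_map]; exact hC _ hp⟩
  · rw [← h.sz (Sw p)]
    exact congrArg F (ext3 rfl rfl rfl)
  · rw [← h.sx (Sw p)]
    exact congrArg F (ext3 rfl rfl rfl)

theorem Poles.swap {y₂ y₁ : ℝ} (h : Poles F y₂ y₁) : Poles (fun p => F (Sw p)) y₂ y₁ := by
  refine ⟨h.lt, by rw [Sw_pt]; exact h.bot, by rw [Sw_pt]; exact h.top,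
    fun y hy => by rw [Sw_pt]; exact h.mid y hy, ?_, ?_, fun p hp hne => ?_, fun p hp hne => ?_⟩
  · rw [grad_Sw, Sw_1, Sw_pt]; exact h.gbot
  · rw [grad_Sw, Sw_1, Sw_pt]; exact h.gtop
  · exact h.lo (Sw p) hp fun e => hne (by simpa using congrArg Sw e)
  · exact h.hi (Sw p) hp fun e => hne (by simpa using congrArg Sw e)

theorem Body.cont (h : Body F) : Continuous F := h.smooth.continuous

theorem Conv_contDiff_fderiv (h : Body F) : ContDiff ℝ 3 (fderiv ℝ F) :=
  h.smooth.fderiv_right (by norm_num)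

theorem Body.contDiff_grad (h : Body F) : ContDiff ℝ 3 (gradient F) := by
  refine contDiff_euclidean.2 fun i => ?_
  have e : (fun p => gradient F p i) = fun p => fderiv ℝ F p (EuclideanSpace.single i 1) := by
    funext p
    rw [fderiv_eq_inner, EuclideanSpace.inner_single_right]
    simp
  rw [e]
  exact (Conv_contDiff_fderiv h).clm_apply contDiff_const

theorem Body.cont_grad (h : Body F) : Continuous (gradient F) := h.contDiff_grad.continuous

theorem Body.cont_hess (h : Body F) :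
    Continuous fun q : E3 × E3 => fderiv ℝ (fderiv ℝ F) q.1 q.2 q.2 :=
  ((((Conv_contDiff_fderiv h).continuous_fderiv (by norm_num)).comp continuous_fst).clm_apply
    continuous_snd).clm_apply continuous_snd

theorem Body.hasDerivAt (h : Body F) {γ : ℝ → E3} {v : E3} {t : ℝ} (hγ : HasDerivAt γ v t) :
    HasDerivAt (fun s => F (γ s)) (fderiv ℝ F (γ t) v) t :=
  (h.smooth.differentiable (by norm_num) (γ t)).hasFDerivAt.comp_hasDerivAt t hγ

theorem Body.compact (h : Body F) : IsCompact {p | F p ≤ 0} :=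
  Metric.isCompact_of_isClosed_isBounded (isClosed_le h.cont continuous_const) h.bdd

theorem Body.supp' (h : Body F) {p q : E3} (hne : q ≠ p) : F p + fderiv ℝ F p (q - p) < F q := by
  have hl : ∀ t : ℝ, HasDerivAt (fun s : ℝ => p + s • (q - p)) (q - p) t := fun t => by
    simpa using ((hasDerivAt_id t).smul_const (q - p)).const_add p
  have h2 : ∀ t : ℝ, HasDerivAt (fun s : ℝ => fderiv ℝ F (p + s • (q - p)) (q - p))
      (fderiv ℝ (fderiv ℝ F) (p + t • (q - p)) (q - p) (q - p)) t := fun t => by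
    have a1 := ((Conv_contDiff_fderiv h).differentiable (by norm_num)
      (p + t • (q - p))).hasFDerivAt.comp_hasDerivAt t (hl t)
    have a2 := a1.clm_apply (hasDerivAt_const t (q - p))
    simp only [Function.comp_def, map_zero, add_zero] at a2
    exact a2
  have hm : StrictMono fun s : ℝ => fderiv ℝ F (p + s • (q - p)) (q - p) :=
    strictMono_of_deriv_pos fun t => by
      rw [(h2 t).deriv]; exact h.conv _ _ (sub_ne_zero.2 hne)
  obtain ⟨c, hc, e⟩ := exists_hasDerivAt_eq_slope (fun s : ℝ => F (p + s • (q - p)))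
    (fun s => fderiv ℝ F (p + s • (q - p)) (q - p)) zero_lt_one
    (fun t _ => (h.hasDerivAt (hl t)).continuousAt.continuousWithinAt)
    fun t _ => h.hasDerivAt (hl t)
  have := hm hc.1
  simp only [zero_smul, add_zero, one_smul, add_sub_cancel, sub_zero, div_one] at this e
  linarith

theorem Conv_supp_le (h : Body F) (p q : E3) : F p + fderiv ℝ F p (q - p) ≤ F q := by
  by_cases hne : q = p
  · simp [hne]
  · exact (h.supp' hne).le

theorem Body.convexOn (h : Body F) : ConvexOn ℝ univ F := by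
  refine ⟨convex_univ, fun x _ y _ a b ha hb hab => ?_⟩
  have h1 := mul_le_mul_of_nonneg_left (Conv_supp_le h (a • x + b • y) x) ha
  have h2 := mul_le_mul_of_nonneg_left (Conv_supp_le h (a • x + b • y) y) hb
  have e : a • (x - (a • x + b • y)) + b • (y - (a • x + b • y)) = 0 := by
    have : a • (x - (a • x + b • y)) + b • (y - (a • x + b • y)) =
        (a • x + b • y) - (a + b) • (a • x + b • y) := by module
    rw [this, hab, one_smul, sub_self]
  have e2 := congrArg (fderiv ℝ F (a • x + b • y)) e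
  simp only [map_add, map_smul, smul_eq_mul, map_zero] at e2 ⊢
  have e3 : F (a • x + b • y) = (a + b) * F (a • x + b • y) := by rw [hab, one_mul]
  linarith

theorem Conv_supp3 (h : Body F) {p q : E3} (hne : q ≠ p) :
    F p + (gradient F p 0 * (q 0 - p 0) + gradient F p 1 * (q 1 - p 1) +
      gradient F p 2 * (q 2 - p 2)) < F q := by
  have := h.supp' hne
  rw [fderiv_eq3] at this
  exact this

theorem Body.supp (h : Body F) {p q : E3} (hp : F p = 0) (hq : F q ≤ 0) (hne : q ≠ p) :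
    gradient F p 0 * (q 0 - p 0) + gradient F p 1 * (q 1 - p 1) + gradient F p 2 * (q 2 - p 2)
      < 0 := by
  have := Conv_supp3 h hne
  linarith

theorem Body.grad_ne (h : Body F) {p : E3} (hp : F p = 0) : gradient F p ≠ 0 := by
  obtain ⟨q, hq⟩ := h.neg
  intro e
  have := h.supp hp hq.le fun e' => by rw [e', hp] at hq; exact lt_irrefl _ hq
  simp [e] at this

theorem Body.grad_Rx (h : Body F) (p : E3) : gradient F (Rx p) = Rx (gradient F p) := by
  have := grad_iso F Rx p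
  rw [Conv_symm Rx Rx_Rx, show (fun q => F (Rx q)) = F from funext h.sx] at this
  rw [this, Rx_Rx]

theorem Body.grad_Rz (h : Body F) (p : E3) : gradient F (Rz p) = Rz (gradient F p) := by
  have := grad_iso F Rz p
  rw [Conv_symm Rz Rz_Rz, show (fun q => F (Rz q)) = F from funext h.sz] at this
  rw [this, Rz_Rz]

theorem Conv_g0 (h : Body F) {p : E3} (hp : p 0 ≠ 0) : 0 < gradient F p 0 * p 0 := by
  have := Conv_supp3 h (p := p) (q := Rx p) fun e => hp (by
    have := congrArg (fun x : E3 => x 0) e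
    simp only [Rx_0] at this
    linarith)
  rw [h.sx, Rx_0, Rx_1, Rx_2] at this
  linarith

theorem Conv_g2 (h : Body F) {p : E3} (hp : p 2 ≠ 0) : 0 < gradient F p 2 * p 2 := by
  have := Conv_supp3 h (p := p) (q := Rz p) fun e => hp (by
    have := congrArg (fun x : E3 => x 2) e
    simp only [Rz_2] at this
    linarith)
  rw [h.sz, Rz_0, Rz_1, Rz_2] at this
  linarith

theorem Body.g0_pos (h : Body F) {p : E3} (hp : 0 < p 0) : 0 < gradient F p 0 :=
  (mul_pos_iff_of_pos_right hp).1 (Conv_g0 h hp.ne')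

theorem Body.g0_zero (h : Body F) {p : E3} (hp : p 0 = 0) : gradient F p 0 = 0 := by
  have e : Rx p = p := ext3 (by simp [hp]) rfl rfl
  have := congrArg (fun x : E3 => x 0) (h.grad_Rx p)
  simp only [e, Rx_0] at this
  linarith

theorem Body.g0_neg (h : Body F) {p : E3} (hp : p 0 < 0) : gradient F p 0 < 0 := by
  have := Conv_g0 h hp.ne
  nlinarith

theorem Body.g2_pos (h : Body F) {p : E3} (hp : 0 < p 2) : 0 < gradient F p 2 :=
  (mul_pos_iff_of_pos_right hp).1 (Conv_g2 h hp.ne')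

theorem Body.g2_zero (h : Body F) {p : E3} (hp : p 2 = 0) : gradient F p 2 = 0 := by
  have e : Rz p = p := ext3 rfl rfl (by simp [hp])
  have := congrArg (fun x : E3 => x 2) (h.grad_Rz p)
  simp only [e, Rz_2] at this
  linarith

theorem Body.g2_neg (h : Body F) {p : E3} (hp : p 2 < 0) : gradient F p 2 < 0 := by
  have := Conv_g2 h hp.ne
  nlinarith

theorem Body.mono0 (h : Body F) {a a' : ℝ} (b c : ℝ) (ha : 0 ≤ a) (h' : a < a') :
    F (pt a b c) < F (pt a' b c) := by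
  have h1 := Conv_supp3 h (p := pt a b c) (q := pt a' b c) fun e =>
    h'.ne' (congrArg (fun x : E3 => x 0) e)
  have h2 : 0 ≤ gradient F (pt a b c) 0 := by
    rcases ha.eq_or_lt with e | e
    · exact (h.g0_zero e.symm).ge
    · exact (h.g0_pos e).le
  simp only [pt_0, pt_1, pt_2, sub_self, mul_zero, add_zero] at h1
  have := mul_nonneg h2 (sub_pos.2 h').le
  linarith

theorem Body.mono2 (h : Body F) (a b : ℝ) {c c' : ℝ} (hc : 0 ≤ c) (h' : c < c') :
    F (pt a b c) < F (pt a b c') := by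
  have := h.swap.mono0 b a hc h'
  rwa [Sw_pt, Sw_pt] at this

theorem Body.eq_of_yz (h : Body F) {p q : E3} (hp : F p = 0) (hq : F q = 0) (hp0 : 0 ≤ p 0)
    (hq0 : 0 ≤ q 0) (h1 : p 1 = q 1) (h2 : p 2 = q 2) : p = q := by
  refine ext3 ?_ h1 h2
  rcases lt_trichotomy (p 0) (q 0) with e | e | e
  · have := h.mono0 (p 1) (p 2) hp0 e
    rw [pt_eta, h1, h2, pt_eta, hp, hq] at this
    exact absurd this (lt_irrefl _)
  · exact e
  · have := h.mono0 (p 1) (p 2) hq0 e
    rw [pt_eta, h1, h2, pt_eta, hp, hq] at this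
    exact absurd this (lt_irrefl _)

theorem Body.eq_of_xy (h : Body F) {p q : E3} (hp : F p = 0) (hq : F q = 0) (hp2 : 0 ≤ p 2)
    (hq2 : 0 ≤ q 2) (h0 : p 0 = q 0) (h1 : p 1 = q 1) : p = q := by
  have := h.swap.eq_of_yz (p := Sw p) (q := Sw q) (by rwa [Sw_Sw]) (by rwa [Sw_Sw]) hp2 hq2 h1 h0
  exact Sw.injective this

theorem Conv_axis (h : Body F) {p : E3} (hne : p ≠ pt 0 (p 1) 0) : F (pt 0 (p 1) 0) < F p := by
  have := Conv_supp3 h hne
  rw [h.g0_zero (pt_0 _ _ _), h.g2_zero (pt_2 _ _ _), pt_1] at this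
  linarith

theorem Conv_axis_le (h : Body F) (p : E3) : F (pt 0 (p 1) 0) ≤ F p := by
  by_cases e : p = pt 0 (p 1) 0
  · rw [← e]
  · exact (Conv_axis h e).le

theorem Body.exists_poles (h : Body F) : ∃ y₂ y₁, Poles F y₂ y₁ := by
  obtain ⟨p0, hp0⟩ := h.neg
  have h0 : F (pt 0 (p0 1) 0) < 0 := (Conv_axis_le h p0).trans_lt hp0
  have hc : Continuous fun y : ℝ => F (pt 0 y 0) := h.cont.comp (by fun_prop)
  have hK : IsCompact {y : ℝ | F (pt 0 y 0) ≤ 0} := by
    refine (h.compact.image (continuous_co continuous_id 1)).of_isClosed_subset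
      (isClosed_le hc continuous_const) fun y hy => ⟨pt 0 y 0, hy, rfl⟩
  obtain ⟨y₂, m2, l2⟩ := hK.exists_isLeast ⟨p0 1, h0.le⟩
  obtain ⟨y₁, m1, l1⟩ := hK.exists_isGreatest ⟨p0 1, h0.le⟩
  have bot : F (pt 0 y₂ 0) = 0 := by
    refine le_antisymm m2 (not_lt.1 fun hlt => ?_)
    have e1 : ∀ᶠ y in 𝓝[<] y₂, F (pt 0 y 0) < 0 :=
      nhdsWithin_le_nhds (hc.continuousAt.eventually_lt continuousAt_const hlt)
    obtain ⟨y, a1, a2⟩ := (e1.and self_mem_nhdsWithin).exists
    exact absurd (l2 a1.le) (not_le.2 a2)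
  have top : F (pt 0 y₁ 0) = 0 := by
    refine le_antisymm m1 (not_lt.1 fun hlt => ?_)
    have e1 : ∀ᶠ y in 𝓝[>] y₁, F (pt 0 y 0) < 0 :=
      nhdsWithin_le_nhds (hc.continuousAt.eventually_lt continuousAt_const hlt)
    obtain ⟨y, a1, a2⟩ := (e1.and self_mem_nhdsWithin).exists
    exact absurd (l1 a1.le) (not_le.2 a2)
  have lt2 : y₂ < p0 1 := (l2 h0.le).lt_of_ne fun e => by
    rw [← e, bot] at h0; exact lt_irrefl _ h0
  have lt1 : p0 1 < y₁ := (l1 h0.le).lt_of_ne fun e => by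
    rw [e, top] at h0; exact lt_irrefl _ h0
  refine ⟨y₂, y₁, lt2.trans lt1, bot, top, fun y hy => ?_, ?_, ?_, fun p hp hne => ?_,
    fun p hp hne => ?_⟩
  · have a1 := Conv_supp3 h (p := pt 0 y 0) (q := pt 0 y₁ 0) fun e =>
      hy.2.ne' (congrArg (fun x : E3 => x 1) e)
    have a2 := Conv_supp3 h (p := pt 0 y 0) (q := pt 0 y₂ 0) fun e =>
      hy.1.ne (congrArg (fun x : E3 => x 1) e)
    simp only [pt_0, pt_1, pt_2, sub_self, mul_zero, add_zero, zero_add, top, bot] at a1 a2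
    rcases le_total 0 (gradient F (pt 0 y 0) 1) with e | e
    · have := mul_nonneg e (sub_pos.2 hy.2).le
      linarith
    · have := mul_nonneg_of_nonpos_of_nonpos e (sub_neg.2 hy.1).le
      linarith
  · have a1 := h.supp bot h0.le fun e => lt2.ne' (congrArg (fun x : E3 => x 1) e)
    simp only [pt_0, pt_1, pt_2, sub_self, mul_zero, add_zero, zero_add] at a1
    nlinarith
  · have a1 := h.supp top h0.le fun e => lt1.ne (congrArg (fun x : E3 => x 1) e)
    simp only [pt_0, pt_1, pt_2, sub_self, mul_zero, add_zero, zero_add] at a1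
    nlinarith
  · refine (l2 ((Conv_axis_le h p).trans hp)).lt_of_ne fun e => ?_
    have := Conv_axis h (p := p) (by rwa [← e])
    rw [← e, bot] at this
    linarith
  · refine (l1 ((Conv_axis_le h p).trans hp)).lt_of_ne fun e => ?_
    have := Conv_axis h (p := p) (by rwa [e])
    rw [e, top] at this
    linarith

theorem Poles.eq_pole {y₂ y₁ : ℝ} (h : Poles F y₂ y₁) {p : E3} (hp : F p = 0) (h0 : p 0 = 0)
    (h2 : p 2 = 0) : p = pt 0 y₂ 0 ∨ p = pt 0 y₁ 0 := by
  by_contra hn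
  push Not at hn
  have := h.mid (p 1) ⟨h.lo p hp.le hn.1, h.hi p hp.le hn.2⟩
  rw [show pt 0 (p 1) 0 = p from ext3 h0.symm rfl h2.symm, hp] at this
  exact lt_irrefl _ this

theorem Conv_mono2_le (h : Body F) (a b : ℝ) {c c' : ℝ} (hc : 0 ≤ c) (h' : c ≤ c') :
    F (pt a b c) ≤ F (pt a b c') := by
  rcases h'.eq_or_lt with e | e
  · rw [e]
  · exact (h.mono2 a b hc e).le

theorem Conv_exists_z (h : Body F) (a b : ℝ) : ∃ z, 0 ≤ z ∧
    (F (pt a b 0) ≤ 0 → F (pt a b z) = 0) ∧ (0 < F (pt a b 0) → z = 0) := by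
  rcases le_or_gt (F (pt a b 0)) 0 with e | e
  · obtain ⟨C, hC⟩ := isBounded_iff_forall_norm_le.1 h.bdd
    have hC0 : 0 ≤ C := (norm_nonneg _).trans (hC _ e)
    have h1 : 0 ≤ F (pt a b (C + 1)) := by
      refine not_lt.1 fun hlt => ?_
      have a1 := pow_le_pow_left₀ (norm_nonneg _) (hC _ hlt.le) 2
      rw [norm_sq3, pt_0, pt_1, pt_2] at a1
      nlinarith
    have hc : Continuous fun z : ℝ => F (pt a b z) := h.cont.comp (by fun_prop)
    obtain ⟨z, hz, ez⟩ := intermediate_value_Icc (by linarith : (0 : ℝ) ≤ C + 1) hc.continuousOn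
      ⟨e, h1⟩
    exact ⟨z, hz.1, fun _ => ez, fun e' => absurd e (not_le.2 e')⟩
  · exact ⟨0, le_rfl, fun e' => absurd e' (not_le.2 e), fun _ => rfl⟩

theorem Body.exists_Z (h : Body F) : ∃ Z : ℝ → ℝ → ℝ, (Continuous fun q : ℝ × ℝ => Z q.1 q.2) ∧
    (∀ a b, 0 ≤ Z a b) ∧ (∀ a b, F (pt a b 0) ≤ 0 → F (pt a b (Z a b)) = 0) ∧
    (∀ a b, 0 ≤ F (pt a b 0) → Z a b = 0) ∧ (∀ a b, F (pt a b 0) < 0 → 0 < Z a b) ∧
    ∀ p, F p = 0 → 0 ≤ p 2 → Z (p 0) (p 1) = p 2 := by
  choose Z z0 z1 z2 using Conv_exists_z h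
  have k1 : ∀ a b c, 0 < c → (Z a b < c ↔ 0 < F (pt a b c)) := fun a b c hc => by
    rcases le_or_gt (F (pt a b 0)) 0 with e | e
    · rw [← z1 a b e]
      exact ⟨fun l => h.mono2 a b (z0 a b) l,
        fun l => not_le.1 fun l' => absurd (Conv_mono2_le h a b hc.le l') (not_le.2 l)⟩
    · rw [z2 a b e]
      exact ⟨fun _ => e.trans (h.mono2 a b le_rfl hc), fun _ => hc⟩
  have k2 : ∀ a b c, 0 ≤ c → (c < Z a b ↔ F (pt a b c) < 0) := fun a b c hc => by
    rcases le_or_gt (F (pt a b 0)) 0 with e | e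
    · rw [← z1 a b e]
      exact ⟨fun l => h.mono2 a b hc l,
        fun l => not_le.1 fun l' => absurd (Conv_mono2_le h a b (z0 a b) l') (not_le.2 l)⟩
    · rw [z2 a b e]
      exact ⟨fun l => absurd hc (not_le.2 l),
        fun l => absurd (e.trans_le (Conv_mono2_le h a b le_rfl hc)) (not_lt.2 l.le)⟩
  have hc : ∀ c, Continuous fun q : ℝ × ℝ => F (pt q.1 q.2 c) := fun c =>
    h.cont.comp (by fun_prop)
  refine ⟨Z, continuous_iff_continuousAt.2 fun q => tendsto_order.2 ⟨fun c l => ?_, fun c l => ?_⟩,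
    z0, z1, fun a b e => ?_, fun a b e => (k2 a b 0 le_rfl).2 e, fun p hp h2 => ?_⟩
  · rcases lt_or_ge c 0 with e | e
    · exact Eventually.of_forall fun x => e.trans_le (z0 _ _)
    · exact ((hc c).continuousAt.eventually_lt continuousAt_const ((k2 _ _ c e).1 l)).mono
        fun x hx => (k2 _ _ c e).2 hx
  · have e : 0 < c := (z0 _ _).trans_lt l
    exact (continuousAt_const.eventually_lt (hc c).continuousAt ((k1 _ _ c e).1 l)).mono
      fun x hx => (k1 _ _ c e).2 hx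
  · exact le_antisymm (not_lt.1 fun l => absurd ((k2 a b 0 le_rfl).1 l) (not_lt.2 e)) (z0 a b)
  · refine le_antisymm (not_lt.1 fun l => ?_) (not_lt.1 fun l => ?_)
    · have := (k2 _ _ _ h2).1 l
      rw [pt_eta, hp] at this
      exact lt_irrefl _ this
    · have := (k1 _ _ _ ((z0 _ _).trans_lt l)).1 l
      rw [pt_eta, hp] at this
      exact lt_irrefl _ this

theorem Body.eq_of_normal (h : Body F) {p q : E3} (hp : F p = 0) (hq : F q = 0) {c : ℝ}
    (hc : 0 < c) (e : gradient F q = c • gradient F p) : p = q := by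
  by_contra hne
  have a1 := h.supp hp hq.le (Ne.symm hne)
  have a2 := h.supp hq hp.le hne
  simp only [e, PiLp.smul_apply, smul_eq_mul] at a2
  nlinarith

theorem Conv_exists_p (h : Body F) (q : ℝ × ℝ) : ∃ p, F p = 0 ∧ 0 < gradient F p 0 ∧
    gradient F p 1 = q.1 * gradient F p 0 ∧ gradient F p 2 = q.2 * gradient F p 0 := by
  obtain ⟨p0, hp0⟩ := h.neg
  set ℓ : E3 →L[ℝ] ℝ := innerSL ℝ (pt 1 q.1 q.2) with hℓ
  have eℓ : ∀ v, ℓ v = v 0 + q.1 * v 1 + q.2 * v 2 := fun v => by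
    rw [hℓ, innerSL_apply_apply, inner3, pt_0, pt_1, pt_2, one_mul]
  obtain ⟨p, hp, hmax⟩ := h.compact.exists_isMaxOn ⟨p0, hp0.le⟩ ℓ.continuous.continuousOn
  have hp' : F p = 0 := by
    refine le_antisymm hp (not_lt.1 fun hlt => ?_)
    have hc : Continuous fun t : ℝ => F (pt t (p 1) (p 2)) := h.cont.comp (by fun_prop)
    have e1 : ∀ᶠ t in 𝓝[>] (p 0), F (pt t (p 1) (p 2)) < 0 :=
      nhdsWithin_le_nhds (hc.continuousAt.eventually_lt continuousAt_const (by rwa [pt_eta]))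
    obtain ⟨t, a1, a2⟩ := (e1.and self_mem_nhdsWithin).exists
    have a3 : ℓ (pt t (p 1) (p 2)) ≤ ℓ p := hmax a1.le
    rw [eℓ, eℓ, pt_0, pt_1, pt_2] at a3
    have a4 : p 0 < t := a2
    linarith
  have hext : IsLocalExtrOn ℓ {x | F x = F p} p :=
    Or.inr ((hmax.on_subset fun x hx => (Eq.trans hx hp').le).localize)
  obtain ⟨a, b, hab, e⟩ := hext.exists_multipliers_of_hasStrictFDerivAt_1d
    (h.smooth.contDiffAt.hasStrictFDerivAt (by norm_num)) ℓ.hasStrictFDerivAt
  have ev : ∀ v : E3, a * (gradient F p 0 * v 0 + gradient F p 1 * v 1 + gradient F p 2 * v 2) +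
      b * (v 0 + q.1 * v 1 + q.2 * v 2) = 0 := fun v => by
    rw [← fderiv_eq3, ← eℓ]
    exact congrArg (fun A : E3 →L[ℝ] ℝ => A v) e
  have e0 := ev (pt 1 0 0)
  have e1 := ev (pt 0 1 0)
  have e2 := ev (pt 0 0 1)
  simp only [pt_0, pt_1, pt_2, mul_zero, mul_one, add_zero, zero_add] at e0 e1 e2
  have ha : a ≠ 0 := fun ha => hab (by
    rw [ha, zero_mul, zero_add] at e0
    rw [ha, e0]; rfl)
  have g1 : gradient F p 1 = q.1 * gradient F p 0 :=
    mul_left_cancel₀ ha (by linear_combination e1 - q.1 * e0)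
  have g2 : gradient F p 2 = q.2 * gradient F p 0 :=
    mul_left_cancel₀ ha (by linear_combination e2 - q.2 * e0)
  refine ⟨p, hp', ?_, g1, g2⟩
  have a1 := h.supp hp' hp0.le fun e' => by rw [e', hp'] at hp0; exact lt_irrefl _ hp0
  have a2 : ℓ p0 ≤ ℓ p := hmax hp0.le
  rw [eℓ, eℓ] at a2
  rw [g1, g2] at a1
  by_contra hn
  have := mul_nonneg (neg_nonneg.2 (not_lt.1 hn)) (sub_nonneg.2 a2)
  linarith

theorem Body.exists_P (h : Body F) : ∃ P : ℝ × ℝ → E3, Continuous P ∧ ∀ q, F (P q) = 0 ∧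
    0 < P q 0 ∧ gradient F (P q) 1 = q.1 * gradient F (P q) 0 ∧
    gradient F (P q) 2 = q.2 * gradient F (P q) 0 := by
  choose P p0 p1 p2 p3 using Conv_exists_p h
  refine ⟨P, continuous_iff_ultrafilter.2 fun q g hg => ?_, fun q => ⟨p0 q, ?_, p2 q, p3 q⟩⟩
  · obtain ⟨x, -, hx⟩ := h.compact.ultrafilter_le_nhds' (g.map P)
      (Ultrafilter.mem_map.2 (univ_mem' fun y => (p0 y).le))
    have hx' : Tendsto P g (𝓝 x) := hx
    have hq : Tendsto (fun y : ℝ × ℝ => y) g (𝓝 q) := hg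
    have hG : ∀ i, Tendsto (fun y => gradient F (P y) i) g (𝓝 (gradient F x i)) := fun i =>
      ((continuous_co h.cont_grad i).tendsto x).comp hx'
    have x0 : F x = 0 := tendsto_nhds_unique ((h.cont.tendsto x).comp hx')
      (tendsto_const_nhds.congr fun y => (p0 y).symm)
    have x1 : 0 ≤ gradient F x 0 := ge_of_tendsto' (hG 0) fun y => (p1 y).le
    have x2 : gradient F x 1 = q.1 * gradient F x 0 := tendsto_nhds_unique (hG 1)
      ((((continuous_fst.tendsto q).comp hq).mul (hG 0)).congr fun y => (p2 y).symm)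
    have x3 : gradient F x 2 = q.2 * gradient F x 0 := tendsto_nhds_unique (hG 2)
      ((((continuous_snd.tendsto q).comp hq).mul (hG 0)).congr fun y => (p3 y).symm)
    have x4 : 0 < gradient F x 0 := x1.lt_of_ne fun e => h.grad_ne x0
      (ext3 e.symm (by rw [x2, ← e, mul_zero]; rfl) (by rw [x3, ← e, mul_zero]; rfl))
    have := (p1 q).ne'
    rw [h.eq_of_normal (p0 q) x0 (div_pos x4 (p1 q)) (ext3 ?_ ?_ ?_)]
    · exact hx'
    · rw [PiLp.smul_apply, smul_eq_mul]; field_simp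
    · rw [PiLp.smul_apply, smul_eq_mul, x2, p2]; field_simp
    · rw [PiLp.smul_apply, smul_eq_mul, x3, p3]; field_simp
  · rcases lt_trichotomy (P q 0) 0 with e | e | e
    · exact absurd (h.g0_neg e) (not_lt.2 (p1 q).le)
    · exact absurd (h.g0_zero e) (p1 q).ne'
    · exact e

end Pool.Agent.MP_c01216_gt
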