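import Pool.Agent.MP_c01216_gt.Side

set_option autoImplicit false

namespace Pool.Agent.MP_c01216_gt

open Set Filter Topology

variable {F : E3 → ℝ} {a v b w : ℝ → E3} {T S y₂ y₁ lo hi : ℝ} {τ : ℝ → ℝ}

theorem cross_nonpar (h : Body F) (A : Arc F y₂ a v T) (B : Shot (fun p => F (Sw p)) b w S)
    {s t : ℝ} (hs : s ∈ Icc 0 T) (ht : t ∈ Icc 0 S) (e : a s = Sw (b t)) :
    |inner ℝ (v s) (Sw (w t))| < 1 := by
  have gb := B.geo.sw
  have hend : ∀ u ∈ Ioc 0 t, b u 2 = 0 → u = S := fun u hu h0 =>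
    by_contra fun hne => (B.zpos u ⟨hu.1.le, (hu.2.trans ht.2).lt_of_ne hne⟩).ne' h0
  have hS := B.vz S ⟨B.pos, le_rfl⟩
  have hle := abs_real_inner_le_norm (v s) (Sw (w t))
  rw [A.geo.unit, gb.unit, mul_one] at hle
  refine hle.lt_of_ne fun e1 => ?_
  rcases (abs_eq zero_le_one).1 e1 with e2 | e2
  · have e3 := (inner_eq_one_iff_of_norm_eq_one (A.geo.unit s) (gb.unit t)).1 e2
    have key := fun r => (A.geo.shift s).uniq h (gb.shift t) (t₀ := 0) (by simpa using e)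
      (by simpa using e3) r
    by_cases hst : t ≤ s
    · have h1 := congrArg (fun p : E3 => p 2) (key (-t)).2
      simp only [add_neg_cancel, B.v0, Sw_2, pt_0] at h1
      have := A.vznp (t := s + -t) ⟨by linarith, by linarith [hs.2, ht.1]⟩
      linarith
    · push Not at hst
      have h1 := congrArg (fun p : E3 => p 0) (key (-s)).1
      have h2 := congrArg (fun p : E3 => p 0) (key (-s)).2
      simp only [add_neg_cancel, A.x0, A.v0, Sw_0, pt_0] at h1 h2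
      rw [hend _ ⟨by linarith, by linarith [hs.1]⟩ h1.symm] at h2
      linarith
  · have e3 := (inner_eq_one_iff_of_norm_eq_one (𝕜 := ℝ) (x := -v s) (y := Sw (w t))
      (by rw [norm_neg, A.geo.unit]) (gb.unit t)).1 (by rw [inner_neg_left, e2, neg_neg])
    have key := fun r => (A.geo.rev s).uniq h (gb.shift t) (t₀ := 0) (by simpa using e)
      (by simpa using e3) r
    by_cases hst : s + t ≤ T
    · have h1 := congrArg (fun p : E3 => p 2) (key (-t)).1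
      have h2 := congrArg (fun p : E3 => p 0) (key (-t)).1
      simp only [add_neg_cancel, sub_neg_eq_add, Sw_2, Sw_0, B.x0] at h1 h2
      rcases hst.eq_or_lt with e4 | e4
      · rw [e4, A.stop, pt_0] at h2
        exact (B.zpos 0 ⟨le_rfl, B.pos⟩).ne h2
      · exact (A.zpos _ ⟨by linarith [hs.1, ht.1], e4⟩).ne' h1
    · push Not at hst
      have h1 := congrArg (fun p : E3 => p 0) (key (s - T)).1
      have h2 := congrArg (fun p : E3 => p 0) (key (s - T)).2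
      simp only [sub_sub_cancel, A.stop, Sw_0, pt_0, PiLp.neg_apply] at h1 h2
      rw [hend _ ⟨by linarith, by linarith [hs.2]⟩ h1.symm] at h2
      linarith [A.vneg]

theorem cross_deriv (h : Body F) (A : Arc F y₂ a v T) (I : Inv (fun t => a t 2) T τ)
    (B : Shot (fun p => F (Sw p)) b w S) {s t : ℝ} (hs : s ∈ Ioo 0 T) (ht : t ∈ Icc 0 S)
    (e : a s = Sw (b t)) : ∃ D, D ≠ 0 ∧ HasDerivAt (fun u => side a τ (Sw (b u))) D t := by
  have gb := B.geo.sw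
  have hv := (A.vz s ⟨hs.1, hs.2.le⟩).ne
  have h1 := I.hasDerivAt A.anti hs (A.geo.dx 2 s) hv
  have e2 : a s 2 = Sw (b t) 2 := by rw [e]
  have hτ : τ (Sw (b t) 2) = s := by rw [← e2, I.left s (Ioo_subset_Icc_self hs)]
  rw [e2] at h1
  have h2 := h1.comp t (gb.dx 2 t)
  have h3 := (A.geo.dx 1 s)
  rw [← hτ] at h3
  have h4 := (gb.dx 1 t).sub (h3.comp t h2)
  rw [hτ] at h4
  refine ⟨_, fun h0 => ?_, h4⟩
  have t1 := A.geo.tan h s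
  have t2 := gb.tan h t
  rw [← e] at t2
  have g0 := h.g0_pos (A.xpos s hs)
  have hn := cross_nonpar h A B (Ioo_subset_Icc_self hs) ht e
  have hu := gb.unit t
  generalize Sw (w t) = W at h0 t2 hn hu
  have e1 : W 1 = W 2 / v s 2 * v s 1 := by linear_combination h0
  have e3 : W 2 = W 2 / v s 2 * v s 2 := by field_simp
  generalize W 2 / v s 2 = c at e1 e3
  have e0 : W 0 = c * v s 0 := by
    rw [e1, e3] at t2
    exact mul_left_cancel₀ g0.ne' (by linear_combination t2 - c * t1)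
  have e4 : W = c • v s := ext3 e0 e1 e3
  rw [e4, norm_smul, A.geo.unit, mul_one, Real.norm_eq_abs] at hu
  rw [e4, inner_smul_right, real_inner_self_eq_norm_sq, A.geo.unit, one_pow, mul_one, hu] at hn
  exact lt_irrefl _ hn

theorem cross_sign {f : ℝ → ℝ} {D t : ℝ} (hf : HasDerivAt f D t) (hD : D ≠ 0) (h0 : f t = 0)
    {U : Set ℝ} (hU : U ∈ 𝓝 t) : ∃ u ∈ U, ∃ u' ∈ U, f u < 0 ∧ 0 < f u' := by
  have key : ∀ {g : ℝ → ℝ} {D : ℝ}, HasDerivAt g D t → 0 < D → g t = 0 →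
      ∃ u ∈ U, ∃ u' ∈ U, g u < 0 ∧ 0 < g u' := by
    intro g D hg hD h0
    have h1 := hg.tendsto_slope.eventually_const_lt hD
    obtain ⟨u, h2, h3, h4⟩ := ((h1.filter_mono (nhdsLT_le_nhdsNE t)).and
      ((show ∀ᶠ u in 𝓝[<] t, u ∈ U from mem_nhdsWithin_of_mem_nhds hU).and
        self_mem_nhdsWithin)).exists
    obtain ⟨u', h5, h6, h7⟩ := ((h1.filter_mono (nhdsGT_le_nhdsNE t)).and
      ((show ∀ᶠ u in 𝓝[>] t, u ∈ U from mem_nhdsWithin_of_mem_nhds hU).and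
        self_mem_nhdsWithin)).exists
    rw [slope_def_field, h0, sub_zero] at h2 h5
    refine ⟨u, h3, u', h6, ?_, (div_pos_iff_of_pos_right (sub_pos.2 h7)).1 h5⟩
    by_contra hc
    exact absurd h2 (not_lt.2 (div_nonpos_of_nonneg_of_nonpos (not_lt.1 hc) (sub_nonpos.2 h4.le)))
  rcases hD.lt_or_gt with h | h
  · obtain ⟨u, h1, u', h2, h3, h4⟩ := key hf.neg (neg_pos.2 h) (by simp [h0])
    exact ⟨u', h2, u, h1, neg_pos.1 h4, neg_lt_zero.1 h3⟩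
  · exact key hf h h0

theorem cross_pole (h : Body F) (hp : Poles F y₂ y₁) (A : Arc F y₂ a v T)
    (I : Inv (fun t => a t 2) T τ) (B : Arc (fun p => F (Sw p)) y₂ b w S) :
    ∀ᶠ t in 𝓝[<] S, 0 < side a τ (Sw (b t)) := by
  have h1 : Tendsto (fun t => τ (b t 0)) (𝓝[<] S) (𝓝[<] T) := by
    refine tendsto_nhdsWithin_iff.2 ⟨?_, ?_⟩
    · have := (I.cont.comp (continuous_co B.geo.cγ 0)).tendsto S
      simp only [Function.comp, B.stop, pt_0, I.last A.zT.ge] at this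
      exact this.mono_left nhdsWithin_le_nhds
    · filter_upwards [Ioo_mem_nhdsLT B.pos] with t ht
      exact I.lt_of ⟨A.pos, le_rfl⟩ (A.zT.trans_lt (B.xpos t ht))
  have h2 : ∀ᶠ s in 𝓝[<] T, gradient F (a s) 1 < 0 := by
    have := (continuous_co (h.cont_grad.comp A.geo.cγ) 1).tendsto T
    simp only [Function.comp, A.stop] at this
    exact (this.mono_left nhdsWithin_le_nhds).eventually_lt_const hp.gbot
  filter_upwards [B.near h.swap hp.swap, h1.eventually (A.near h hp), h1.eventually h2,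
    h1.eventually (Ioo_mem_nhdsLT A.pos)] with t h3 h4 h5 h6
  have e : a (τ (b t 0)) 2 = b t 0 := I.eq_of_mem h6.1 h6.2
  have h7 := h.supp (A.geo.on (τ (b t 0))) (B.geo.on t).le fun e' => by
    have := congrArg (fun p : E3 => p 0) e'
    simp only [Sw_0] at this
    linarith
  have h8 := h.g0_pos (A.xpos _ h6)
  simp only [Sw_0, Sw_1, Sw_2, e, sub_self, mul_zero, add_zero] at h7
  simp only [side, Sw_1, Sw_2]
  nlinarith [mul_pos h8 (show 0 < b t 2 - a (τ (b t 0)) 0 by linarith)]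

variable {α V : ℝ → ℝ → E3} {T' : ℝ → ℝ}

theorem Fam.extend (B : Fam F y₂ y₁ α V T' lo hi) :
    ∃ U : ℝ → ℝ, Continuous U ∧ (∀ y ∈ Icc lo hi, U y = T' y) ∧ ∃ C, ∀ y, U y ≤ C := by
  have hm : ∀ y, max lo (min y hi) ∈ Icc lo hi := fun y =>
    ⟨le_max_left _ _, max_le B.lt.le (min_le_right _ _)⟩
  obtain ⟨C, hC⟩ := isCompact_Icc.bddAbove_image B.cT
  exact ⟨fun y => T' (max lo (min y hi)), B.cT.comp_continuous (by fun_prop) hm, fun y hy => by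
    simp only [min_eq_left hy.2, max_eq_right hy.1], C, fun y => hC ⟨_, hm y, rfl⟩⟩

theorem cross_gap (h : Body F) (A : Arc F y₂ a v T)
    (B : Fam (fun p => F (Sw p)) y₂ y₁ α V T' lo hi) :
    ∃ δ > 0, ∀ y ∈ Icc lo hi, ∀ t₁ ∈ Icc 0 (T' y), ∀ s₁ ∈ Icc 0 T, ∀ t₂ s₂, a s₁ = Sw (α y t₁) →
      a s₂ = Sw (α y t₂) → t₁ ≠ t₂ → δ ≤ (t₂ - t₁) ^ 2 + (s₂ - s₁) ^ 2 := by
  obtain ⟨U, hU, hUe, C, hC⟩ := B.extend
  obtain ⟨M, hM, hacc⟩ := h.exists_acc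
  have c1 := B.cα
  have c2 := B.cV
  have c3 := A.geo.cγ
  have c4 := A.geo.cv
  have k1 : Continuous fun q : ℝ × ℝ × ℝ => Sw (α q.1 q.2.1) :=
    Sw.continuous.comp (c1.comp (f := fun q : ℝ × ℝ × ℝ => (q.1, q.2.1)) (by fun_prop))
  have k2 : Continuous fun q : ℝ × ℝ × ℝ => Sw (V q.1 q.2.1) :=
    Sw.continuous.comp (c2.comp (f := fun q : ℝ × ℝ × ℝ => (q.1, q.2.1)) (by fun_prop))
  have k3 : Continuous fun q : ℝ × ℝ × ℝ => v q.2.2 := by fun_prop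
  have k4 : Continuous fun q : ℝ × ℝ × ℝ => 1 - |inner ℝ (v q.2.2) (Sw (V q.1 q.2.1))| :=
    continuous_const.sub (k3.inner k2).abs
  have hK : IsCompact ((Icc lo hi ×ˢ Icc 0 C ×ˢ Icc 0 T) ∩
      ({q : ℝ × ℝ × ℝ | q.2.1 ≤ U q.1} ∩ {q | a q.2.2 = Sw (α q.1 q.2.1)})) :=
    (isCompact_Icc.prod (isCompact_Icc.prod isCompact_Icc)).inter_right
      ((isClosed_le (by fun_prop) (by fun_prop)).inter (isClosed_eq (by fun_prop) k1))
  obtain ⟨η, hη, h1⟩ := hK.exists_forall_le' (a := 0) k4.continuousOn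
    fun q hq => sub_pos.2 (cross_nonpar h A (B.shot _ hq.1.1) hq.1.2.2
      ⟨hq.1.2.1.1, le_of_le_of_eq hq.2.1 (hUe _ hq.1.1)⟩ hq.2.2)
  refine ⟨η / M ^ 2, by positivity, fun y hy t₁ ht₁ s₁ hs₁ t₂ s₂ e₁ e₂ hne => ?_⟩
  have h2 := h1 (y, t₁, s₁) ⟨⟨hy, ⟨ht₁.1, (ht₁.2.trans_eq (hUe y hy).symm).trans (hC y)⟩, hs₁⟩,
    ht₁.2.trans_eq (hUe y hy).symm, e₁⟩
  have gb := (B.shot y hy).geo.sw
  have h3 := hacc _ _ A.geo s₁ s₂
  have h4 := hacc _ _ gb t₁ t₂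
  have u1 := A.geo.unit s₁
  have u2 := gb.unit t₁
  simp only [← e₁, ← e₂] at h2 h4
  generalize Sw (V y t₁) = W at h2 h4 u2
  have h5 : ‖(t₂ - t₁) • W - (s₂ - s₁) • v s₁‖ ≤ M * ((t₂ - t₁) ^ 2 + (s₂ - s₁) ^ 2) := by
    have := norm_sub_le (a s₂ - a s₁ - (s₂ - s₁) • v s₁) (a s₂ - a s₁ - (t₂ - t₁) • W)
    rw [sub_sub_sub_cancel_left] at this
    linarith
  have h6 := pow_le_pow_left₀ (norm_nonneg _) h5 2
  rw [norm_sub_sq_real, norm_smul, norm_smul, u1, u2, inner_smul_left, inner_smul_right,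
    real_inner_comm] at h6
  simp only [mul_one, Real.norm_eq_abs, sq_abs, conj_trivial] at h6
  have hr : 0 < (t₂ - t₁) ^ 2 + (s₂ - s₁) ^ 2 :=
    add_pos_of_pos_of_nonneg (pow_pos (abs_pos.2 (sub_ne_zero.2 hne.symm)) 2 |>.trans_eq
      (sq_abs _)) (sq_nonneg _)
  generalize t₂ - t₁ = x at h6 hr ⊢
  generalize s₂ - s₁ = z at h6 hr ⊢
  generalize inner ℝ (v s₁) W = c at h2 h6
  have h7 := abs_le.1 (show |c| ≤ 1 - η by linarith)
  have h8 : η * (x ^ 2 + z ^ 2) ≤ M ^ 2 * (x ^ 2 + z ^ 2) * (x ^ 2 + z ^ 2) := by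
    nlinarith [mul_nonneg (sub_nonneg.2 h7.2) (sq_nonneg (x + z)),
      mul_nonneg (sub_nonneg.2 h7.1) (sq_nonneg (x - z))]
  rw [div_le_iff₀ (by positivity), mul_comm]
  exact le_of_mul_le_mul_right h8 hr

theorem cross_persist (h : Body F) (hp : Poles F y₂ y₁) (A : Arc F y₂ a v T)
    (I : Inv (fun t => a t 2) T τ) (B : Fam (fun p => F (Sw p)) y₂ y₁ α V T' lo hi) {f y : ℝ}
    (hf : lo ≤ f) (hy : y ∈ Ioc f hi) (hlt : ∀ u ∈ Ioc f hi, α u (T' u) 1 < a 0 1) {s t : ℝ}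
    (hs : s ∈ Icc 0 T) (ht : t ∈ Icc 0 (T' y)) (e : a s = Sw (α y t)) {η : ℝ} (hη : 0 < η) :
    ∀ᶠ u in 𝓝[<] y, ∃ t' ∈ Icc 0 (T' u), ∃ s' ∈ Icc 0 T, |t' - t| < η ∧ a s' = Sw (α u t') := by
  obtain ⟨U, hU, hUe, -⟩ := B.extend
  have hy' : y ∈ Icc lo hi := ⟨hf.trans hy.1.le, hy.2⟩
  have S := B.shot y hy'
  have hG : Continuous fun q : ℝ × ℝ => side a τ (Sw (α q.1 q.2)) :=
    (A.cont_side I).comp (Sw.continuous.comp B.cα)
  have hG1 : ∀ t, Tendsto (fun u => side a τ (Sw (α u t))) (𝓝[<] y) (𝓝 (side a τ (Sw (α y t)))) :=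
    fun t => ((hG.comp (Continuous.prodMk_left t)).tendsto y).mono_left nhdsWithin_le_nhds
  have hU1 : Tendsto U (𝓝[<] y) (𝓝 (T' y)) :=
    hUe y hy' ▸ (hU.tendsto y).mono_left nhdsWithin_le_nhds
  have fin : ∀ u ∈ Ioo f y, ∀ t₁ ∈ Icc 0 (T' u), ∀ t₂ ∈ Icc 0 (T' u), |t₁ - t| < η →
      |t₂ - t| < η → side a τ (Sw (α u t₁)) < 0 → 0 < side a τ (Sw (α u t₂)) →
      ∃ t' ∈ Icc 0 (T' u), ∃ s' ∈ Icc 0 T, |t' - t| < η ∧ a s' = Sw (α u t') := by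
    intro u hu t₁ h1 t₂ h2 h3 h4 h5 h6
    have S' := B.shot u ⟨hf.trans hu.1.le, hu.2.le.trans hy.2⟩
    obtain ⟨t', h7, h8⟩ := intermediate_value_uIcc (a := t₁) (b := t₂)
      (hG.comp (Continuous.prodMk_right u)).continuousOn (mem_uIcc_of_le h5.le h6.le)
    have h9 := uIcc_subset_Icc h1 h2 h7
    obtain ⟨s', h10, h11⟩ := A.on_of_side h I (S'.geo.on t') (S'.znn h9) (S'.xnn h9) h8
    refine ⟨t', h9, s', h10, ?_, h11⟩
    rw [abs_lt] at h3 h4 ⊢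
    rcases mem_uIcc.1 h7 with h12 | h12 <;> constructor <;> linarith [h12.1, h12.2]
  rcases ht.2.eq_or_lt with e1 | e1
  · have e2 : a s 0 = 0 := by rw [e, Sw_0, e1, S.zT]
    have e3 : s = T := by
      by_contra hne
      rcases hs.1.eq_or_lt with e4 | e4
      · have := hlt y hy
        rw [e4, e, e1, Sw_1] at this
        exact lt_irrefl _ this
      · exact (A.xpos s ⟨e4, hs.2.lt_of_ne hne⟩).ne' e2
    have e4 : y = hi := by
      by_contra hne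
      have := B.valid y ⟨hf.trans_lt hy.1, hy.2.lt_of_ne hne⟩
      rw [← e1, ← Sw_2, ← e, e3, A.zT] at this
      exact lt_irrefl _ this
    subst e4
    obtain ⟨t₂, h1, h2⟩ := ((cross_pole h hp A I B.arc).and
      (Ioo_mem_nhdsLT (max_lt S.pos (sub_lt_self (T' y) hη)))).exists
    rw [max_lt_iff] at h2
    filter_upwards [(hG1 t₂).eventually_const_lt h1, hU1.eventually_const_lt h2.2,
      hU1.eventually_lt_const (lt_add_of_pos_right _ hη), Ioo_mem_nhdsLT hy.1] with u h3 h4 h5 h6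
    have hu : u ∈ Ioo lo y := ⟨hf.trans_lt h6.1, h6.2⟩
    have S' := B.shot u (Ioo_subset_Icc_self hu)
    rw [hUe u (Ioo_subset_Icc_self hu)] at h4 h5
    refine fin u h6 _ ⟨S'.pos.le, le_rfl⟩ t₂ ⟨h2.1.1.le, h4.le⟩ ?_ ?_
      (A.side_neg h I (S'.geo.on _) S'.zT (B.valid u hu) (hlt u ⟨h6.1, h6.2.le⟩)) h3
    · rw [abs_lt, e1]
      constructor <;> linarith [h2.1.2]
    · rw [abs_lt, e1]
      constructor <;> linarith [h2.1.2, h2.2]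
  · have e2 : 0 < a s 0 := by
      rw [e, Sw_0]
      exact S.zpos t ⟨ht.1, e1⟩
    have s1 : 0 < s := hs.1.lt_of_ne fun e3 => by
      rw [← e3, A.x0] at e2
      exact lt_irrefl _ e2
    have s2 : s < T := hs.2.lt_of_ne fun e3 => by
      rw [e3, A.stop, pt_0] at e2
      exact lt_irrefl _ e2
    have t1 : 0 < t := ht.1.lt_of_ne fun e3 => by
      have := A.zpos s ⟨hs.1, s2⟩
      rw [e, Sw_2, ← e3, S.x0] at this
      exact lt_irrefl _ this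
    obtain ⟨D, hD, h1⟩ := cross_deriv h A I S ⟨s1, s2⟩ ht e
    obtain ⟨t₁, h2, t₂, h3, h4, h5⟩ := cross_sign h1 hD (by
      rw [← e, side, I.left s hs, sub_self])
      (inter_mem (Ioo_mem_nhds t1 e1) (Metric.ball_mem_nhds t hη))
    filter_upwards [(hG1 t₁).eventually_lt_const h4, (hG1 t₂).eventually_const_lt h5,
      hU1.eventually_const_lt h2.1.2, hU1.eventually_const_lt h3.1.2,
      Ioo_mem_nhdsLT hy.1] with u h6 h7 h8 h9 h10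
    rw [hUe u ⟨hf.trans h10.1.le, h10.2.le.trans hy.2⟩] at h8 h9
    exact fin u h10 t₁ ⟨h2.1.1.le, h8.le⟩ t₂ ⟨h3.1.1.le, h9.le⟩ h2.2 h3.2 h6 h7

theorem cross (h : Body F) (hp : Poles F y₂ y₁) (A : Arc F y₂ a v T)
    (B : Fam (fun p => F (Sw p)) y₂ y₁ α V T' lo hi) {s t : ℝ} (hs : s ∈ Icc 0 T)
    (ht : t ∈ Icc 0 (T' hi)) (e : a s = Sw (α hi t)) : t = T' hi := by
  by_contra hne
  obtain ⟨τ, I⟩ := A.exists_inv
  obtain ⟨U, hU, hUe, C, hC⟩ := B.extend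
  obtain ⟨δ, hδ, hgap⟩ := cross_gap h A B
  have c1 := B.cα
  have c3 := A.geo.cγ
  have hhi : hi ∈ Icc lo hi := ⟨B.lt.le, le_rfl⟩
  have z0 := A.zpos 0 ⟨le_rfl, A.pos⟩
  have m1 : y₂ < a 0 1 := hp.lo _ (A.geo.on 0).le fun e' => by
    rw [e', pt_2] at z0
    exact lt_irrefl _ z0
  have m2 : a 0 1 < y₁ := hp.hi _ (A.geo.on 0).le fun e' => by
    rw [e', pt_2] at z0
    exact lt_irrefl _ z0
  have hE : Continuous fun y => α y (U y) 1 :=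
    continuous_co (c1.comp (f := fun y => (y, U y)) (by fun_prop)) 1
  have E1 : α hi (U hi) 1 = y₂ := by rw [hUe hi hhi, B.arc.stop, pt_1]
  have root : ∀ u ∈ Icc lo hi, a 0 1 ≤ α u (U u) 1 → ∃ u' ∈ Icc u hi, α u' (U u') 1 = a 0 1 :=
    fun u hu h1 => intermediate_value_Icc' hu.2 hE.continuousOn ⟨E1.trans_le m1.le, h1⟩
  obtain ⟨f, ⟨hf, ef⟩, hmax⟩ := (isCompact_Icc.inter_right (isClosed_eq hE continuous_const) :
    IsCompact (Icc lo hi ∩ {y | α y (U y) 1 = a 0 1})).exists_isMaxOn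
    (root lo ⟨le_rfl, B.lt.le⟩ (by rw [hUe lo ⟨le_rfl, B.lt.le⟩, B.top]; exact m2.le))
    continuousOn_id
  have hlt : ∀ u ∈ Ioc f hi, α u (T' u) 1 < a 0 1 := fun u hu => by
    have hu' : u ∈ Icc lo hi := ⟨hf.1.trans hu.1.le, hu.2⟩
    by_contra hc
    rw [← hUe u hu'] at hc
    obtain ⟨u', h1, h2⟩ := root u hu' (not_lt.1 hc)
    exact absurd (hmax ⟨⟨hu'.1.trans h1.1, h1.2⟩, h2⟩) (not_le.2 (hu.1.trans_le h1.1))
  have k1 : Continuous fun q : ℝ × (ℝ × ℝ) × ℝ × ℝ => Sw (α q.1 q.2.1.1) :=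
    Sw.continuous.comp (c1.comp (f := fun q : ℝ × (ℝ × ℝ) × ℝ × ℝ => (q.1, q.2.1.1)) (by fun_prop))
  have k2 : Continuous fun q : ℝ × (ℝ × ℝ) × ℝ × ℝ => Sw (α q.1 q.2.1.2) :=
    Sw.continuous.comp (c1.comp (f := fun q : ℝ × (ℝ × ℝ) × ℝ × ℝ => (q.1, q.2.1.2)) (by fun_prop))
  have hK : IsCompact ((Icc f hi ×ˢ (Icc 0 C ×ˢ Icc 0 C) ×ˢ Icc 0 T ×ˢ Icc 0 T) ∩
      (({q : ℝ × (ℝ × ℝ) × ℝ × ℝ | q.2.1.1 ≤ q.2.1.2} ∩ {q | q.2.1.2 ≤ U q.1}) ∩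
        ({q | q.2.2.1 ≤ q.2.2.2} ∩ {q | δ ≤ (q.2.1.2 - q.2.1.1) ^ 2 + (q.2.2.2 - q.2.2.1) ^ 2}) ∩
        ({q | a q.2.2.1 = Sw (α q.1 q.2.1.1)} ∩ {q | a q.2.2.2 = Sw (α q.1 q.2.1.2)}))) :=
    (isCompact_Icc.prod ((isCompact_Icc.prod isCompact_Icc).prod
      (isCompact_Icc.prod isCompact_Icc))).inter_right
      ((((isClosed_le (by fun_prop) (by fun_prop)).inter
        (isClosed_le (by fun_prop) (by fun_prop))).inter
        ((isClosed_le (by fun_prop) (by fun_prop)).inter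
        (isClosed_le (by fun_prop) (by fun_prop)))).inter
        ((isClosed_eq (by fun_prop) k1).inter (isClosed_eq (by fun_prop) k2)))
  have mk : ∀ y ∈ Icc f hi, ∀ t₁ ∈ Icc 0 (T' y), ∀ t₂ ∈ Icc 0 (T' y), ∀ s₁ ∈ Icc 0 T,
      ∀ s₂ ∈ Icc 0 T, t₁ < t₂ → s₁ ≤ s₂ → a s₁ = Sw (α y t₁) → a s₂ = Sw (α y t₂) →
      (y, (t₁, t₂), s₁, s₂) ∈ (Icc f hi ×ˢ (Icc 0 C ×ˢ Icc 0 C) ×ˢ Icc 0 T ×ˢ Icc 0 T) ∩
      (({q : ℝ × (ℝ × ℝ) × ℝ × ℝ | q.2.1.1 ≤ q.2.1.2} ∩ {q | q.2.1.2 ≤ U q.1}) ∩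
        ({q | q.2.2.1 ≤ q.2.2.2} ∩ {q | δ ≤ (q.2.1.2 - q.2.1.1) ^ 2 + (q.2.2.2 - q.2.2.1) ^ 2}) ∩
        ({q | a q.2.2.1 = Sw (α q.1 q.2.1.1)} ∩ {q | a q.2.2.2 = Sw (α q.1 q.2.1.2)})) := by
    intro y hy t₁ h1 t₂ h2 s₁ h3 s₂ h4 h5 h6 e₁ e₂
    have hy' : y ∈ Icc lo hi := ⟨hf.1.trans hy.1, hy.2⟩
    have h7 := hC y
    rw [hUe y hy'] at h7
    exact ⟨⟨hy, ⟨⟨h1.1, h1.2.trans h7⟩, h2.1, h2.2.trans h7⟩, h3, h4⟩,
      ⟨⟨h5.le, h2.2.trans_eq (hUe y hy').symm⟩, h6, hgap y hy' t₁ h1 s₁ h3 t₂ s₂ e₁ e₂ h5.ne⟩, e₁, e₂⟩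
  obtain ⟨⟨y, ⟨t₁, t₂⟩, s₁, s₂⟩, ⟨⟨hy, ⟨a1, a2⟩, a3, a4⟩, ⟨⟨a5, a6⟩, a7, a8⟩, e₁, e₂⟩, hmin⟩ :=
    hK.exists_isMinOn ⟨_, mk hi ⟨hf.2, le_rfl⟩ t ht _ ⟨B.arc.pos.le, le_rfl⟩ s hs T
      ⟨A.pos.le, le_rfl⟩ (ht.2.lt_of_ne hne) hs.2 e (by rw [A.stop, B.arc.stop, Sw_pt])⟩
      continuous_fst.continuousOn
  simp only [mem_ofPred_eq] at hy a1 a2 a3 a4 a5 a6 a7 a8 e₁ e₂
  have hy' : y ∈ Icc lo hi := ⟨hf.1.trans hy.1, hy.2⟩
  have S := B.shot y hy'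
  rw [hUe y hy'] at a6
  have b1 : t₁ ∈ Icc 0 (T' y) := ⟨a1.1, a5.trans a6⟩
  have b2 : t₂ ∈ Icc 0 (T' y) := ⟨a2.1, a6⟩
  have hst : s₁ = s₂ ↔ t₁ = t₂ := by
    constructor
    · intro e3
      refine S.anti.injOn b1 b2 ?_
      rw [e3, e₂] at e₁
      exact (congrArg (fun p : E3 => p 0) e₁).symm
    · intro e3
      refine A.anti.injOn a3 a4 ?_
      rw [e3, ← e₂] at e₁
      exact congrArg (fun p : E3 => p 2) e₁
  have hne' : s₁ ≠ s₂ := fun e3 => by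
    rw [e3, hst.1 e3] at a8
    linarith
  have c4 : t₁ < t₂ := a5.lt_of_ne (mt hst.2 hne')
  have c5 : α y t₂ 0 < α y t₁ 0 := by
    have := A.anti a3 a4 (a7.lt_of_ne hne')
    simpa only [e₁, e₂, Sw_2] using this
  rcases hy.1.eq_or_lt with e3 | e3
  · subst e3
    have e4 : Sw (α f (T' f)) = a 0 := h.eq_of_xy (S.geo.on _) (A.geo.on 0)
      (S.xnn ⟨S.pos.le, le_rfl⟩) z0.le (S.zT.trans A.x0.symm) (by rw [← hUe f hf]; exact ef)
    have c6 : α f t₁ 0 ≤ α f (T' f) 0 := by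
      have := A.anti.antitoneOn ⟨le_rfl, A.pos.le⟩ a3 a3.1
      simpa only [e₁, ← e4, Sw_2] using this
    have c7 := (S.geo.concave0 h.swap S.xpos).min_le_of_mem_Icc b1 ⟨S.pos.le, le_rfl⟩ ⟨a5, a6⟩
    rw [min_eq_left c6] at c7
    exact absurd c5 (not_lt.2 c7)
  · have k3 : Continuous fun q : ℝ × ℝ × ℝ => α q.1 q.2.1 0 - α q.1 q.2.2 0 :=
      (continuous_co (c1.comp (f := fun q : ℝ × ℝ × ℝ => (q.1, q.2.1)) (by fun_prop)) 0).sub
        (continuous_co (c1.comp (f := fun q : ℝ × ℝ × ℝ => (q.1, q.2.2)) (by fun_prop)) 0)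
    have k4 : Continuous fun q : ℝ × ℝ × ℝ => q.2.2 - q.2.1 := by fun_prop
    obtain ⟨η, hη, k5⟩ := Metric.eventually_nhds_iff.1
      (((k3.tendsto (y, t₁, t₂)).eventually_const_lt (sub_pos.2 c5)).and
        ((k4.tendsto (y, t₁, t₂)).eventually_const_lt (sub_pos.2 c4)))
    obtain ⟨u, ⟨t₁', d1, s₁', d2, d3, d4⟩, ⟨t₂', d5, s₂', d6, d7, d8⟩, d9⟩ :=
      ((cross_persist h hp A I B hf.1 ⟨e3, hy.2⟩ hlt a3 b1 e₁ hη).and
        ((cross_persist h hp A I B hf.1 ⟨e3, hy.2⟩ hlt a4 b2 e₂ hη).and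
          (Ioo_mem_nhdsLT (max_lt e3 (sub_lt_self y hη))))).exists
    rw [max_lt_iff] at d9
    have k6 := k5 (y := (u, t₁', t₂')) (max_lt (by
      rw [Real.dist_eq, abs_lt]
      constructor <;> linarith [d9.1.2, d9.2]) (max_lt d3 d7))
    have k7 : s₁' ≤ s₂' := by
      by_contra hc
      have := A.anti d6 d2 (not_le.1 hc)
      simp only [d4, d8, Sw_2] at this
      linarith [k6.1]
    exact absurd (hmin (mk u ⟨d9.1.1.le, d9.2.le.trans hy.2⟩ t₁' d1 t₂' d5 s₁' d2 s₂' d6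
      (sub_pos.1 k6.2) k7 d4 d8)) (not_le.2 d9.2)

end Pool.Agent.MP_c01216_gt
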