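import Mathlib

set_option autoImplicit false

namespace Pool.Agent.MP_c01216_gt

open Set

/-- Euclidean 3-space. -/
abbrev E3 : Type := EuclideanSpace ℝ (Fin 3)

/-- `γ` restricted to `[0,1]` is a non-constant geodesic of the surface `F = 0` with the induced
metric: it lies on the surface, it is regular, and its acceleration is normal to the surface. -/
def IsGeodesic (F : E3 → ℝ) (γ : ℝ → E3) : Prop :=
  ContDiff ℝ 2 γ ∧ ∀ t ∈ Icc (0 : ℝ) 1,
    F (γ t) = 0 ∧ deriv γ t ≠ 0 ∧ ∃ c : ℝ, deriv (deriv γ) t = c • gradient F (γ t)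

/-- The three arcs are embedded and meet only at the common end points. -/
def IsEmbedded (γ : Fin 3 → ℝ → E3) : Prop :=
  γ 0 0 ≠ γ 0 1 ∧ (∀ i, γ i 0 = γ 0 0 ∧ γ i 1 = γ 0 1) ∧
    ∀ i j, ∀ s ∈ Icc (0 : ℝ) 1, ∀ t ∈ Icc (0 : ℝ) 1, γ i s = γ j t →
      (i = j ∧ s = t) ∨ (s = 0 ∧ t = 0) ∨ (s = 1 ∧ t = 1)

/-- The unit tangent vectors of the three arcs at the parameter `t` sum to zero. -/
def IsBalanced (γ : Fin 3 → ℝ → E3) (t : ℝ) : Prop :=
  ∑ i, ‖deriv (γ i) t‖⁻¹ • deriv (γ i) t = 0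

/-- A stationary theta-graph on the surface `F = 0`. -/
def IsTheta (F : E3 → ℝ) (γ : Fin 3 → ℝ → E3) : Prop :=
  (∀ i, IsGeodesic F (γ i)) ∧ IsEmbedded γ ∧ IsBalanced γ 0 ∧ IsBalanced γ 1

/-- `F` is a `C^4` function with positive definite Hessian whose sublevel set `F ≤ 0` is bounded
and has interior points, so `F = 0` is a closed surface of positive curvature. -/
def IsOvaloid (F : E3 → ℝ) : Prop :=
  ContDiff ℝ 4 F ∧ (∀ p v : E3, v ≠ 0 → 0 < fderiv ℝ (fderiv ℝ F) p v v) ∧ (∃ p, F p < 0) ∧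
    Bornology.IsBounded {p | F p ≤ 0}

/-- `F` is invariant under the reflection in the coordinate plane `x_i = 0`. -/
def IsMirror (F : E3 → ℝ) (i : Fin 3) : Prop :=
  ∀ p q : E3, q i = -p i → (∀ j, j ≠ i → q j = p j) → F q = F p

end Pool.Agent.MP_c01216_gt
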