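import Pool.Agent.MP_c01216_gt.Basic

set_option autoImplicit false

namespace Pool.Agent.MP_c01216_gt

open Set Filter Topology MeasureTheory

theorem dens_nonneg (q : ℝ × ℝ) : 0 ≤ dens q := by
  unfold dens
  positivity

theorem meas_open : IsOpen HP := isOpen_lt continuous_const continuous_snd

theorem measurableSet_HP : MeasurableSet HP := meas_open.measurableSet

theorem meas_sqrt_pos (s r : ℝ) : 0 < √(1 + s ^ 2 + r ^ 2) := Real.sqrt_pos.2 (by positivity)

theorem meas_cont : Continuous dens := by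
  unfold dens
  exact Continuous.div continuous_const (by fun_prop) fun q => (pow_pos (meas_sqrt_pos _ _) 3).ne'

theorem meas_le_one (q : ℝ × ℝ) : dens q ≤ 1 := by
  unfold dens
  refine div_le_one_of_le₀ (one_le_pow₀ (Real.one_le_sqrt.2 ?_)) (by positivity)
  nlinarith [sq_nonneg q.1, sq_nonneg q.2]

/-- The mass of a vertical ray. -/
noncomputable def measPsi (s r : ℝ) : ℝ := (1 - r / √(1 + s ^ 2 + r ^ 2)) / (1 + s ^ 2)

theorem meas_deriv (s x : ℝ) :
    HasDerivAt (fun r => r / √(1 + s ^ 2 + r ^ 2) / (1 + s ^ 2)) (dens (s, x)) x := by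
  have h0 := meas_sqrt_pos s x
  have h1 : HasDerivAt (fun r : ℝ => 1 + s ^ 2 + r ^ 2) (2 * x) x := by
    simpa using ((hasDerivAt_id' x).fun_pow 2).const_add (1 + s ^ 2)
  refine (((hasDerivAt_id' x).fun_div (h1.sqrt (by positivity)) h0.ne').div_const _).congr_deriv ?_
  have h2 : √(1 + s ^ 2 + x ^ 2) ^ 2 = 1 + s ^ 2 + x ^ 2 := Real.sq_sqrt (by positivity)
  unfold dens
  simp only
  generalize √(1 + s ^ 2 + x ^ 2) = w at h0 h2
  field_simp
  linear_combination h2

theorem meas_lim (s : ℝ) :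
    Tendsto (fun r => r / √(1 + s ^ 2 + r ^ 2) / (1 + s ^ 2)) atTop (𝓝 (1 / (1 + s ^ 2))) := by
  refine Tendsto.div_const ?_ _
  have h1 : Tendsto (fun r : ℝ => (1 + s ^ 2) / (1 + s ^ 2 + r ^ 2)) atTop (𝓝 0) :=
    tendsto_const_nhds.div_atTop
      (tendsto_atTop_add_const_left _ _ (tendsto_pow_atTop two_ne_zero))
  have h2 := (h1.const_sub 1).sqrt
  rw [sub_zero, Real.sqrt_one] at h2
  refine h2.congr' ?_
  filter_upwards [eventually_ge_atTop 0] with r hr
  have : 1 - (1 + s ^ 2) / (1 + s ^ 2 + r ^ 2) = r ^ 2 / (1 + s ^ 2 + r ^ 2) := by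
    field_simp
    ring
  rw [this, Real.sqrt_div (sq_nonneg r), Real.sqrt_sq hr]

theorem meas_slice (s r : ℝ) : ∫ x in Ioi r, dens (s, x) = measPsi s r := by
  rw [integral_Ioi_of_hasDerivAt_of_nonneg' (fun x _ => meas_deriv s x)
    (fun x _ => dens_nonneg _) (meas_lim s), measPsi, sub_div]

theorem meas_HP : HP = univ ×ˢ Ioi 0 := by
  ext q
  simp [HP]

theorem meas_psi_zero (s : ℝ) : measPsi s 0 = (1 + s ^ 2)⁻¹ := by simp [measPsi]

theorem integrableOn_dens : IntegrableOn dens HP := by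
  rw [meas_HP, IntegrableOn, Measure.volume_eq_prod, ← Measure.prod_restrict,
    integrable_prod_iff meas_cont.aestronglyMeasurable]
  refine ⟨Eventually.of_forall fun s => integrableOn_Ioi_deriv_of_nonneg'
    (fun x _ => meas_deriv s x) (fun x _ => dens_nonneg _) (meas_lim s), ?_⟩
  simp only [Real.norm_of_nonneg (dens_nonneg _), meas_slice, meas_psi_zero, Measure.restrict_univ]
  exact integrable_inv_one_add_sq

theorem meas_prod (S : Set ℝ) {r : ℝ} (hr : 0 ≤ r) :
    ∫ q in S ×ˢ Ioi r, dens q = ∫ s in S, measPsi s r := by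
  have h : IntegrableOn dens (S ×ˢ Ioi r) :=
    integrableOn_dens.mono_set fun q hq => lt_of_le_of_lt hr hq.2
  rw [Measure.volume_eq_prod] at h ⊢
  rw [setIntegral_prod _ h]
  simp only [meas_slice]

theorem meas_total : ∫ q in HP, dens q = Real.pi := by
  rw [meas_HP, meas_prod _ le_rfl]
  simp only [meas_psi_zero, Measure.restrict_univ]
  exact integral_univ_inv_one_add_sq

theorem meas_fderiv {q : ℝ × ℝ} (hq : q.2 ≠ 0) :
    HasFDerivAt (fun q : ℝ × ℝ => (q.1 / q.2, 1 / q.2))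
      (Matrix.toLin (.finTwoProd ℝ) (.finTwoProd ℝ)
        !![1 / q.2, -q.1 / q.2 ^ 2; 0, -1 / q.2 ^ 2]).toContinuousLinearMap q := by
  rw [Matrix.toLin_finTwoProd_toContinuousLinearMap]
  have h := (hasDerivAt_inv hq).comp_hasFDerivAt q (hasFDerivAt_snd (𝕜 := ℝ) (E := ℝ) (F := ℝ))
  have h' := HasFDerivAt.prodMk (𝕜 := ℝ) (hasFDerivAt_fst.mul h) h
  refine (h'.congr_fderiv ?_).congr_of_eventuallyEq (Eventually.of_forall fun p => ?_)
  · ext <;> simp <;> ring
  · simp [div_eq_mul_inv]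

theorem meas_inv {q : ℝ × ℝ} (hq : 0 < q.2) :
    1 / q.2 ^ 3 * dens (q.1 / q.2, 1 / q.2) = dens q := by
  unfold dens
  have : 1 + (q.1 / q.2) ^ 2 + (1 / q.2) ^ 2 = (1 + q.1 ^ 2 + q.2 ^ 2) / q.2 ^ 2 := by
    field_simp
    ring
  have h0 := meas_sqrt_pos q.1 q.2
  simp only
  rw [this, Real.sqrt_div' _ (sq_nonneg _), Real.sqrt_sq hq.le]
  field_simp

theorem two_sets {A B : Set (ℝ × ℝ)} (hA : MeasurableSet A) (hB : MeasurableSet B) (hA' : A ⊆ HP)
    (hB' : B ⊆ HP) (hd : ∀ q ∈ B, (q.1 / q.2, 1 / q.2) ∉ A) :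
    (∫ q in A, dens q) + ∫ q in B, dens q ≤ Real.pi := by
  have hf := fun q (hq : q ∈ B) =>
    (meas_fderiv (ne_of_gt (hB' hq))).hasFDerivWithinAt (s := B)
  have hi : InjOn (fun q : ℝ × ℝ => (q.1 / q.2, 1 / q.2)) B := by
    intro p hp q hq e
    simp only [Prod.mk.injEq, one_div, inv_inj] at e
    have h1 := e.1
    rw [e.2, div_left_inj' (ne_of_gt (hB' hq))] at h1
    exact Prod.ext h1 e.2
  have h1 := integral_image_eq_integral_abs_det_fderiv_smul volume hB hf hi dens
  have h2 := measurable_image_of_fderivWithin hB hf hi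
  have h3 : (fun q : ℝ × ℝ => (q.1 / q.2, 1 / q.2)) '' B ⊆ HP := by
    rintro _ ⟨q, hq, rfl⟩
    exact one_div_pos.2 (show 0 < q.2 from hB' hq)
  rw [setIntegral_congr_fun (g := dens) hB] at h1
  · rw [← h1, ← setIntegral_union _ h2 (integrableOn_dens.mono_set hA')
      (integrableOn_dens.mono_set h3), ← meas_total]
    · exact setIntegral_mono_set integrableOn_dens (Eventually.of_forall dens_nonneg)
        (union_subset hA' h3).eventuallyLE
    · rw [disjoint_right]
      rintro _ ⟨q, hq, rfl⟩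
      exact hd q hq
  · intro q hq
    have h0 : 0 < q.2 := hB' hq
    simp only [LinearMap.det_toContinuousLinearMap, LinearMap.det_toLin, Matrix.det_fin_two_of,
      smul_eq_mul]
    rw [← meas_inv h0, show 1 / q.2 * (-1 / q.2 ^ 2) - -q.1 / q.2 ^ 2 * 0 = -(1 / q.2 ^ 3) by ring,
      abs_neg, abs_of_pos (by positivity)]

theorem isOpen_area {τ : ℝ × ℝ → ℝ} {σ : ℝ → ℝ} {T t : ℝ} (hτ : Continuous τ)
    (hT : ∀ q ∈ HP, τ q < T) (hσ : ContinuousOn σ (Ioo 0 T)) (ht : t ∈ Ioo 0 T) :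
    IsOpen {q | q ∈ HP ∧ q.1 < σ (max (τ q) t)} := by
  have h1 : ContinuousOn (fun q : ℝ × ℝ => σ (max (τ q) t) - q.1) HP :=
    (hσ.comp (hτ.max continuous_const).continuousOn fun q hq =>
      ⟨lt_max_of_lt_right ht.1, max_lt (hT q hq) ht.2⟩).sub continuous_fst.continuousOn
  convert h1.isOpen_inter_preimage meas_open (isOpen_Ioi (a := (0 : ℝ))) using 1
  ext q
  simp

theorem meas_ind {A : Set (ℝ × ℝ)} (hA : MeasurableSet A) (hA' : A ⊆ HP) :
    Integrable (A.indicator dens) :=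
  (integrable_indicator_iff hA).2 (integrableOn_dens.mono_set hA')

theorem meas_four {A A' B B' R : Set (ℝ × ℝ)} (hA : MeasurableSet A) (hA' : MeasurableSet A')
    (hB : MeasurableSet B) (hB' : MeasurableSet B') (hR : MeasurableSet R) (sA : A ⊆ HP)
    (sA' : A' ⊆ HP) (sB : B ⊆ HP) (sB' : B' ⊆ HP) (fR : volume R ≠ ⊤)
    (h : ∀ q ∉ R, ((q ∈ A ↔ q ∈ A') ∧ (q ∈ B ↔ q ∈ B')) ∨ ((q ∈ A ↔ q ∈ B) ∧ (q ∈ A' ↔ q ∈ B'))) :
    ‖(∫ q in A, dens q) - (∫ q in B, dens q) - ((∫ q in A', dens q) - ∫ q in B', dens q)‖ ≤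
      volume.real R * 2 := by
  rw [← integral_indicator hA, ← integral_indicator hB, ← integral_indicator hA',
    ← integral_indicator hB', ← integral_sub (meas_ind hA sA) (meas_ind hB sB),
    ← integral_sub (meas_ind hA' sA') (meas_ind hB' sB'),
    ← integral_sub ((meas_ind hA sA).sub' (meas_ind hB sB))
      ((meas_ind hA' sA').sub' (meas_ind hB' sB')), ← smul_eq_mul, ← integral_indicator_const _ hR]
  refine norm_integral_le_of_norm_le ((integrable_indicator_iff hR).2 (integrableOn_const fR))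
    (Eventually.of_forall fun q => ?_)
  have h0 := dens_nonneg q
  have h1 := meas_le_one q
  rw [Real.norm_eq_abs, abs_le]
  classical
  by_cases hq : q ∈ R
  · simp only [Pi.sub_apply, indicator_apply, if_pos hq]
    split_ifs <;> constructor <;> linarith
  · rcases h q hq with ⟨e1, e2⟩ | ⟨e1, e2⟩ <;> simp [indicator_apply, hq, e1, e2]

theorem meas_Psi {r : ℝ} (hr : 0 ≤ r) (s : ℝ) :
    HasDerivAt (fun x => ∫ q in Iio x ×ˢ Ioi r, dens q) (measPsi s r) s := by
  have hc : Continuous fun x => measPsi x r := by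
    unfold measPsi
    exact Continuous.div (continuous_const.sub (Continuous.div continuous_const (by fun_prop)
      fun x => (meas_sqrt_pos _ _).ne')) (by fun_prop) fun x => by positivity
  have hi : Integrable fun x => measPsi x r := by
    refine integrable_inv_one_add_sq.mono' hc.aestronglyMeasurable
      (Eventually.of_forall fun x => ?_)
    have h0 := meas_sqrt_pos x r
    have h1 : r / √(1 + x ^ 2 + r ^ 2) ≤ 1 :=
      div_le_one_of_le₀ (Real.le_sqrt_of_sq_le (by nlinarith [sq_nonneg x])) h0.le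
    have h2 : 0 ≤ r / √(1 + x ^ 2 + r ^ 2) := div_nonneg hr h0.le
    rw [measPsi, Real.norm_of_nonneg (div_nonneg (by linarith) (by positivity)), ← one_div]
    exact div_le_div_of_nonneg_right (by linarith) (by positivity)
  have h := ((hc.integral_hasStrictDerivAt 0 s).hasDerivAt).add_const
    (∫ x in Iic (0 : ℝ), measPsi x r)
  refine h.congr_of_eventuallyEq (Eventually.of_forall fun x => ?_)
  simp only
  rw [meas_prod _ hr, ← integral_Iic_eq_integral_Iio,
    ← intervalIntegral.integral_Iic_sub_Iic hi.integrableOn hi.integrableOn, sub_add_cancel]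

theorem hasDerivAt_area {τ : ℝ × ℝ → ℝ} {σ : ℝ → ℝ} {T t₀ σ' ρ₀ : ℝ} (hτ : Continuous τ)
    (hT : ∀ q ∈ HP, τ q < T) (hanti : ∀ s, Antitone fun r => τ (s, r))
    (hσ : ContinuousOn σ (Ioo 0 T)) (ht : t₀ ∈ Ioo 0 T) (hd : HasDerivAt σ σ' t₀) (hρ : 0 < ρ₀)
    (h1 : ∀ r, ρ₀ < r → τ (σ t₀, r) < t₀) (h2 : ∀ r, r < ρ₀ → t₀ < τ (σ t₀, r)) :
    HasDerivAt (fun t => ∫ q in {q | q ∈ HP ∧ q.1 < σ (max (τ q) t)}, dens q)
      ((1 - ρ₀ / √(1 + σ t₀ ^ 2 + ρ₀ ^ 2)) / (1 + σ t₀ ^ 2) * σ') t₀ := by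
  have hQ := (meas_Psi hρ.le (σ t₀)).comp t₀ hd
  suffices h : HasDerivAt (fun t => (∫ q in {q | q ∈ HP ∧ q.1 < σ (max (τ q) t)}, dens q) -
      ∫ q in Iio (σ t) ×ˢ Ioi ρ₀, dens q) 0 t₀ by
    have h' := h.fun_add hQ
    simp only [Function.comp_apply, sub_add_cancel, zero_add] at h'
    exact h'
  obtain ⟨L, hL, hb⟩ := hd.isBigO_sub.exists_pos
  obtain ⟨δ, hδ, hb⟩ := Metric.eventually_nhds_iff.1 hb.bound
  simp only [Real.norm_eq_abs, Real.dist_eq] at hb
  rw [hasDerivAt_iff_isLittleO, Asymptotics.isLittleO_iff]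
  intro c hc
  obtain ⟨e, he⟩ : ∃ e, e = c / (8 * L) := ⟨_, rfl⟩
  have e0 : 0 < e := by rw [he]; positivity
  obtain ⟨a, a1, a2⟩ := exists_between (h1 (ρ₀ + e) (by linarith))
  obtain ⟨b, b1, b2⟩ := exists_between (h2 (ρ₀ - e) (by linarith))
  have c1 : ∀ r, Continuous fun s => τ (s, r) := fun r => by fun_prop
  obtain ⟨η, hη, hn⟩ := Metric.eventually_nhds_iff.1
    (((c1 (ρ₀ + e)).continuousAt.eventually (gt_mem_nhds a1)).and
      ((c1 (ρ₀ - e)).continuousAt.eventually (lt_mem_nhds b2)))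
  simp only [Real.dist_eq] at hn
  have c2 : ContinuousAt (fun t => L * |t - t₀|) t₀ := by fun_prop
  filter_upwards [Ioo_mem_nhds ht.1 ht.2, Ioo_mem_nhds a2 b1, Metric.ball_mem_nhds t₀ hδ,
    c2.eventually (gt_mem_nhds (show L * |t₀ - t₀| < η by simpa using hη))] with t t1 t2 t3 t4
  rw [Metric.mem_ball, Real.dist_eq] at t3
  have sQ : ∀ x, Iio x ×ˢ Ioi ρ₀ ⊆ HP := fun x q hq => hρ.trans hq.2
  have key := meas_four (R := Icc (σ t₀ - L * |t - t₀|) (σ t₀ + L * |t - t₀|) ×ˢ
      Icc (ρ₀ - e) (ρ₀ + e)) (isOpen_area hτ hT hσ t1).measurableSet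
    (isOpen_area hτ hT hσ ht).measurableSet (measurableSet_Iio.prod measurableSet_Ioi)
    (measurableSet_Iio.prod measurableSet_Ioi) (measurableSet_Icc.prod measurableSet_Icc)
    (fun q hq => hq.1) (fun q hq => hq.1) (sQ (σ t)) (sQ (σ t₀))
    (isCompact_Icc.prod isCompact_Icc).measure_lt_top.ne ?_
  · rw [smul_zero, sub_zero]
    refine key.trans (le_of_eq ?_)
    have p0 : 0 ≤ L * |t - t₀| := by positivity
    rw [Measure.volume_eq_prod, measureReal_prod_prod, Real.volume_real_Icc_of_le (by linarith),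
      Real.volume_real_Icc_of_le (by linarith), Real.norm_eq_abs, he]
    field_simp
    ring
  · rintro ⟨s, r⟩ hq
    simp only [mem_ofPred_eq, mem_prod, mem_Iio, mem_Ioi, HP]
    by_cases hs : |s - σ t₀| ≤ L * |t - t₀|
    · have hr : r < ρ₀ - e ∨ ρ₀ + e < r := by
        by_contra hr
        rw [not_or, not_lt, not_lt] at hr
        rw [abs_le] at hs
        exact hq ⟨⟨by linarith [hs.1], by linarith [hs.2]⟩, hr⟩
      obtain ⟨n1, n2⟩ := hn (hs.trans_lt t4)
      rcases hr with hr | hr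
      · have h3 : b < τ (s, r) := n2.trans_le (hanti s hr.le)
        have h4 : ¬ ρ₀ < r := by linarith
        rw [max_eq_left (t2.2.trans h3).le, max_eq_left (b1.trans h3).le]
        exact Or.inl ⟨Iff.rfl, by simp [h4]⟩
      · have h3 : τ (s, r) < a := (hanti s hr.le).trans_lt n1
        have h4 : ρ₀ < r := by linarith
        rw [max_eq_right (h3.trans t2.1).le, max_eq_right (h3.trans a2).le]
        exact Or.inr (by simp [h4, hρ.trans h4])
    · have h3 : ∀ u, |u - t₀| ≤ |t - t₀| → (s < σ u ↔ s < σ t₀) := by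
        intro u hu
        have h4 := (hb (hu.trans_lt t3)).trans (mul_le_mul_of_nonneg_left hu hL.le)
        rw [abs_le] at h4
        rw [not_le, lt_abs] at hs
        rcases hs with hs | hs <;> constructor <;> intro h5 <;> linarith [h4.1, h4.2]
      refine Or.inl ⟨and_congr_right fun _ => ?_, by rw [h3 t le_rfl]⟩
      by_cases h5 : max t t₀ ≤ τ (s, r)
      · rw [max_eq_left (le_of_max_le_left h5), max_eq_left (le_of_max_le_right h5)]
      · rw [not_le, lt_max_iff] at h5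
        have h6 := le_abs_self (t - t₀)
        have h7 := neg_abs_le (t - t₀)
        rw [h3 (max (τ (s, r)) t), h3 (max (τ (s, r)) t₀)]
        · rw [abs_le]
          refine ⟨by linarith [le_max_right (τ (s, r)) t₀, abs_nonneg (t - t₀)], ?_⟩
          rw [sub_le_iff_le_add, max_le_iff]
          rcases h5 with h5 | h5 <;> constructor <;> linarith [abs_nonneg (t - t₀)]
        · rw [abs_le]
          refine ⟨by linarith [le_max_right (τ (s, r)) t], ?_⟩
          rw [sub_le_iff_le_add, max_le_iff]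
          rcases h5 with h5 | h5 <;> constructor <;> linarith [abs_nonneg (t - t₀)]

theorem tendsto_area {ι : Type*} {l : Filter ι} [l.IsCountablyGenerated] {A : ι → Set (ℝ × ℝ)}
    (hA : ∀ᶠ i in l, MeasurableSet (A i) ∧ A i ⊆ HP) (h : ∀ q ∈ HP, ∀ᶠ i in l, q ∉ A i) :
    Tendsto (fun i => ∫ q in A i, dens q) l (𝓝 0) := by
  have h1 := tendsto_integral_filter_of_dominated_convergence (μ := volume) (l := l)
    (F := fun i => (A i).indicator dens) (f := fun _ => (0 : ℝ)) (HP.indicator dens)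
    (hA.mono fun i hi => (meas_ind hi.1 hi.2).aestronglyMeasurable)
    (hA.mono fun i hi => Eventually.of_forall fun q => by
      rw [Real.norm_of_nonneg (indicator_nonneg (fun q _ => dens_nonneg q) q)]
      exact indicator_le_indicator_of_subset hi.2 dens_nonneg q)
    (meas_ind measurableSet_HP subset_rfl) (Eventually.of_forall fun q => by
      refine tendsto_const_nhds.congr' ?_
      by_cases hq : q ∈ HP
      · exact (h q hq).mono fun i hi => (indicator_of_notMem hi _).symm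
      · exact hA.mono fun i hi => (indicator_of_notMem (fun h' => hq (hi.2 h')) _).symm)
  rw [integral_zero] at h1
  exact h1.congr' (hA.mono fun i hi => integral_indicator hi.1)

end Pool.Agent.MP_c01216_gt
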