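import Pool.Agent.MP_c01216_gt.Basic

set_option autoImplicit false

namespace Pool.Agent.MP_c01216_gt

open Set Filter Topology

theorem rot_aux {a c x z : ℝ → ℝ} {A B C b y l t : ℝ} (ha : HasDerivAt a A t)
    (hc : HasDerivAt c C t) (hx : HasDerivAt x (-l * a t) t) (hz : HasDerivAt z (-l * c t) t)
    (h0 : 1 + c t ≠ 0) (h1 : a t ^ 2 + b ^ 2 + c t ^ 2 = 1) (h2 : a t * x t + b * y + c t * z t = 0)
    (h3 : a t * A + b * B + c t * C = 0) (h4 : l = A * x t + B * y + C * z t) :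
    HasDerivAt (fun s => x s - z s / (1 + c s) * a s)
      (-((a t * B - b * A) / (1 + c t)) * (y - z t / (1 + c t) * b)) t := by
  refine (hx.fun_sub ((hz.fun_div (hc.const_add 1) h0).fun_mul ha)).congr_deriv ?_
  rw [h4]
  field_simp
  linear_combination (-A * (1 + c t)) * h2 - a t * z t * h3 + z t * A * h1

theorem rot {n n' v : ℝ → E3} {lam : ℝ → ℝ} {T : ℝ} (hT : 0 ≤ T)
    (hn : ∀ t, HasDerivAt n (n' t) t) (hn' : Continuous n')
    (hv : ∀ t, HasDerivAt v (-(lam t) • n t) t) (n1 : ∀ t, ‖n t‖ = 1) (v1 : ∀ t, ‖v t‖ = 1)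
    (nv : ∀ t, inner ℝ (n t) (v t) = 0) (hz : ∀ t ∈ Icc 0 T, 0 ≤ n t 2) (v0 : v 0 = pt 1 0 0) :
    Real.cos (∫ t in (0 : ℝ)..T, (n t 0 * n' t 1 - n t 1 * n' t 0) / (1 + n t 2)) =
      v T 0 - v T 2 / (1 + n T 2) * n T 0 := by
  have dn : ∀ t i, HasDerivAt (fun s => n s i) (n' t i) t := fun t i => hasDerivAt_co (hn t) i
  have dv : ∀ t i, HasDerivAt (fun s => v s i) (-lam t * n t i) t :=
    fun t i => hasDerivAt_co (hv t) i
  have e1 : ∀ t, n t 0 ^ 2 + n t 1 ^ 2 + n t 2 ^ 2 = 1 := fun t => by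
    rw [← norm_sq3, n1, one_pow]
  have e2 : ∀ t, n t 0 * v t 0 + n t 1 * v t 1 + n t 2 * v t 2 = 0 := fun t => by
    rw [← inner3, nv]
  have e3 : ∀ t, n t 0 * n' t 0 + n t 1 * n' t 1 + n t 2 * n' t 2 = 0 := fun t => by
    have h := (((dn t 0).fun_pow 2).fun_add ((dn t 1).fun_pow 2)).fun_add ((dn t 2).fun_pow 2)
    simp only [e1] at h
    have h' := h.unique (hasDerivAt_const t 1)
    norm_num at h'
    linarith
  have e4 : ∀ t, lam t = n' t 0 * v t 0 + n' t 1 * v t 1 + n' t 2 * v t 2 := fun t => by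
    have h := (((dn t 0).fun_mul (dv t 0)).fun_add ((dn t 1).fun_mul (dv t 1))).fun_add
      ((dn t 2).fun_mul (dv t 2))
    simp only [e2] at h
    have h' := h.unique (hasDerivAt_const t 0)
    linear_combination -h' - lam t * e1 t
  have cn : Continuous n := continuous_iff_continuousAt.2 fun t => (hn t).continuousAt
  obtain ⟨w, hw⟩ : ∃ w : ℝ → ℝ,
      w = fun t => (n t 0 * n' t 1 - n t 1 * n' t 0) / (1 + max (n t 2) 0) := ⟨_, rfl⟩
  have cw : Continuous w := by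
    rw [hw]
    refine Continuous.div (by fun_prop) (by fun_prop) fun t => ?_
    have := le_max_right (n t 2) 0
    linarith
  have ew : ∀ t ∈ Icc 0 T, w t = (n t 0 * n' t 1 - n t 1 * n' t 0) / (1 + n t 2) := fun t ht => by
    rw [hw]
    simp only [max_eq_left (hz t ht)]
  have dc : ∀ t, HasDerivAt (fun s => ∫ r in (0 : ℝ)..s, w r) (w t) t :=
    fun t => (cw.integral_hasStrictDerivAt 0 t).hasDerivAt
  have key : ∀ t ∈ Icc 0 T, HasDerivAt (fun s =>
      (v s 0 - v s 2 / (1 + n s 2) * n s 0 - Real.cos (∫ r in (0 : ℝ)..s, w r)) ^ 2 +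
      (v s 1 - v s 2 / (1 + n s 2) * n s 1 - Real.sin (∫ r in (0 : ℝ)..s, w r)) ^ 2) 0 t := by
    intro t ht
    have h0 : 1 + n t 2 ≠ 0 := by
      have := hz t ht
      linarith
    have d0 := rot_aux (dn t 0) (dn t 2) (dv t 0) (dv t 2) h0 (e1 t) (e2 t) (e3 t) (e4 t)
    have d1 := rot_aux (b := n t 0) (y := v t 0) (B := n' t 0) (dn t 1) (dn t 2) (dv t 1) (dv t 2)
      h0 (by linarith [e1 t]) (by linarith [e2 t]) (by linarith [e3 t]) (by linarith [e4 t])
    refine (((d0.fun_sub (dc t).cos).fun_pow 2).fun_add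
      ((d1.fun_sub (dc t).sin).fun_pow 2)).congr_deriv ?_
    rw [ew t ht]
    push_cast
    ring
  have h := constant_of_has_deriv_right_zero
    (fun t ht => (key t ht).continuousAt.continuousWithinAt)
    (fun t ht => (key t (Ico_subset_Icc_self ht)).hasDerivWithinAt) T ⟨hT, le_rfl⟩
  simp only [v0, pt_0, pt_1, pt_2, intervalIntegral.integral_same, Real.cos_zero,
    Real.sin_zero, zero_div, zero_mul, sub_zero, sub_self, ne_eq, OfNat.ofNat_ne_zero,
    not_false_eq_true, zero_pow, add_zero] at h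
  rw [← intervalIntegral.integral_congr (f := w) fun t ht => ew t (by rwa [uIcc_of_le hT] at ht)]
  have h5 := ((add_eq_zero_iff_of_nonneg (sq_nonneg _) (sq_nonneg _)).1 h).1
  exact (sub_eq_zero.1 ((pow_eq_zero_iff two_ne_zero).1 h5)).symm

end Pool.Agent.MP_c01216_gt
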