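import Pool.Agent.MP_c01216_gt.Side
import Pool.Agent.MP_c01216_gt.Meas
import Pool.Agent.MP_c01216_gt.Rot

set_option autoImplicit false

namespace Pool.Agent.MP_c01216_gt

open Set Filter Topology MeasureTheory

variable {F : E3 → ℝ} {a v : ℝ → E3} {T y₂ y₁ : ℝ}

theorem Body.slope_lt (h : Body F) {p q : E3} (hp : F p = 0) (hq : F q = 0) (p0 : 0 < p 0)
    (q0 : 0 < q 0) {s s' r r' : ℝ} (e1 : gradient F p 1 = s * gradient F p 0)
    (e2 : gradient F p 2 = r * gradient F p 0) (e3 : gradient F q 1 = s' * gradient F q 0)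
    (e4 : gradient F q 2 = r' * gradient F q 0) (hne : s ≠ s' ∨ r ≠ r') :
    0 < (s' - s) * (q 1 - p 1) + (r' - r) * (q 2 - p 2) := by
  have g1 := h.g0_pos p0
  have g2 := h.g0_pos q0
  have hn : q ≠ p := by
    rintro rfl
    rcases hne with h1 | h1
    · exact h1 (mul_right_cancel₀ g1.ne' (e1.symm.trans e3))
    · exact h1 (mul_right_cancel₀ g1.ne' (e2.symm.trans e4))
  have h1 := h.supp hp hq.le hn
  have h2 := h.supp hq hp.le hn.symm
  rw [e1, e2] at h1
  rw [e3, e4] at h2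
  have h3 : q 0 - p 0 + s * (q 1 - p 1) + r * (q 2 - p 2) < 0 :=
    neg_of_mul_neg_left (by linarith) g1.le
  have h4 : p 0 - q 0 + s' * (p 1 - q 1) + r' * (p 2 - q 2) < 0 :=
    neg_of_mul_neg_left (by linarith) g2.le
  linarith

theorem Body.z_pos (h : Body F) {p : E3} (hp : 0 < gradient F p 2) : 0 < p 2 := by
  rcases lt_trichotomy (p 2) 0 with h1 | h1 | h1
  · exact absurd hp (h.g2_neg h1).le.not_gt
  · exact absurd hp (h.g2_zero h1).le.not_gt
  · exact h1

theorem Geo.normal (h : Body F) (g : Geo F a v) : ∃ n n' : ℝ → E3, ∃ c : ℝ → ℝ,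
    (∀ t, HasDerivAt n (n' t) t) ∧ Continuous n' ∧ (∀ t, ‖n t‖ = 1) ∧ (∀ t, 0 < c t) ∧
      ∀ t, gradient F (a t) = c t • n t := by
  have h1 : ContDiff ℝ 1 fun t => gradient F (a t) :=
    (h.contDiff_grad.of_le (by norm_num)).comp ((g.contDiff h).of_le (by norm_num))
  have h0 : ∀ t, gradient F (a t) ≠ 0 := fun t => h.grad_ne (g.on t)
  have h2 : ContDiff ℝ 1 fun t => ‖gradient F (a t)‖⁻¹ • gradient F (a t) :=
    ((h1.norm ℝ h0).inv fun t => norm_ne_zero_iff.2 (h0 t)).smul h1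
  refine ⟨_, _, fun t => ‖gradient F (a t)‖, fun t => (h2.differentiable one_ne_zero t).hasDerivAt,
    h2.continuous_deriv le_rfl, fun t => norm_smul_inv_norm (h0 t), fun t => norm_pos_iff.2 (h0 t),
    fun t => ?_⟩
  rw [smul_smul, mul_inv_cancel₀ (norm_ne_zero_iff.2 (h0 t)), one_smul]

theorem gb_alg {x y z x' y' : ℝ} (hx : 0 < x) (hz : 0 ≤ z) (e : x ^ 2 + y ^ 2 + z ^ 2 = 1) :
    (1 - z / x / √(1 + (y / x) ^ 2 + (z / x) ^ 2)) / (1 + (y / x) ^ 2) * ((y' * x - y * x') / x ^ 2)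
      = (x * y' - y * x') / (1 + z) := by
  have h1 : √(1 + (y / x) ^ 2 + (z / x) ^ 2) = 1 / x := by
    rw [Real.sqrt_eq_iff_mul_self_eq (by positivity) (by positivity)]
    field_simp
    linarith
  have h2 : 0 < x ^ 2 + y ^ 2 := by positivity
  rw [h1]
  field_simp
  linear_combination (-(y' * x - y * x')) * e

theorem gb (h : Body F) (hp : Poles F y₂ y₁) (A : Arc F y₂ a v T) :
    ∃ W, MeasurableSet W ∧ W ⊆ HP ∧ Real.pi / 2 < ∫ q in W, dens q ∧ ∀ q ∈ W, ∃ p, F p = 0 ∧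
      0 < p 0 ∧ 0 < p 2 ∧ gradient F p 1 = q.1 * gradient F p 0 ∧
      gradient F p 2 = q.2 * gradient F p 0 ∧ Below a T p := by
  obtain ⟨P, cP, hP⟩ := h.exists_P
  obtain ⟨τ, I⟩ := A.exists_inv
  obtain ⟨n, n', c, dn, cn', n1, c0, hc⟩ := A.geo.normal h
  have hco : ∀ t i, gradient F (a t) i = c t * n t i := fun t i => by rw [hc]; rfl
  have cn : Continuous n := continuous_iff_continuousAt.2 fun t => (dn t).continuousAt
  have Pz : ∀ q ∈ HP, 0 < P q 2 := fun q hq => h.z_pos <| by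
    rw [(hP q).2.2.2]
    exact mul_pos hq (h.g0_pos (hP q).2.1)
  have n0 : ∀ t ∈ Ioo 0 T, 0 < n t 0 := fun t ht =>
    (mul_pos_iff_of_pos_left (c0 t)).1 (hco t 0 ▸ h.g0_pos (A.xpos t ht))
  have n2 : ∀ t ∈ Icc 0 T, 0 ≤ n t 2 := fun t ht => by
    refine nonneg_of_mul_nonneg_right ?_ (c0 t)
    rw [← hco]
    rcases (A.znn ht).eq_or_lt with e | e
    · exact (h.g2_zero e.symm).ge
    · exact (h.g2_pos e).le
  have k1 : ∀ t ∈ Ioo 0 T, ∀ i, gradient F (a t) i = n t i / n t 0 * gradient F (a t) 0 :=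
    fun t ht i => by
      rw [hco, hco]
      field_simp [(n0 t ht).ne']
  have cτ : Continuous fun q => τ (P q 2) := I.cont.comp (continuous_co cP 2)
  have hT : ∀ q ∈ HP, τ (P q 2) < T := fun q hq =>
    I.lt_of ⟨A.pos, le_rfl⟩ (A.zT.trans_lt (Pz q hq))
  have mono : ∀ s r r', r < r' → P (s, r) 2 < P (s, r') 2 := fun s r r' hr => by
    have := h.slope_lt (hP (s, r)).1 (hP (s, r')).1 (hP _).2.1 (hP _).2.1 (hP _).2.2.1
      (hP _).2.2.2 (hP _).2.2.1 (hP _).2.2.2 (Or.inr hr.ne)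
    simp only [sub_self, zero_mul, zero_add] at this
    exact sub_pos.1 ((mul_pos_iff_of_pos_left (sub_pos.2 hr)).1 this)
  have cσ : ContinuousOn (fun t => n t 1 / n t 0) (Ioo 0 T) :=
    (continuous_co cn 1).continuousOn.div (continuous_co cn 0).continuousOn
      fun t ht => (n0 t ht).ne'
  have cω : ContinuousOn (fun t => (n t 0 * n' t 1 - n t 1 * n' t 0) / (1 + n t 2)) (Icc 0 T) :=
    ContinuousOn.div (by fun_prop) (by fun_prop) fun t ht => by linarith [n2 t ht]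
  set ω := fun t => (n t 0 * n' t 1 - n t 1 * n' t 0) / (1 + n t 2) with hω
  set B := fun t => {q | q ∈ HP ∧ q.1 < (fun t => n t 1 / n t 0) (max (τ (P q 2)) t)} with hB
  have dm : ∀ t ∈ Ioo 0 T, HasDerivAt (fun t => ∫ q in B t, dens q) (ω t) t := fun t ht => by
    have e : P (n t 1 / n t 0, n t 2 / n t 0) = a t := by
      have g1 := h.g0_pos (hP (n t 1 / n t 0, n t 2 / n t 0)).2.1
      refine h.eq_of_normal (hP _).1 (A.geo.on t) (div_pos (h.g0_pos (A.xpos t ht)) g1)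
        (ext3 ?_ ?_ ?_)
      · simp only [PiLp.smul_apply, smul_eq_mul]
        field_simp
      · simp only [PiLp.smul_apply, smul_eq_mul, (hP _).2.2.1, k1 t ht 1]
        field_simp
      · simp only [PiLp.smul_apply, smul_eq_mul, (hP _).2.2.2, k1 t ht 2]
        field_simp
    have hz := n2 t (Ioo_subset_Icc_self ht)
    have hρ : 0 < n t 2 / n t 0 := div_pos ((mul_pos_iff_of_pos_left (c0 t)).1
      (hco t 2 ▸ h.g2_pos (A.zpos t ⟨ht.1.le, ht.2⟩))) (n0 t ht)
    have := hasDerivAt_area (τ := fun q => τ (P q 2)) cτ hT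
      (fun s r r' hr => I.anti (monotone_iff_forall_lt.2 (fun r r' h => (mono s r r' h).le) hr))
      cσ ht ((hasDerivAt_co (dn t) 1).div (hasDerivAt_co (dn t) 0) (n0 t ht).ne') hρ
      (fun r hr => I.lt_of ⟨ht.1, ht.2.le⟩ ((congrArg (fun p : E3 => p 2) e).symm.trans_lt
        (mono _ _ _ hr)))
      (fun r hr => I.gt_of ⟨ht.1.le, ht.2⟩ ((mono _ _ _ hr).trans_eq
        (congrArg (fun p : E3 => p 2) e)))
    rwa [gb_alg (n0 t ht) hz (by rw [← norm_sq3, n1, one_pow])] at this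
  have iω : IntegrableOn ω (uIcc 0 T) := by
    rw [uIcc_of_le A.pos.le]
    exact cω.integrableOn_Icc
  have cI : ContinuousOn (fun t => ∫ u in (0 : ℝ)..t, ω u) (Icc 0 T) := by
    have := intervalIntegral.continuousOn_primitive_interval iω
    rwa [uIcc_of_le A.pos.le] at this
  have dI : ∀ t ∈ Ioo 0 T, HasDerivAt (fun t => ∫ u in (0 : ℝ)..t, ω u) (ω t) t := fun t ht =>
    intervalIntegral.integral_hasDerivAt_right
      ((cω.mono (Icc_subset_Icc_right ht.2.le)).intervalIntegrable_of_Icc ht.1.le)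
      ((cω.mono Ioo_subset_Icc_self).stronglyMeasurableAtFilter isOpen_Ioo t ht)
      (cω.continuousAt (Icc_mem_nhds ht.1 ht.2))
  obtain ⟨C, hC⟩ := isOpen_Ioo.exists_is_const_of_deriv_eq_zero isPreconnected_Ioo
    (fun t ht => ((dm t ht).sub (dI t ht)).differentiableAt.differentiableWithinAt)
    fun t ht => ((dm t ht).sub (dI t ht)).deriv.trans (sub_self _)
  have mB : ∀ t ∈ Ioo 0 T, MeasurableSet (B t) := fun t ht =>
    (isOpen_area cτ hT cσ ht).measurableSet
  have out : ∀ (s t₀ : ℝ), a t₀ 0 = 0 → gradient F (a t₀) 1 < 0 →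
      ∀ᶠ t in 𝓝 t₀, t ∈ Ioo 0 T → n t 1 / n t 0 < s := fun s t₀ e1 e2 => by
    have e3 : n t₀ 0 = 0 := (mul_eq_zero.1 (hco t₀ 0 ▸ h.g0_zero e1)).resolve_left (c0 t₀).ne'
    have e4 : n t₀ 1 < 0 := neg_of_mul_neg_right (hco t₀ 1 ▸ e2) (c0 t₀).le
    have e5 : Continuous fun t => n t 1 - s * n t 0 := by fun_prop
    filter_upwards [(e5.tendsto t₀).eventually_lt_const (by rwa [e3, mul_zero, sub_zero])]
      with t h1 h2
    rw [div_lt_iff₀ (n0 t h2)]
    linarith
  have lim1 : Tendsto (fun t => ∫ q in B t, dens q) (𝓝[<] T) (𝓝 0) := by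
    refine tendsto_area ?_ fun q hq => ?_
    · filter_upwards [Ioo_mem_nhdsLT A.pos] with t ht using ⟨mB t ht, fun q hq => hq.1⟩
    · filter_upwards [Ioo_mem_nhdsLT A.pos, Ioo_mem_nhdsLT (hT q hq), (out q.1 T (by
        rw [A.stop, pt_0]) (A.stop ▸ hp.gbot)).filter_mono nhdsWithin_le_nhds] with t h1 h2 h3 h4
      have h5 := h4.2
      simp only [max_eq_right h2.1.le] at h5
      exact lt_asymm h5 (h3 h1)
  have eC : C = -∫ u in (0 : ℝ)..T, ω u := by
    have h1 : Tendsto (fun t => ∫ u in (0 : ℝ)..t, ω u) (𝓝[<] T) (𝓝 (∫ u in (0 : ℝ)..T, ω u)) := by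
      rw [← nhdsWithin_Ico_eq_nhdsLT A.pos]
      exact (cI T ⟨A.pos.le, le_rfl⟩).tendsto.mono_left (nhdsWithin_mono _ Ico_subset_Icc_self)
    have h2 := lim1.sub h1
    rw [zero_sub] at h2
    exact tendsto_nhds_unique (tendsto_const_nhds.congr' (by
      filter_upwards [Ioo_mem_nhdsLT A.pos] with t ht using (hC t ht).symm)) h2
  have lim0 : Tendsto (fun t => ∫ q in B t, dens q) (𝓝[>] 0) (𝓝 C) := by
    have h1 : Tendsto (fun t => ∫ u in (0 : ℝ)..t, ω u) (𝓝[>] 0) (𝓝 (∫ u in (0 : ℝ)..0, ω u)) := by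
      rw [← nhdsWithin_Ioc_eq_nhdsGT A.pos]
      exact (cI 0 ⟨le_rfl, A.pos.le⟩).tendsto.mono_left (nhdsWithin_mono _ Ioc_subset_Icc_self)
    have h2 := h1.const_add C
    rw [intervalIntegral.integral_same, add_zero] at h2
    refine h2.congr' ?_
    filter_upwards [Ioo_mem_nhdsGT A.pos] with t ht
    rw [← hC t ht]
    exact sub_add_cancel _ _
  have C0 : 0 ≤ C := ge_of_tendsto' lim0 fun t => integral_nonneg dens_nonneg
  have mW : MeasurableSet {q | q ∈ HP ∧ side a τ (P q) < 0} :=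
    measurableSet_HP.inter
      (isOpen_lt ((A.cont_side I).comp cP) continuous_const).measurableSet
  have lim2 : Tendsto (fun t => ∫ q in B t \ {q | q ∈ HP ∧ side a τ (P q) < 0}, dens q) (𝓝[>] 0)
      (𝓝 0) := by
    refine tendsto_area ?_ fun q hq => ?_
    · filter_upwards [Ioo_mem_nhdsGT A.pos] with t ht using
        ⟨(mB t ht).diff mW, fun q hq => hq.1.1⟩
    by_cases hW : side a τ (P q) < 0
    · exact Eventually.of_forall fun t h1 => h1.2 ⟨hq, hW⟩
    rw [side, not_lt, sub_nonneg] at hW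
    rcases (I.mem (P q 2)).1.eq_or_lt with e | e
    · have e1 : a 0 2 ≤ P q 2 := le_of_not_gt fun h1 => (I.gt_of ⟨le_rfl, A.pos⟩ h1).ne e
      rw [← e] at hW
      have e2 := h.supp (A.geo.on 0) (hP q).1.le fun e' => by
        have := (hP q).2.1
        rw [e', A.x0] at this
        exact lt_irrefl _ this
      rw [h.g0_zero A.x0] at e2
      have e3 := mul_nonneg (h.g2_pos (A.zpos 0 ⟨le_rfl, A.pos⟩)).le (sub_nonneg.2 e1)
      filter_upwards [Ioo_mem_nhdsGT A.pos, (out q.1 0 A.x0 (neg_of_mul_neg_right (by linarith)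
        (sub_nonneg.2 hW))).filter_mono nhdsWithin_le_nhds] with t h1 h3 h4
      have h5 := h4.1.2
      simp only [← e, max_eq_right h1.1.le] at h5
      exact lt_asymm h5 (h3 h1)
    · filter_upwards [Ioo_mem_nhdsGT e] with t h1 h4
      have h5 := h4.1.2
      simp only [max_eq_left h1.2.le] at h5
      have ht : τ (P q 2) ∈ Ioo 0 T := ⟨e, hT q hq⟩
      have h6 := h.slope_lt (hP q).1 (A.geo.on _) (hP q).2.1 (A.xpos _ ht) (hP q).2.2.1
        (hP q).2.2.2 (k1 _ ht 1) (k1 _ ht 2) (Or.inl h5.ne)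
      have h7 : a (τ (P q 2)) 2 = P q 2 := I.eq_of_mem ht.1 ht.2
      rw [h7, sub_self, mul_zero, add_zero] at h6
      linarith [(mul_pos_iff_of_pos_left (sub_pos.2 h5)).1 h6]
  have C1 : C ≤ ∫ q in {q | q ∈ HP ∧ side a τ (P q) < 0}, dens q := by
    have h1 := lim0.sub lim2
    rw [sub_zero] at h1
    refine le_of_tendsto h1 ?_
    filter_upwards [Ioo_mem_nhdsGT A.pos] with t ht
    rw [← integral_inter_add_sdiff mW (integrableOn_dens.mono_set fun q (hq : q ∈ B t) => hq.1),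
      add_sub_cancel_right]
    exact setIntegral_mono_set (integrableOn_dens.mono_set fun q hq => hq.1)
      (Eventually.of_forall dens_nonneg) inter_subset_right.eventuallyLE
  have hr := rot (lam := fun t => mu F (a t) (v t) * c t) A.pos.le dn cn' (fun t => by
    have := A.geo.d2 t
    rwa [hc, smul_smul, neg_mul] at this) n1 A.geo.unit (fun t => by
      have := A.geo.tan h t
      rw [hco, hco, hco] at this
      rw [inner3]
      exact mul_left_cancel₀ (c0 t).ne' (by linear_combination this)) n2 A.v0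
  have e3 : n T 0 = 0 :=
    (mul_eq_zero.1 (hco T 0 ▸ h.g0_zero (by rw [A.stop, pt_0]))).resolve_left (c0 T).ne'
  rw [e3, mul_zero, sub_zero, ← Real.cos_neg, ← eC] at hr
  refine ⟨_, mW, fun q hq => hq.1, lt_of_lt_of_le (lt_of_not_ge fun h1 => ?_) C1, fun q hq =>
    ⟨P q, (hP q).1, (hP q).2.1, Pz q hq.1, (hP q).2.2.1, (hP q).2.2.2,
      A.below_of_side I (Pz q hq.1).le hq.2⟩⟩
  have := Real.cos_nonneg_of_mem_Icc ⟨by linarith [Real.pi_pos], h1⟩
  linarith [A.vneg]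

end Pool.Agent.MP_c01216_gt
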