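import Pool.Agent.MP_c01216_gt.Flow

set_option autoImplicit false

namespace Pool.Agent.MP_c01216_gt

open Set Filter Topology

variable {F : E3 → ℝ} {y₂ y₁ : ℝ}

/-- The first zero of a continuous function that starts positive. -/
theorem shoot_first {f : ℝ → ℝ} (hf : Continuous f) (h0 : 0 < f 0) {T₀ : ℝ}
    (h : ∃ t ∈ Ioc 0 T₀, f t ≤ 0) :
    ∃ T ∈ Ioc 0 T₀, f T = 0 ∧ ∀ t ∈ Ico 0 T, 0 < f t := by
  obtain ⟨t₁, ht₁, h₁⟩ := h
  have hK : IsCompact (Icc 0 T₀ ∩ {t | f t ≤ 0}) :=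
    isCompact_Icc.inter_right (isClosed_le hf continuous_const)
  obtain ⟨T, ⟨hT, hT0⟩, hmin⟩ := hK.exists_isLeast ⟨t₁, ⟨ht₁.1.le, ht₁.2⟩, h₁⟩
  have hT0' : f T ≤ 0 := hT0
  have hpos : ∀ t ∈ Ico 0 T, 0 < f t := by
    intro t ht
    by_contra hc
    have : T ≤ t := hmin ⟨⟨ht.1, ht.2.le.trans hT.2⟩, not_lt.1 hc⟩
    exact absurd ht.2 (not_lt.2 this)
  have hTp : 0 < T := by
    rcases hT.1.eq_or_lt with e | e
    · rw [← e] at hT0'
      exact absurd h0 (not_lt.2 hT0')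
    · exact e
  refine ⟨T, ⟨hTp, hT.2⟩, ?_, hpos⟩
  obtain ⟨s, hs, hs0⟩ : (0 : ℝ) ∈ f '' Icc 0 T :=
    intermediate_value_Icc' hT.1 hf.continuousOn ⟨hT0', h0.le⟩
  rcases hs.2.eq_or_lt with e | e
  · rw [← e]; exact hs0
  · exact absurd hs0 (hpos s ⟨hs.1, e⟩).ne'

/-- A positive jointly continuous function stays positive on a tube. -/
theorem shoot_tube {f : ℝ → ℝ → ℝ} (hf : Continuous fun q : ℝ × ℝ => f q.1 q.2) {y a b : ℝ}
    (h : ∀ t ∈ Icc a b, 0 < f y t) : ∀ᶠ y' in 𝓝 y, ∀ t ∈ Icc a b, 0 < f y' t :=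
  isCompact_Icc.eventually_forall_of_forall_eventually fun t ht =>
    (hf.continuousAt (x := (y, t))).eventually (lt_mem_nhds (h t ht))

/-- A transversal first zero depends continuously on the parameter. -/
theorem shoot_cont {f : ℝ → ℝ → ℝ} (hf : Continuous fun q : ℝ × ℝ => f q.1 q.2) {T : ℝ → ℝ}
    {s : Set ℝ} (hp : ∀ y ∈ s, 0 < T y) (h0 : ∀ y ∈ s, f y (T y) = 0)
    (hpos : ∀ y ∈ s, ∀ t ∈ Ico 0 (T y), 0 < f y t)
    (hneg : ∀ y ∈ s, ∀ b, T y < b → ∃ t ∈ Ioo (T y) b, f y t < 0) : ContinuousOn T s := by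
  intro y hy
  refine tendsto_order.2 ⟨fun a ha => ?_, fun b hb => ?_⟩
  · have h1 := shoot_tube hf (y := y) (a := 0) (b := a)
      fun t ht => hpos y hy t ⟨ht.1, ht.2.trans_lt ha⟩
    filter_upwards [mem_nhdsWithin_of_mem_nhds h1, self_mem_nhdsWithin] with y' h2 hy'
    by_contra hc
    exact (h2 _ ⟨(hp y' hy').le, not_lt.1 hc⟩).ne' (h0 y' hy')
  · obtain ⟨t, ht, hft⟩ := hneg y hy b hb
    have hc : Continuous fun y' => f y' t := hf.comp (continuous_id.prodMk continuous_const)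
    have h1 : ∀ᶠ y' in 𝓝 y, f y' t < 0 := hc.continuousAt.eventually (gt_mem_nhds hft)
    filter_upwards [mem_nhdsWithin_of_mem_nhds h1, self_mem_nhdsWithin] with y' h2 hy'
    by_contra hcon
    have := hpos y' hy' t ⟨((hp y hy).trans ht.1).le, ht.2.trans_le (not_lt.1 hcon)⟩
    exact absurd this (not_lt.2 h2.le)

/-- A function with a zero and negative derivative is negative just after the zero. -/
theorem shoot_after {f : ℝ → ℝ} {c T : ℝ} (hf : HasDerivAt f c T) (hc : c < 0) (h0 : f T = 0)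
    {b : ℝ} (hb : T < b) : ∃ t ∈ Ioo T b, f t < 0 := by
  have h1 : ∀ᶠ t in 𝓝[>] T, slope f T t < 0 :=
    (hf.tendsto_slope.mono_left (nhdsGT_le_nhdsNE T)).eventually (gt_mem_nhds hc)
  obtain ⟨t, h2, h3⟩ := (h1.and (Ioo_mem_nhdsGT hb)).exists
  refine ⟨t, h3, ?_⟩
  rw [slope_def_field, h0, sub_zero] at h2
  have := sub_pos.2 h3.1
  exact (div_neg_iff.1 h2).elim (fun h => absurd h.2 (not_lt.2 this.le)) fun h => h.1

/-- Between two disjoint closed sets there is a gap. -/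
theorem shoot_gap {a b : ℝ} (hab : a < b) {U L : Set ℝ} (hU : IsClosed (Icc a b ∩ U))
    (hL : IsClosed (Icc a b ∩ L)) (ha : a ∈ L) (hb : b ∈ U)
    (hd : ∀ y ∈ Icc a b, y ∈ U → y ∉ L) :
    ∃ lo hi, a ≤ lo ∧ lo < hi ∧ hi ≤ b ∧ lo ∈ L ∧ hi ∈ U ∧ ∀ y ∈ Ioo lo hi, y ∉ U ∧ y ∉ L := by
  have hLc : IsCompact (Icc a b ∩ L) := isCompact_Icc.of_isClosed_subset hL inter_subset_left
  obtain ⟨lo, ⟨hlo, hloL⟩, hmax⟩ := hLc.exists_isGreatest ⟨a, ⟨le_rfl, hab.le⟩, ha⟩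
  have hUc : IsCompact ((Icc a b ∩ U) ∩ Ici lo) :=
    (isCompact_Icc.of_isClosed_subset hU inter_subset_left).inter_right isClosed_Ici
  obtain ⟨hi, ⟨⟨hhi, hhiU⟩, hle⟩, hmin⟩ :=
    hUc.exists_isLeast ⟨b, ⟨⟨hab.le, le_rfl⟩, hb⟩, hlo.2⟩
  have hlt : lo < hi := lt_of_le_of_ne hle fun e => hd hi hhi hhiU (e ▸ hloL)
  refine ⟨lo, hi, hlo.1, hlt, hhi.2, hloL, hhiU, fun y hy => ?_⟩
  have hy' : y ∈ Icc a b := ⟨hlo.1.trans hy.1.le, hy.2.le.trans hhi.2⟩
  exact ⟨fun h => absurd hy.2 (not_lt.2 (hmin ⟨⟨hy', h⟩, hy.1.le⟩)),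
    fun h => absurd hy.1 (not_lt.2 (hmax ⟨hy', h⟩))⟩

/-- A geodesic from the plane `x = 0` that leaves the quadrant `x > 0`, `z > 0` at the time `E`. -/
structure ShootExit (F : E3 → ℝ) (a v : ℝ → E3) (E : ℝ) : Prop where
  geo : Geo F a v
  x0 : a 0 0 = 0
  v0 : v 0 = pt 1 0 0
  pos : 0 < E
  zpos : ∀ t ∈ Ico 0 E, 0 < a t 2
  xpos : ∀ t ∈ Ioo 0 E, 0 < a t 0
  xnn : 0 ≤ a E 0
  znn : 0 ≤ a E 2
  stop : a E 0 = 0 ∨ a E 2 = 0

/-- The horizontal component of the velocity against the horizontal normal. -/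
noncomputable def shootD (F : E3 → ℝ) (p v : E3) : ℝ :=
  v 0 * gradient F p 1 - v 1 * gradient F p 0

section exit

variable {a v : ℝ → E3} {E : ℝ}

theorem ShootExit.vz (h : Body F) (s : ShootExit F a v E) : ∀ t ∈ Ioc 0 E, v t 2 < 0 := by
  intro t ht
  have := s.geo.anti2 h (a := 0) (b := E) (fun u hu => s.zpos u ⟨hu.1.le, hu.2⟩)
    ⟨le_rfl, s.pos.le⟩ ⟨ht.1.le, ht.2⟩ ht.1
  simpa [s.v0] using this

theorem ShootExit.zlt (h : Body F) (s : ShootExit F a v E) : a E 2 < a 0 2 := by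
  obtain ⟨c, hc, e⟩ := exists_hasDerivAt_eq_slope (fun t => a t 2) (fun t => v t 2) s.pos
    (continuous_co s.geo.cγ 2).continuousOn fun t _ => s.geo.dx 2 t
  have h1 := s.vz h c ⟨hc.1, hc.2.le⟩
  rw [e, sub_zero] at h1
  have := (div_neg_iff.1 h1).elim (fun h => absurd h.2 (not_lt.2 s.pos.le)) fun h => h.1
  linarith

theorem ShootExit.vx (h : Body F) (s : ShootExit F a v E) (h0 : a E 0 = 0) : v E 0 < 0 := by
  obtain ⟨c, hc, e⟩ := exists_hasDerivAt_eq_slope (fun t => a t 0) (fun t => v t 0) s.pos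
    (continuous_co s.geo.cγ 0).continuousOn fun t _ => s.geo.dx 0 t
  have := s.geo.anti0 h (a := 0) (b := E) s.xpos ⟨hc.1.le, hc.2.le⟩ ⟨s.pos.le, le_rfl⟩ hc.2
  simp only [h0, s.x0, sub_self, zero_div] at e
  simpa [e] using this

theorem ShootExit.shot (h : Body F) (s : ShootExit F a v E) (h0 : a E 2 = 0) : Shot F a v E :=
  ⟨s.geo, s.x0, s.v0, s.pos, h0, s.zpos, s.vz h, s.xpos⟩

theorem ShootExit.ne (h : Body F) (s : ShootExit F a v E) (h0 : a E 0 = 0) : a E 1 ≠ a 0 1 := by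
  intro e
  have := h.eq_of_xy (s.geo.on E) (s.geo.on 0) s.znn (s.zpos 0 ⟨le_rfl, s.pos⟩).le
    (h0.trans s.x0.symm) e
  exact (s.zlt h).ne (by rw [this])

theorem ShootExit.side (h : Body F) (s : ShootExit F a v E) (h0 : a E 0 = 0) :
    gradient F (a E) 1 * (a 0 1 - a E 1) < 0 := by
  have hz := s.zlt h
  have h1 := h.supp (s.geo.on E) (s.geo.on 0).le (q := a 0) fun e => hz.ne (by rw [e])
  rw [h.g0_zero h0] at h1
  have h2 : 0 ≤ gradient F (a E) 2 := by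
    rcases s.znn.eq_or_lt with e | e
    · exact (h.g2_zero e.symm).ge
    · exact (h.g2_pos e).le
  have := mul_nonneg h2 (sub_pos.2 hz).le
  linarith

theorem ShootExit.D_eq (h : Body F) (h0 : a E 0 = 0) :
    shootD F (a E) (v E) = v E 0 * gradient F (a E) 1 := by
  simp [shootD, h.g0_zero h0]

end exit

theorem shoot_sq (h : Body F) {a v : ℝ → E3} (g : Geo F a v) {t : ℝ} (h0 : a t 2 = 0) :
    shootD F (a t) (v t) ^ 2 = (1 - v t 2 ^ 2) * ‖gradient F (a t)‖ ^ 2 := by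
  have h1 := g.tan h t
  have h2 := g.sq t
  rw [norm_sq3, h.g2_zero h0] at *
  unfold shootD
  have h3 : 1 - v t 2 ^ 2 = v t 0 ^ 2 + v t 1 ^ 2 := by linarith
  rw [h3]
  linear_combination (-(gradient F (a t) 0 * v t 0 + gradient F (a t) 1 * v t 1)) * h1

theorem shoot_three (h : Body F) {a v : ℝ → E3} (g : Geo F a v) {t : ℝ} (h0 : a t 2 = 0)
    (e : (2 * shootD F (a t) (v t)) ^ 2 = ‖gradient F (a t)‖ ^ 2) : v t 2 ^ 2 = 3 / 4 := by
  have h1 := shoot_sq h g h0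
  have h2 : 0 < ‖gradient F (a t)‖ ^ 2 := pow_pos (norm_pos_iff.2 (h.grad_ne (g.on t))) 2
  have h3 : (v t 2 ^ 2 - 3 / 4) * ‖gradient F (a t)‖ ^ 2 = 0 := by nlinarith
  have := (mul_eq_zero.1 h3).resolve_right h2.ne'
  linarith

theorem shoot_contD (h : Body F) {X : Type*} [TopologicalSpace X] {a v : X → E3}
    (ha : Continuous a) (hv : Continuous v) : Continuous fun x => shootD F (a x) (v x) := by
  have hg : Continuous fun x => gradient F (a x) := h.cont_grad.comp ha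
  exact ((continuous_co hv 0).mul (continuous_co hg 1)).sub
    ((continuous_co hv 1).mul (continuous_co hg 0))

/-- Along a geodesic in the plane `z = 0` the sign of `shootD` does not change. -/
theorem shoot_plane (h : Body F) {a v : ℝ → E3} (g : Geo F a v) (h0 : a 0 2 = 0)
    (h1 : v 0 2 = 0) {σ : ℝ} (hσ : σ ^ 2 = 1) (hD : 0 < σ * shootD F (a 0) (v 0)) (t : ℝ) :
    0 < 2 * (σ * shootD F (a t) (v t)) - ‖gradient F (a t)‖ := by
  have hsq : ∀ s, (σ * shootD F (a s) (v s)) ^ 2 = ‖gradient F (a s)‖ ^ 2 := by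
    intro s
    obtain ⟨e0, e1⟩ := g.plane h h0 h1 s
    rw [mul_pow, hσ, shoot_sq h g e0, e1]
    ring
  have hN : ∀ s, 0 < ‖gradient F (a s)‖ := fun s => norm_pos_iff.2 (h.grad_ne (g.on s))
  have hc : Continuous fun s => σ * shootD F (a s) (v s) :=
    continuous_const.mul (shoot_contD h g.cγ g.cv)
  have hp : 0 < σ * shootD F (a t) (v t) := by
    by_contra hcon
    obtain ⟨s, hs⟩ := intermediate_value_univ t 0 hc ⟨not_lt.1 hcon, hD.le⟩
    have h2 := hsq s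
    have h3 : σ * shootD F (a s) (v s) = 0 := hs
    rw [h3] at h2
    have := pow_pos (hN s) 2
    linarith
  have := (pow_left_inj₀ hp.le (hN t).le two_ne_zero).1 (hsq t)
  linarith [hN t]

/-- The family of geodesics that leave the plane `x = 0` orthogonally, with their exit times. -/
theorem shoot_family (h : Body F) (hp : Poles F y₂ y₁) :
    ∃ (α V : ℝ → ℝ → E3) (E : ℝ → ℝ) (T₀ : ℝ), (Continuous fun q : ℝ × ℝ => α q.1 q.2) ∧
      (Continuous fun q : ℝ × ℝ => V q.1 q.2) ∧ ContinuousOn E (Ioo y₂ y₁) ∧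
      (∀ y, α y 0 1 = y ∧ V y 0 = pt 1 0 0) ∧ (∀ y ∈ Icc y₂ y₁, Geo F (α y) (V y)) ∧
      α y₂ 0 = pt 0 y₂ 0 ∧ α y₁ 0 = pt 0 y₁ 0 ∧
      ∀ y ∈ Ioo y₂ y₁, E y ≤ T₀ ∧ ShootExit F (α y) (V y) (E y) := by
  obtain ⟨Z, cZ, -, hZ, hZ0, hZp, -⟩ := h.exists_Z
  obtain ⟨Γ, W, cΓ, cW, h0, hgeo⟩ := h.exists_flow
  obtain ⟨T₀, -, hT⟩ := h.exists_time
  obtain ⟨M, hM, hacc⟩ := h.exists_acc
  let q : ℝ → E3 × E3 := fun y => (pt 0 y (Z 0 y), pt 1 0 0)
  have cq : Continuous q := by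
    have : Continuous fun y : ℝ => Z 0 y := cZ.comp (continuous_const.prodMk continuous_id)
    exact (continuous_pt continuous_const continuous_id this).prodMk continuous_const
  have cq' : Continuous fun w : ℝ × ℝ => (q w.1, w.2) :=
    (cq.comp continuous_fst).prodMk continuous_snd
  have cα : Continuous fun w : ℝ × ℝ => Γ (q w.1) w.2 := cΓ.comp cq'
  have cV : Continuous fun w : ℝ × ℝ => W (q w.1) w.2 := cW.comp cq'
  have hα0 : ∀ y, Γ (q y) 0 = pt 0 y (Z 0 y) := fun y => (h0 (q y)).1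
  have hV0 : ∀ y, W (q y) 0 = pt 1 0 0 := fun y => (h0 (q y)).2
  have hg : ∀ y ∈ Icc y₂ y₁, Geo F (Γ (q y)) (W (q y)) := by
    intro y hy
    have hle : F (pt 0 y 0) ≤ 0 := by
      rcases hy.1.eq_or_lt with e | e
      · rw [← e]; exact hp.bot.le
      · rcases hy.2.eq_or_lt with e' | e'
        · rw [e']; exact hp.top.le
        · exact (hp.mid y ⟨e, e'⟩).le
    refine hgeo (q y) (hZ 0 y hle) ?_ ?_
    · rw [fderiv_eq3, h.g0_zero (p := (q y).1) rfl]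
      simp [q]
    · have : ‖pt 1 0 0‖ ^ 2 = 1 ^ 2 := by simp [norm_sq3]
      exact (pow_left_inj₀ (norm_nonneg _) zero_le_one two_ne_zero).1 this
  -- the first coordinate is positive for small times
  set δ : ℝ := 1 / (2 * M) with hδ
  have hδp : 0 < δ := by positivity
  have hsmall : ∀ y ∈ Icc y₂ y₁, ∀ t ∈ Ioc 0 δ, 0 < Γ (q y) t 0 := by
    intro y hy t ht
    have h1 := hacc _ _ (hg y hy) 0 t
    have h2 := (PiLp.norm_apply_le (Γ (q y) t - Γ (q y) 0 - (t - 0) • W (q y) 0) 0).trans h1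
    rw [hα0, hV0] at h2
    simp only [sub_zero, PiLp.sub_apply, PiLp.smul_apply, pt_0, smul_eq_mul, mul_one,
      Real.norm_eq_abs] at h2
    have h3 := (abs_le.1 h2).1
    have h4 : M * t ≤ 1 / 2 := by
      have := mul_le_mul_of_nonneg_left ht.2 hM.le
      rwa [hδ, show M * (1 / (2 * M)) = 1 / 2 by field_simp] at this
    nlinarith [ht.1]
  let f : ℝ → ℝ → ℝ := fun y t => min (Γ (q y) t 2) (max (Γ (q y) t 0) (δ - t))
  have cf : Continuous fun w : ℝ × ℝ => f w.1 w.2 :=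
    (continuous_co cα 2).min ((continuous_co cα 0).max (continuous_const.sub continuous_snd))
  have hex : ∀ y ∈ Ioo y₂ y₁, ∃ T ∈ Ioc 0 T₀, f y T = 0 ∧ ∀ t ∈ Ico 0 T, 0 < f y t := by
    intro y hy
    refine shoot_first (f := f y) (cf.comp (continuous_const.prodMk continuous_id)) ?_ ?_
    · refine lt_min ?_ (lt_max_of_lt_right (by simpa using hδp))
      rw [hα0]
      exact hZp 0 y (hp.mid y hy)
    · obtain ⟨t, ht, hz⟩ := (hT _ _ (hg y (Ioo_subset_Icc_self hy))).2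
      exact ⟨t, ht, (min_le_left _ _).trans hz⟩
  choose! E hE hE0 hEp using hex
  have hδE : ∀ y ∈ Ioo y₂ y₁, Γ (q y) (E y) 0 ≤ 0 → δ < E y := by
    intro y hy h1
    by_contra hc
    exact absurd (hsmall y (Ioo_subset_Icc_self hy) _ ⟨(hE y hy).1, not_lt.1 hc⟩) (not_lt.2 h1)
  have hexit : ∀ y ∈ Ioo y₂ y₁, ShootExit F (Γ (q y)) (W (q y)) (E y) := by
    intro y hy
    have hy' := Ioo_subset_Icc_self hy
    have e0 : min (Γ (q y) (E y) 2) (max (Γ (q y) (E y) 0) (δ - E y)) = 0 := hE0 y hy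
    have hxnn : 0 ≤ Γ (q y) (E y) 0 := by
      by_contra hc
      have h1 := hδE y hy (not_le.1 hc).le
      have h2 : 0 ≤ max (Γ (q y) (E y) 0) (δ - E y) := e0 ▸ min_le_right _ _
      rcases le_max_iff.1 h2 with h3 | h3
      · exact hc h3
      · linarith
    refine ⟨hg y hy', by rw [hα0]; rfl, hV0 y, (hE y hy).1,
      fun t ht => (lt_min_iff.1 (hEp y hy t ht)).1, fun t ht => ?_, hxnn,
      e0 ▸ min_le_left _ _, ?_⟩
    · rcases lt_max_iff.1 (lt_min_iff.1 (hEp y hy t ⟨ht.1.le, ht.2⟩)).2 with h1 | h1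
      · exact h1
      · exact hsmall y hy' t ⟨ht.1, by linarith⟩
    · rcases min_eq_iff.1 e0 with h1 | h1
      · exact Or.inr h1.1
      · exact Or.inl (le_antisymm (h1.1 ▸ le_max_left _ _) hxnn)
  refine ⟨fun y => Γ (q y), fun y => W (q y), E, T₀, cα, cV, ?_,
    fun y => ⟨by simp [hα0], hV0 y⟩, hg, ?_, ?_, fun y hy => ⟨(hE y hy).2, hexit y hy⟩⟩
  · refine shoot_cont cf (fun y hy => (hE y hy).1) hE0 hEp fun y hy b hb => ?_
    have s := hexit y hy
    rcases s.stop with h1 | h1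
    · obtain ⟨t, ht, h2⟩ := shoot_after (s.geo.dx 0 (E y)) (s.vx h h1) h1 hb
      refine ⟨t, ht, (min_le_right _ _).trans_lt (max_lt h2 ?_)⟩
      have := hδE y hy h1.le
      linarith [ht.1]
    · obtain ⟨t, ht, h2⟩ := shoot_after (s.geo.dx 2 (E y)) (s.vz h _ ⟨s.pos, le_rfl⟩) h1 hb
      exact ⟨t, ht, (min_le_left _ _).trans_lt h2⟩
  · simp only [hα0, hZ0 0 y₂ hp.bot.ge]
  · simp only [hα0, hZ0 0 y₁ hp.top.ge]

theorem Body.shoot (h : Body F) (hp : Poles F y₂ y₁) :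
    (∃ a v T, Shot F a v T ∧ 0 < a T 0 ∧ v T 2 ^ 2 = 3 / 4) ∨
      ∃ α V T lo hi, Fam F y₂ y₁ α V T lo hi := by
  obtain ⟨α, V, E, T₀, cα, cV, cE, h0, hg, hbot, htop, hE⟩ := shoot_family h hp
  let D : ℝ → ℝ := fun y => shootD F (α y (E y)) (V y (E y))
  let N : ℝ → ℝ := fun y => ‖gradient F (α y (E y))‖
  let U : Set ℝ := {y | (α y (E y) 0 = 0 ∧ α y (E y) 1 ≤ y) ∨ (α y (E y) 2 = 0 ∧ N y ≤ 2 * D y)}
  let L : Set ℝ := {y | (α y (E y) 0 = 0 ∧ y ≤ α y (E y) 1) ∨ (α y (E y) 2 = 0 ∧ N y ≤ -(2 * D y))}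
  have hN : ∀ y ∈ Ioo y₂ y₁, 0 < N y := fun y hy =>
    norm_pos_iff.2 (h.grad_ne ((hE y hy).2.geo.on _))
  have hDe : ∀ y, α y (E y) 0 = 0 → D y = V y (E y) 0 * gradient F (α y (E y)) 1 :=
    fun y h1 => ShootExit.D_eq h h1
  have cD : Continuous fun w : ℝ × ℝ => shootD F (α w.1 w.2) (V w.1 w.2) := shoot_contD h cα cV
  have cN : Continuous fun w : ℝ × ℝ => ‖gradient F (α w.1 w.2)‖ := (h.cont_grad.comp cα).norm
  -- the two ends
  have hnear : ∀ (σ y : ℝ), σ ^ 2 = 1 → y ∈ Icc y₂ y₁ → α y 0 = pt 0 y 0 →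
      0 < σ * gradient F (pt 0 y 0) 1 → ∀ᶠ y' in 𝓝 y, ∀ t ∈ Icc 0 T₀,
        0 < 2 * (σ * shootD F (α y' t) (V y' t)) - ‖gradient F (α y' t)‖ := by
    intro σ y hσ hy e hpos
    refine shoot_tube (f := fun y t => 2 * (σ * shootD F (α y t) (V y t)) - ‖gradient F (α y t)‖)
      ((continuous_const.mul (continuous_const.mul cD)).sub cN) fun t _ => ?_
    refine shoot_plane h (hg y hy) (by rw [e]; rfl) (by rw [(h0 y).2]; rfl) hσ ?_ t
    simpa [shootD, e, (h0 y).2] using hpos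
  have hU1 : ∀ᶠ y in 𝓝[<] y₁, y ∈ U := by
    have h1 := hnear 1 y₁ (by norm_num) ⟨hp.lt.le, le_rfl⟩ htop (by simpa using hp.gtop)
    filter_upwards [mem_nhdsWithin_of_mem_nhds h1, Ioo_mem_nhdsLT hp.lt] with y h2 hy
    obtain ⟨hT, s⟩ := hE y hy
    have h3 : 0 < 2 * (1 * D y) - N y := h2 _ ⟨s.pos.le, hT⟩
    rcases s.stop with h4 | h4
    · refine Or.inl ⟨h4, ?_⟩
      have h5 := s.side h h4
      have h6 := s.vx h h4
      have h7 := hDe y h4
      have h8 : gradient F (α y (E y)) 1 < 0 := by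
        by_contra hc
        have := mul_nonpos_of_nonpos_of_nonneg h6.le (not_lt.1 hc)
        linarith [hN y hy]
      rw [(h0 y).1] at h5
      by_contra hc
      have := mul_pos_of_neg_of_neg h8 (sub_neg.2 (not_le.1 hc))
      linarith
    · exact Or.inr ⟨h4, by linarith⟩
  have hL1 : ∀ᶠ y in 𝓝[>] y₂, y ∈ L := by
    have h1 := hnear (-1) y₂ (by norm_num) ⟨le_rfl, hp.lt.le⟩ hbot (by simpa using hp.gbot)
    filter_upwards [mem_nhdsWithin_of_mem_nhds h1, Ioo_mem_nhdsGT hp.lt] with y h2 hy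
    obtain ⟨hT, s⟩ := hE y hy
    have h3 : 0 < 2 * (-1 * D y) - N y := h2 _ ⟨s.pos.le, hT⟩
    rcases s.stop with h4 | h4
    · refine Or.inl ⟨h4, ?_⟩
      have h5 := s.side h h4
      have h6 := s.vx h h4
      have h7 := hDe y h4
      have h8 : 0 < gradient F (α y (E y)) 1 := by
        by_contra hc
        have := mul_nonneg_of_nonpos_of_nonpos h6.le (not_lt.1 hc)
        linarith [hN y hy]
      rw [(h0 y).1] at h5
      by_contra hc
      have := mul_pos h8 (sub_pos.2 (not_le.1 hc))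
      linarith
    · exact Or.inr ⟨h4, by linarith⟩
  obtain ⟨a, haL, ha⟩ := (hL1.and (Ioo_mem_nhdsGT hp.lt)).exists
  obtain ⟨b, hbU, hb⟩ := (hU1.and (Ioo_mem_nhdsLT ha.2)).exists
  have hsub : Icc a b ⊆ Ioo y₂ y₁ := fun y hy => ⟨ha.1.trans_le hy.1, hy.2.trans_lt hb.2⟩
  have cΦ : ContinuousOn (fun y => (y, E y)) (Icc a b) :=
    continuousOn_id.prodMk (cE.mono hsub)
  have hcl : ∀ {S : Set (ℝ × ℝ)}, IsClosed S → IsClosed (Icc a b ∩ (fun y => (y, E y)) ⁻¹' S) :=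
    fun hS => cΦ.preimage_isClosed_of_isClosed isClosed_Icc hS
  have hUc : IsClosed (Icc a b ∩ U) :=
    hcl (S := {w | (α w.1 w.2 0 = 0 ∧ α w.1 w.2 1 ≤ w.1) ∨ (α w.1 w.2 2 = 0 ∧
      ‖gradient F (α w.1 w.2)‖ ≤ 2 * shootD F (α w.1 w.2) (V w.1 w.2))})
      (((isClosed_eq (continuous_co cα 0) continuous_const).inter
        (isClosed_le (continuous_co cα 1) continuous_fst)).union
        ((isClosed_eq (continuous_co cα 2) continuous_const).inter
        (isClosed_le cN (continuous_const.mul cD))))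
  have hLc : IsClosed (Icc a b ∩ L) :=
    hcl (S := {w | (α w.1 w.2 0 = 0 ∧ w.1 ≤ α w.1 w.2 1) ∨ (α w.1 w.2 2 = 0 ∧
      ‖gradient F (α w.1 w.2)‖ ≤ -(2 * shootD F (α w.1 w.2) (V w.1 w.2)))})
      (((isClosed_eq (continuous_co cα 0) continuous_const).inter
        (isClosed_le continuous_fst (continuous_co cα 1))).union
        ((isClosed_eq (continuous_co cα 2) continuous_const).inter
        (isClosed_le cN (continuous_const.mul cD).neg)))
  -- points of `U` on the axis are the lower pole, points of `L` the upper pole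
  have hUp : ∀ y ∈ Ioo y₂ y₁, y ∈ U → α y (E y) 0 = 0 → α y (E y) 2 = 0 →
      α y (E y) = pt 0 y₂ 0 := by
    intro y hy hU h1 h2
    have s := (hE y hy).2
    refine (hp.eq_pole (s.geo.on _) h1 h2).resolve_right fun e => ?_
    rcases hU with h3 | h3
    · have := h3.2
      rw [e] at this
      exact absurd hy.2 (not_lt.2 this)
    · have h4 := hDe y h1
      rw [e] at h4
      have := mul_neg_of_neg_of_pos (s.vx h h1) hp.gtop
      linarith [hN y hy, h3.2]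
  have hLp : ∀ y ∈ Ioo y₂ y₁, y ∈ L → α y (E y) 0 = 0 → α y (E y) 2 = 0 →
      α y (E y) = pt 0 y₁ 0 := by
    intro y hy hL h1 h2
    have s := (hE y hy).2
    refine (hp.eq_pole (s.geo.on _) h1 h2).resolve_left fun e => ?_
    rcases hL with h3 | h3
    · have := h3.2
      rw [e] at this
      exact absurd hy.1 (not_lt.2 this)
    · have h4 := hDe y h1
      rw [e] at h4
      have := mul_pos_of_neg_of_neg (s.vx h h1) hp.gbot
      linarith [hN y hy, h3.2]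
  have hd : ∀ y ∈ Icc a b, y ∈ U → y ∉ L := by
    intro y hy hU hL
    have hy' := hsub hy
    have s := (hE y hy').2
    have hpole : α y (E y) 0 = 0 → α y (E y) 2 = 0 → False := by
      intro h1 h2
      have e := (hUp y hy' hU h1 h2).symm.trans (hLp y hy' hL h1 h2)
      exact hp.lt.ne (congrArg (fun p : E3 => p 1) e)
    rcases hU with h1 | h1 <;> rcases hL with h2 | h2
    · exact s.ne h h1.1 ((le_antisymm h1.2 h2.2).trans (h0 y).1.symm)
    · exact hpole h1.1 h2.1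
    · exact hpole h2.1 h1.1
    · linarith [hN y hy', h1.2, h2.2]
  obtain ⟨lo, hi, hlo, hlt, hhi, hloL, hhiU, hgap⟩ := shoot_gap hb.1 hUc hLc haL hbU hd
  have hsub' : Icc lo hi ⊆ Icc a b := Icc_subset_Icc hlo hhi
  have hvalid : ∀ y ∈ Ioo lo hi, 0 < α y (E y) 0 := by
    intro y hy
    refine lt_of_le_of_ne (hE y (hsub (hsub' (Ioo_subset_Icc_self hy)))).2.xnn fun e => ?_
    rcases le_total (α y (E y) 1) y with h1 | h1
    · exact (hgap y hy).1 (Or.inl ⟨e.symm, h1⟩)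
    · exact (hgap y hy).2 (Or.inl ⟨e.symm, h1⟩)
  have hin : ∀ y ∈ Icc lo hi, α y (E y) 2 = 0 ∧ 2 * D y ≤ N y ∧ -(2 * D y) ≤ N y := by
    have hc := hcl (S := {w | α w.1 w.2 2 = 0 ∧
      2 * shootD F (α w.1 w.2) (V w.1 w.2) ≤ ‖gradient F (α w.1 w.2)‖ ∧
      -(2 * shootD F (α w.1 w.2) (V w.1 w.2)) ≤ ‖gradient F (α w.1 w.2)‖})
      ((isClosed_eq (continuous_co cα 2) continuous_const).inter
        ((isClosed_le (continuous_const.mul cD) cN).inter
        (isClosed_le (continuous_const.mul cD).neg cN)))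
    intro y₀ hy₀
    rw [← closure_Ioo hlt.ne] at hy₀
    refine (closure_minimal ?_ hc hy₀).2
    intro y hy
    refine ⟨hsub' (Ioo_subset_Icc_self hy), ?_⟩
    have h1 := (hE y (hsub (hsub' (Ioo_subset_Icc_self hy)))).2.stop.resolve_left
      (hvalid y hy).ne'
    refine ⟨h1, ?_, ?_⟩
    · exact le_of_not_ge fun h2 => (hgap y hy).1 (Or.inr ⟨h1, h2⟩)
    · exact le_of_not_ge fun h2 => (hgap y hy).2 (Or.inr ⟨h1, h2⟩)
  have hshot : ∀ y ∈ Icc lo hi, Shot F (α y) (V y) (E y) := fun y hy =>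
    (hE y (hsub (hsub' hy))).2.shot h (hin y hy).1
  have mlo : lo ∈ Icc lo hi := ⟨le_rfl, hlt.le⟩
  have mhi : hi ∈ Icc lo hi := ⟨hlt.le, le_rfl⟩
  have slo := (hE lo (hsub (hsub' mlo))).2
  have shi := (hE hi (hsub (hsub' mhi))).2
  rcases shi.xnn.eq_or_lt with ehi | ehi
  swap
  · refine Or.inl ⟨_, _, _, hshot hi mhi, ehi, shoot_three h shi.geo (hin hi mhi).1 ?_⟩
    have h1 := (hhiU.resolve_left fun h1 => ehi.ne' h1.1).2
    have h2 : 2 * D hi = N hi := le_antisymm (hin hi mhi).2.1 h1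
    exact congrArg (· ^ 2) h2
  rcases slo.xnn.eq_or_lt with elo | elo
  swap
  · refine Or.inl ⟨_, _, _, hshot lo mlo, elo, shoot_three h slo.geo (hin lo mlo).1 ?_⟩
    have h1 := (hloL.resolve_left fun h1 => elo.ne' h1.1).2
    have h2 : -(2 * D lo) = N lo := le_antisymm (hin lo mlo).2.2 h1
    exact (neg_sq _).symm.trans (congrArg (· ^ 2) h2)
  have e1 := hUp hi (hsub (hsub' mhi)) hhiU ehi.symm (hin hi mhi).1
  have e2 := hLp lo (hsub (hsub' mlo)) hloL elo.symm (hin lo mlo).1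
  refine Or.inr ⟨α, V, E, lo, hi, cα, cV, cE.mono (hsub'.trans hsub), hlt, hshot, hvalid,
    ⟨hshot hi mhi, e1, shi.vx h ehi.symm, ?_⟩, e2⟩
  have h1 := (hin hi mhi).2.1
  rw [hDe hi ehi.symm] at h1
  have h2 : N hi = -gradient F (α hi (E hi)) 1 := by
    have h3 : gradient F (α hi (E hi)) 1 < 0 := by rw [e1]; exact hp.gbot
    refine (pow_left_inj₀ (norm_nonneg _) (neg_pos.2 h3).le two_ne_zero).1 ?_
    rw [norm_sq3, h.g0_zero ehi.symm, h.g2_zero (hin hi mhi).1]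
    ring
  have h3 : gradient F (α hi (E hi)) 1 < 0 := by rw [e1]; exact hp.gbot
  rw [h2] at h1
  by_contra hc
  have := mul_pos_of_neg_of_neg (show V hi (E hi) 0 + 1 / 2 < 0 by linarith) h3
  linarith

end Pool.Agent.MP_c01216_gt
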