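import Pool.Agent.MP_c01216_gt.Flow

set_option autoImplicit false

namespace Pool.Agent.MP_c01216_gt

open Set Filter Topology

variable {F : E3 → ℝ} {y₂ y₁ : ℝ}

theorem theta_return {x : ℝ → ℝ} (hc : Continuous x) (hd : HasDerivAt x 1 0) (h0 : x 0 = 0)
    {b : ℝ} (hb : 0 < b) (hb' : x b ≤ 0) : ∃ R, 0 < R ∧ x R = 0 ∧ ∀ t ∈ Ioo 0 R, 0 < x t := by
  have h1 := (hasDerivAt_iff_tendsto_slope_left_right.1 hd).2.eventually (lt_mem_nhds one_pos)
  obtain ⟨d, hd0, h2⟩ := (mem_nhdsGT_iff_exists_Ioc_subset).1 h1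
  have h3 : ∀ t ∈ Ioc 0 d, 0 < x t := fun t ht => by
    have := h2 ht
    simp only [mem_ofPred_eq, slope_def_field, h0, sub_zero] at this
    exact (div_pos_iff_of_pos_right ht.1).1 this
  have h4 : d ≤ b := not_lt.1 fun h => (h3 b ⟨hb, h.le⟩).not_ge hb'
  obtain ⟨c, hc1, hc2⟩ : ∃ c ∈ Icc d b, x c = 0 :=
    intermediate_value_Icc' h4 hc.continuousOn ⟨hb', (h3 d ⟨hd0, le_rfl⟩).le⟩
  have hK : IsCompact (Icc d b ∩ x ⁻¹' {0}) :=
    isCompact_Icc.inter_right (isClosed_singleton.preimage hc)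
  obtain ⟨R, hR, hmin⟩ := hK.exists_isLeast ⟨c, hc1, hc2⟩
  refine ⟨R, lt_of_lt_of_le hd0 hR.1.1, hR.2, fun t ht => not_le.1 fun h => ?_⟩
  have h5 : d ≤ t := not_lt.1 fun h' => (h3 t ⟨ht.1, h'.le⟩).not_ge h
  obtain ⟨e, he1, he2⟩ : ∃ e ∈ Icc d t, x e = 0 :=
    intermediate_value_Icc' h5 hc.continuousOn ⟨h, (h3 d ⟨hd0, le_rfl⟩).le⟩
  exact (hmin ⟨⟨he1.1, he1.2.trans (ht.2.le.trans hR.1.2)⟩, he2⟩).not_gt (he1.2.trans_lt ht.2)

theorem theta_equator (h : Body F) {σ y y' : ℝ} (hσ : σ ≠ 0) (hy : F (pt 0 y 0) = 0)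
    (lo : ∀ p, F p ≤ 0 → p ≠ pt 0 y 0 → σ * y < σ * p 1)
    (hi : ∀ p, F p ≤ 0 → p ≠ pt 0 y' 0 → σ * p 1 < σ * y')
    (pole : ∀ p, F p = 0 → p 0 = 0 → p 2 = 0 → p = pt 0 y 0 ∨ p = pt 0 y' 0)
    {E : E3} (hE : F E = 0) (h0 : 0 < E 0) (h2 : E 2 = 0) :
    ∃ (κ u : ℝ → E3) (τ : ℝ), Geo F κ u ∧ κ 0 0 = 0 ∧ u 0 = pt 1 0 0 ∧ 0 < τ ∧ κ τ = E ∧
      (∀ t, κ t 2 = 0 ∧ u t 2 = 0) ∧ (∀ t ∈ Ioc 0 τ, 0 < κ t 0) ∧ 0 < σ * u τ 1 ∧
      InjOn (fun t => κ t 1) (Icc 0 τ) := by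
  obtain ⟨Γ, V, -, -, e0, hg⟩ := h.exists_flow
  have g := hg (pt 0 y 0, pt 1 0 0) hy (by simp [fderiv_eq3, h.g0_zero (p := pt 0 y 0) rfl])
    ((pow_eq_one_iff_of_nonneg (norm_nonneg _) two_ne_zero).1 (by simp [norm_sq3]))
  obtain ⟨e1, e2⟩ := e0 (pt 0 y 0, pt 1 0 0)
  generalize Γ (pt 0 y 0, pt 1 0 0) = κ at g e1
  generalize V (pt 0 y 0, pt 1 0 0) = u at g e2
  have pl := g.plane h (t₀ := 0) (by rw [e1]; rfl) (by rw [e2]; rfl)
  obtain ⟨T₀, -, hT⟩ := h.exists_time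
  obtain ⟨b, hb, hb'⟩ := (hT κ u g).1
  obtain ⟨R, hR, hR0, hx⟩ := theta_return (continuous_co g.cγ 0)
    (by simpa [e2] using g.dx 0 0) (by rw [e1]; rfl) hb.1 hb'
  have dy : ∀ t, HasDerivAt (fun s => σ * κ s 1) (σ * u t 1) t := fun t => (g.dx 1 t).const_mul σ
  have cy : Continuous fun s => σ * κ s 1 := continuous_const.mul (continuous_co g.cγ 1)
  have ne : ∀ t ∈ Ioo 0 R, σ * u t 1 ≠ 0 := fun t ht h1 => by
    have h3 := (mul_eq_zero.1 h1).resolve_left hσ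
    have h4 := g.tan h t
    have h5 := g.sq t
    rw [h3, (pl t).2, mul_zero, mul_zero, add_zero, add_zero] at h4
    rw [h3, (pl t).2, (mul_eq_zero.1 h4).resolve_left (h.g0_pos (hx t ht)).ne'] at h5
    norm_num at h5
  have pos : ∀ t ∈ Ioo 0 R, 0 < σ * u t 1 := fun t ht => not_le.1 fun h1 => by
    obtain ⟨c, hc, hc'⟩ := exists_hasDerivAt_eq_slope _ _ ht.1 cy.continuousOn fun s _ => dy s
    have h3 : σ * κ 0 1 < σ * κ t 1 := by
      rw [e1]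
      exact lo _ (g.on t).le fun e => (hx t ht).ne' (by rw [e]; rfl)
    have h4 : 0 ≤ σ * u c 1 := by
      rw [hc']
      exact div_nonneg (sub_nonneg.2 h3.le) (sub_nonneg.2 ht.1.le)
    obtain ⟨e, he1, he2⟩ : ∃ e ∈ Icc c t, σ * u e 1 = 0 := intermediate_value_Icc' hc.2.le
      (continuous_const.mul (continuous_co g.cv 1)).continuousOn ⟨h1, h4⟩
    exact ne e ⟨hc.1.trans_le he1.1, he1.2.trans_lt ht.2⟩ he2
  have mono : StrictMonoOn (fun s => σ * κ s 1) (Icc 0 R) :=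
    strictMonoOn_of_deriv_pos (convex_Icc _ _) cy.continuousOn fun t ht => by
      rw [interior_Icc] at ht
      rw [(dy t).deriv]
      exact pos t ht
  have h3 : κ R = pt 0 y' 0 := (pole _ (g.on R) hR0 (pl R).1).resolve_left fun e => by
    have := mono ⟨le_rfl, hR.le⟩ ⟨hR.le, le_rfl⟩ hR
    simp only [e, e1] at this
    exact lt_irrefl _ this
  obtain ⟨τ, hτ, hτ'⟩ : ∃ τ ∈ Ioo 0 R, σ * κ τ 1 = σ * E 1 :=
    intermediate_value_Ioo hR.le cy.continuousOn (by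
      simp only [e1, h3]
      exact ⟨lo E hE.le fun e => h0.ne' (by rw [e]; rfl), hi E hE.le fun e => h0.ne' (by rw [e]; rfl)⟩)
  refine ⟨κ, u, τ, g, by rw [e1]; rfl, e2, hτ.1, h.eq_of_yz (g.on τ) hE (hx τ hτ).le h0.le
    (mul_left_cancel₀ hσ hτ') ((pl τ).1.trans h2.symm), pl,
    fun t ht => hx t ⟨ht.1, ht.2.trans_lt hτ.2⟩, pos τ hτ, fun s hs t ht e => ?_⟩
  exact mono.injOn ⟨hs.1, hs.2.trans hτ.2.le⟩ ⟨ht.1, ht.2.trans hτ.2.le⟩ (congrArg (σ * ·) e)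

/-- The symmetric piece of a geodesic, on the unit interval. -/
def thetaArc (a : ℝ → E3) (T : ℝ) (s : ℝ) : E3 := a ((2 * s - 1) * T)

section Arc

variable {a v : ℝ → E3} {T : ℝ}

theorem theta_lin (T s : ℝ) : HasDerivAt (fun s : ℝ => (2 * s - 1) * T) (2 * T) s := by
  simpa using (((hasDerivAt_id' s).const_mul 2).sub_const 1).mul_const T

theorem theta_deriv (g : Geo F a v) (T : ℝ) :
    deriv (thetaArc a T) = fun s => (2 * T) • v ((2 * s - 1) * T) :=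
  funext fun s => ((g.d1 _).scomp s (theta_lin T s)).deriv

theorem theta_unit (g : Geo F a v) (hT : 0 < T) (s : ℝ) :
    ‖deriv (thetaArc a T) s‖⁻¹ • deriv (thetaArc a T) s = v ((2 * s - 1) * T) := by
  have : 0 < 2 * T := by positivity
  simp only [theta_deriv g]
  rw [norm_smul, g.unit, mul_one, Real.norm_of_nonneg this.le, smul_smul, inv_mul_cancel₀ this.ne',
    one_smul]

theorem theta_geo (h : Body F) (g : Geo F a v) (hT : 0 < T) : IsGeodesic F (thetaArc a T) := by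
  refine ⟨(g.contDiff h).comp (f := fun s : ℝ => (2 * s - 1) * T) (by fun_prop),
    fun s _ => ⟨g.on _, fun e => ?_, ?_⟩⟩
  · have h1 := theta_unit g hT s
    have h2 := g.unit ((2 * s - 1) * T)
    rw [← h1, e] at h2
    simp at h2
  · refine ⟨(2 * T) * ((2 * T) * -(mu F (thetaArc a T s) (v ((2 * s - 1) * T)))), ?_⟩
    rw [theta_deriv g, ← smul_smul (2 * T), ← smul_smul (2 * T)]
    exact (((g.d2 _).scomp s (theta_lin T s)).const_smul (2 * T)).deriv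

theorem theta_abs (h : Body F) (g : Geo F a v) (h0 : a 0 0 = 0) (h1 : v 0 = pt 1 0 0) (t : ℝ) :
    a |t| = a t ∨ a |t| = Rx (a t) := by
  rcases abs_choice t with e | e <;> rw [e]
  · exact Or.inl rfl
  · exact Or.inr (g.sym_x h h0 h1 t).1

theorem theta_mem (hT : 0 < T) {s : ℝ} (hs : s ∈ Icc (0 : ℝ) 1) : |(2 * s - 1) * T| ∈ Icc 0 T :=
  ⟨abs_nonneg _, abs_le.2 ⟨by nlinarith [hs.1], by nlinarith [hs.2]⟩⟩

theorem theta_inj (h : Body F) (g : Geo F a v) (h0 : a 0 0 = 0) (h1 : v 0 = pt 1 0 0) (hT : 0 < T)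
    (hx : ∀ t ∈ Ioc 0 T, 0 < a t 0) {j : Fin 3} (hj : ∀ p, Rx p j = p j)
    (hi : InjOn (fun t => a t j) (Icc 0 T)) : InjOn (thetaArc a T) (Icc 0 1) := by
  intro s hs t ht e
  have h2 : ∀ t, a |t| j = a t j := fun t => by
    rcases theta_abs h g h0 h1 t with e | e <;> rw [e]
    exact hj _
  unfold thetaArc at e
  have h3 := hi (theta_mem hT hs) (theta_mem hT ht) (by simp only [h2, e])
  have h4 : (2 * s - 1) * T = (2 * t - 1) * T := by
    rcases abs_eq_abs.1 h3 with e' | e'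
    · exact e'
    have h5 := congrArg (· 0) e
    simp only [e', (g.sym_x h h0 h1 _).1, Rx_0] at h5
    have h6 : a |(2 * t - 1) * T| 0 = 0 := by
      rcases theta_abs h g h0 h1 ((2 * t - 1) * T) with e | e <;> rw [e]
      · linarith
      · rw [Rx_0]
        linarith
    have h7 : (2 * t - 1) * T = 0 := by_contra fun h7 =>
      (hx _ ⟨abs_pos.2 h7, (theta_mem hT ht).2⟩).ne' h6
    rw [e', h7, neg_zero]
  linarith [mul_right_cancel₀ hT.ne' h4]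

theorem theta_zero (h : Body F) (g : Geo F a v) (h0 : a 0 0 = 0) (h1 : v 0 = pt 1 0 0) (T : ℝ) :
    thetaArc a T 0 = Rx (a T) := by
  simpa [thetaArc] using (g.sym_x h h0 h1 T).1

theorem theta_one (a : ℝ → E3) (T : ℝ) : thetaArc a T 1 = a T := by
  norm_num [thetaArc]

theorem theta_ends (h : Body F) (g : Geo F a v) (h0 : a 0 0 = 0) (h1 : v 0 = pt 1 0 0)
    (hT : 0 < T) : ‖deriv (thetaArc a T) 0‖⁻¹ • deriv (thetaArc a T) 0 = -Rx (v T) ∧
      ‖deriv (thetaArc a T) 1‖⁻¹ • deriv (thetaArc a T) 1 = v T := by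
  rw [theta_unit g hT, theta_unit g hT, ← (g.sym_x h h0 h1 T).2]
  norm_num

end Arc

theorem theta_embedded {γ : Fin 3 → ℝ → E3} (hne : γ 0 0 ≠ γ 0 1)
    (he : ∀ i, γ i 0 = γ 0 0 ∧ γ i 1 = γ 0 1) (inj : ∀ i, InjOn (γ i) (Icc 0 1))
    (sep : ∀ i j, i ≠ j → ∀ s ∈ Ioo (0 : ℝ) 1, ∀ t ∈ Ioo (0 : ℝ) 1, γ i s ≠ γ j t) :
    IsEmbedded γ := by
  have key : ∀ i j, ∀ s ∈ Icc (0 : ℝ) 1, ∀ t ∈ Icc (0 : ℝ) 1, γ i s = γ j t → s ∉ Ioo (0 : ℝ) 1 →
      (s = 0 ∧ t = 0) ∨ (s = 1 ∧ t = 1) := by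
    intro i j s hs t ht e h
    rcases eq_endpoints_or_mem_Ioo_of_mem_Icc hs with rfl | rfl | h'
    · exact Or.inl ⟨rfl, inj j ht hs (by rw [← e, (he i).1, (he j).1])⟩
    · exact Or.inr ⟨rfl, inj j ht hs (by rw [← e, (he i).2, (he j).2])⟩
    · exact (h h').elim
  refine ⟨hne, he, fun i j s hs t ht e => ?_⟩
  by_cases hij : i = j
  · subst hij
    exact Or.inl ⟨rfl, inj i hs ht e⟩
  by_cases h1 : s ∈ Ioo (0 : ℝ) 1
  · exact Or.inr ((key j i t ht s hs e.symm fun h2 => sep i j hij s h1 t h2 e).imp And.symm And.symm)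
  · exact Or.inr (key i j s hs t ht e h1)

theorem Body.theta_of_shot (h : Body F) (hp : Poles F y₂ y₁) {a v : ℝ → E3} {T : ℝ}
    (s : Shot F a v T) (hx : 0 < a T 0) (hv : v T 2 ^ 2 = 3 / 4) :
    ∃ γ : Fin 3 → ℝ → E3, IsTheta F γ := by
  have g := s.geo
  have g0 := h.g0_pos hx
  have t1 := g.tan h T
  have q1 := g.sq T
  rw [h.g2_zero s.zT, zero_mul, add_zero] at t1
  have w1 : v T 1 ≠ 0 := fun e => by
    rw [e, mul_zero, add_zero] at t1
    rw [e, (mul_eq_zero.1 t1).resolve_left g0.ne', hv] at q1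
    norm_num at q1
  obtain ⟨κ, u, τ, k, k0, u0, hτ, kE, pl, kx, us, ki⟩ : ∃ (κ u : ℝ → E3) (τ : ℝ), Geo F κ u ∧
      κ 0 0 = 0 ∧ u 0 = pt 1 0 0 ∧ 0 < τ ∧ κ τ = a T ∧ (∀ t, κ t 2 = 0 ∧ u t 2 = 0) ∧
      (∀ t ∈ Ioc 0 τ, 0 < κ t 0) ∧ 0 < -v T 1 * u τ 1 ∧ InjOn (fun t => κ t 1) (Icc 0 τ) := by
    rcases lt_or_gt_of_ne w1 with h1 | h1
    · exact theta_equator h (neg_ne_zero.2 w1) hp.bot
        (fun p a b => mul_lt_mul_of_pos_left (hp.lo p a b) (neg_pos.2 h1))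
        (fun p a b => mul_lt_mul_of_pos_left (hp.hi p a b) (neg_pos.2 h1))
        (fun p => hp.eq_pole) (g.on T) hx s.zT
    · exact theta_equator h (neg_ne_zero.2 w1) hp.top
        (fun p a b => mul_lt_mul_of_neg_left (hp.hi p a b) (neg_neg_of_pos h1))
        (fun p a b => mul_lt_mul_of_neg_left (hp.lo p a b) (neg_neg_of_pos h1))
        (fun p a b c => (hp.eq_pole a b c).symm) (g.on T) hx s.zT
  have t2 := k.tan h τ
  have q2 := k.sq τ
  rw [kE, (pl τ).2, mul_zero, add_zero] at t2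
  rw [(pl τ).2] at q2
  have c1 : u τ 0 * v T 1 = u τ 1 * v T 0 :=
    mul_left_cancel₀ g0.ne' (by linear_combination v T 1 * t2 - u τ 1 * t1)
  have c2 : (u τ 1 + 2 * v T 1) * (u τ 1 - 2 * v T 1) = 0 := by
    linear_combination -4 * u τ 1 ^ 2 * (q1 - hv) + 4 * v T 1 ^ 2 * q2 -
      4 * (u τ 0 * v T 1 + u τ 1 * v T 0) * c1
  have c3 : u τ 1 = -2 * v T 1 := by
    rcases mul_eq_zero.1 c2 with e | e
    · linarith
    · rw [sub_eq_zero.1 e] at us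
      nlinarith [sq_nonneg (v T 1)]
  have c4 : u τ 0 = -2 * v T 0 := mul_right_cancel₀ w1 (by rw [c1, c3]; ring)
  have bal : v T + Rz (v T) + u τ = 0 :=
    ext3 (by simp [c4]; ring) (by simp [c3]; ring) (by simp [(pl τ).2])
  have g' := g.rz h
  have a0 : Rz (a 0) 0 = 0 := s.x0
  have v0 : Rz (v 0) = pt 1 0 0 := by simp [s.v0]
  have ax : ∀ t ∈ Ioc 0 T, 0 < a t 0 := fun t ht =>
    ht.2.eq_or_lt.elim (fun e => e ▸ hx) fun e => s.xpos t ⟨ht.1, e⟩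
  have az : InjOn (fun t => a t 2) (Icc 0 T) :=
    (strictAntiOn_of_deriv_neg (convex_Icc _ _) (continuous_co g.cγ 2).continuousOn fun t ht => by
      rw [interior_Icc] at ht
      rw [(g.dx 2 t).deriv]
      exact s.vz t ⟨ht.1, ht.2.le⟩).injOn
  have zp : ∀ t ∈ Ioo (0 : ℝ) 1, 0 < thetaArc a T t 2 := fun t ht => by
    have h1 := s.zpos |(2 * t - 1) * T|
      ⟨abs_nonneg _, abs_lt.2 ⟨by nlinarith [ht.1, s.pos], by nlinarith [ht.2, s.pos]⟩⟩
    rcases theta_abs h g s.x0 s.v0 ((2 * t - 1) * T) with e | e <;> rw [e] at h1 <;> exact h1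
  have zn : ∀ t, thetaArc (fun t => Rz (a t)) T t 2 = -thetaArc a T t 2 := fun _ => rfl
  have zz : ∀ t, thetaArc κ τ t 2 = 0 := fun _ => (pl _).1
  have rE : Rz (a T) = a T := ext3 rfl rfl (by simp [s.zT])
  have e0 := theta_ends h g s.x0 s.v0 s.pos
  have e1 := theta_ends h g' a0 v0 s.pos
  have e2 := theta_ends h k k0 u0 hτ
  refine ⟨![thetaArc a T, thetaArc (fun t => Rz (a t)) T, thetaArc κ τ], fun i => ?_,
    theta_embedded ?_ (fun i => ?_) (fun i => ?_) fun i j hij p hp' q hq e => ?_, ?_, ?_⟩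
  · fin_cases i
    exacts [theta_geo h g s.pos, theta_geo h g' s.pos, theta_geo h k hτ]
  · intro e
    have := congrArg (· 0) ((theta_zero h g s.x0 s.v0 T).symm.trans (e.trans (theta_one a T)))
    simp only [Rx_0] at this
    linarith
  · fin_cases i
    · exact ⟨rfl, rfl⟩
    · exact ⟨(theta_zero h g' a0 v0 T).trans ((congrArg Rx rE).trans
        (theta_zero h g s.x0 s.v0 T).symm),
        (theta_one (fun t => Rz (a t)) T).trans (rE.trans (theta_one a T).symm)⟩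
    · exact ⟨(theta_zero h k k0 u0 τ).trans ((congrArg Rx kE).trans
        (theta_zero h g s.x0 s.v0 T).symm), (theta_one _ τ).trans (kE.trans (theta_one a T).symm)⟩
  · fin_cases i
    · exact theta_inj h g s.x0 s.v0 s.pos ax Rx_2 az
    · exact theta_inj h g' a0 v0 s.pos ax Rx_2 fun p hp q hq e => az hp hq (neg_injective e)
    · exact theta_inj h k k0 u0 hτ kx Rx_1 ki
  · have h1 := congrArg (· 2) e
    have h2 := zp p hp'
    have h3 := zp q hq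
    fin_cases i <;> fin_cases j <;> first
      | exact hij rfl
      | (simp only [Fin.zero_eta, Fin.mk_one, Fin.reduceFinMk, Matrix.cons_val_zero,
          Matrix.cons_val_one, Matrix.cons_val, zn, zz] at h1
         linarith)
  · rw [IsBalanced, Fin.sum_univ_three]
    refine (congrArg₂ (· + ·) (congrArg₂ (· + ·) e0.1 e1.1) e2.1).trans ?_
    rw [← neg_add, ← neg_add, ← map_add, ← map_add, bal, map_zero, neg_zero]
  · rw [IsBalanced, Fin.sum_univ_three]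
    exact (congrArg₂ (· + ·) (congrArg₂ (· + ·) e0.2 e1.2) e2.2).trans bal

theorem theta_sw_deriv (g : ℝ → E3) : deriv (fun t => Sw (g t)) = fun t => Sw (deriv g t) := by
  funext t
  exact congrArg (· 1) (Sw.comp_fderiv (f := g) (x := t))

theorem IsTheta.sw {γ : Fin 3 → ℝ → E3} (h : IsTheta (fun p => F (Sw p)) γ) :
    IsTheta F fun i t => Sw (γ i t) := by
  obtain ⟨h1, ⟨h2, h3, h4⟩, h5, h6⟩ := h
  have bal : ∀ t, IsBalanced γ t → IsBalanced (fun i t => Sw (γ i t)) t := fun t ht => by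
    unfold IsBalanced at ht ⊢
    simp only [theta_sw_deriv, Sw.norm_map, ← map_smul, ← map_sum, ht, map_zero]
  refine ⟨fun i => ⟨Sw.contDiff.comp (h1 i).1, fun t ht => ?_⟩, ⟨fun e => h2 (Sw.injective e),
    fun i => ⟨congrArg Sw (h3 i).1, congrArg Sw (h3 i).2⟩,
    fun i j s hs t ht e => h4 i j s hs t ht (Sw.injective e)⟩, bal 0 h5, bal 1 h6⟩
  obtain ⟨a, b, c, hc⟩ := (h1 i).2 t ht
  refine ⟨a, ?_, c, ?_⟩
  · simpa only [theta_sw_deriv, ne_eq, map_eq_zero_iff _ Sw.injective] using b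
  · simp only [theta_sw_deriv, hc, grad_Sw, map_smul, Sw_Sw]

end Pool.Agent.MP_c01216_gt
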