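import Pool.Agent.MP_c01216_gt.Cross
import Pool.Agent.MP_c01216_gt.GB
import Pool.Agent.MP_c01216_gt.Shoot
import Pool.Agent.MP_c01216_gt.Theta

set_option autoImplicit false

namespace Pool.Agent.MP_c01216_gt

open Set Filter Topology MeasureTheory

variable {F : E3 → ℝ} {a v b w : ℝ → E3} {T S y₂ y₁ : ℝ}

theorem not_both (h : Body F) (hp : Poles F y₂ y₁) (A : Arc F y₂ a v T)
    (B : Arc (fun p => F (Sw p)) y₂ b w S)
    (hc : ∀ s ∈ Icc 0 T, ∀ t ∈ Icc 0 S, a s = Sw (b t) → t = S) {p : E3} (h0 : F p = 0)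
    (hx : 0 < p 0) (hz : 0 < p 2) (h1 : Below a T p) (h2 : Below b S (Sw p)) : False := by
  obtain ⟨τ, I⟩ := A.exists_inv
  obtain ⟨τ', I'⟩ := B.exists_inv
  obtain ⟨Z, cZ, Z0, Z1, Z2, -, Z3⟩ := h.exists_Z
  have z0 := A.zpos 0 ⟨le_rfl, A.pos⟩
  have c1 : Continuous fun s => side b τ' (Sw (a s)) :=
    (B.cont_side I').comp (Sw.continuous.comp A.geo.cγ)
  have up : ∀ s ∈ Ico 0 T, 0 < side b τ' (Sw (a s)) := fun s hs => by
    by_contra hn
    have h3 : 0 < side b τ' (Sw (a 0)) := by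
      rw [B.side_zero I' A.x0]
      exact sub_pos.2 (hp.lo (a 0) (A.geo.on 0).le fun e => z0.ne' (by rw [e, pt_2]))
    obtain ⟨s', h4, h5⟩ := intermediate_value_Icc' hs.1 c1.continuousOn ⟨not_lt.1 hn, h3.le⟩
    have h6 : s' ∈ Icc 0 T := ⟨h4.1, h4.2.trans hs.2.le⟩
    obtain ⟨t, h7, h8⟩ := B.on_of_side h.swap I' (p := Sw (a s'))
      (by simpa only [Sw_Sw] using A.geo.on s') (A.znn h6) (A.xnn h6) h5
    have h9 := hc s' h6 t h7 (by rw [h8, Sw_Sw])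
    have h10 := congrArg (fun p : E3 => p 0) h8
    simp only [h9, B.stop, pt_0, Sw_0] at h10
    exact (A.zpos s' ⟨h4.1, h4.2.trans_lt hs.2⟩).ne h10
  have ne : ∀ y z, pt (p 0) y z ≠ pt 0 y₂ 0 := fun y z e => hx.ne' (congrArg (fun p : E3 => p 0) e)
  have l1 : y₂ < p 1 := hp.lo p h0.le (pt_eta p ▸ ne _ _)
  have l2 : F (pt (p 0) (p 1) 0) < 0 := (h.mono2 _ _ le_rfl hz).trans_eq (by rw [pt_eta, h0])
  have c2 : Continuous fun y => F (pt (p 0) y 0) := h.cont.comp (by fun_prop)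
  obtain ⟨y₀, l3, l4⟩ := intermediate_value_Icc' l1.le c2.continuousOn
    ⟨l2.le, (hp.bot.symm.trans_lt (h.mono0 y₂ 0 le_rfl hx)).le⟩
  have c3 : Continuous fun y => side a τ (pt (p 0) y (Z (p 0) y)) :=
    (A.cont_side I).comp (continuous_pt continuous_const continuous_id
      (cZ.comp (Continuous.prodMk_right (p 0))))
  obtain ⟨y, l5, l6⟩ := intermediate_value_Icc' l3.2 c3.continuousOn (show (0 : ℝ) ∈ _ from ⟨by
    simp only [Z3 p h0 hz.le, pt_eta]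
    exact (Shot.side_of_below I h1).le, by
    simp only [Z2 _ _ l4.ge]
    rw [A.side_zero I (pt_2 _ _ _)]
    exact sub_nonneg.2 l3.1⟩)
  have l7 : F (pt (p 0) y 0) ≤ 0 := by
    obtain ⟨c, d, hc, hd, e, e'⟩ := Icc_subset_segment (𝕜 := ℝ) l5
    refine (h.convexOn.le_on_segment (x := pt (p 0) y₀ 0) (y := pt (p 0) (p 1) 0)
      (z := pt (p 0) y 0) (mem_univ _) (mem_univ _)
      ⟨c, d, hc, hd, e, ext3 ?_ e' (by simp)⟩).trans (max_le l4.le l2.le)
    simp only [PiLp.add_apply, PiLp.smul_apply, pt_0, smul_eq_mul]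
    linear_combination p 0 * e
  obtain ⟨s, l8, l9⟩ := A.on_of_side h I (Z1 _ _ l7) hx.le (Z0 _ _) l6
  have l10 := up s ⟨l8.1, l8.2.lt_of_ne fun e => ne _ _ (by rw [← l9, e, A.stop])⟩
  have l11 := Shot.side_of_below I' h2
  simp only [side, l9, Sw_1, Sw_2, pt_0, pt_1] at l10 l11
  linarith [l5.2]

theorem Body.theta (h : Body F) : ∃ γ : Fin 3 → ℝ → E3, IsTheta F γ := by
  obtain ⟨y₂, y₁, hp⟩ := h.exists_poles
  rcases h.shoot hp with ⟨a, v, T, s, h1, h2⟩ | ⟨α, V, T, lo, hi, B⟩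
  · exact h.theta_of_shot hp s h1 h2
  rcases h.swap.shoot hp.swap with ⟨a, v, T, s, h1, h2⟩ | ⟨α', V', T', lo', hi', B'⟩
  · obtain ⟨γ, hγ⟩ := h.swap.theta_of_shot hp.swap s h1 h2
    exact ⟨_, hγ.sw⟩
  obtain ⟨W, m, s, i, hW⟩ := gb h hp B.arc
  obtain ⟨W', m', s', i', hW'⟩ := gb h.swap hp.swap B'.arc
  have := two_sets m m' s s' fun q hq hq' => by
    obtain ⟨p, p1, p2, p3, p4, p5, p6⟩ := hW _ hq'
    obtain ⟨p', q1, q2, q3, q4, q5, q6⟩ := hW' _ hq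
    simp only [grad_Sw, Sw_0, Sw_1, Sw_2] at q4 q5
    have g0 := h.g0_pos p2
    have q0 : 0 < q.2 := s' hq
    have e : p = Sw p' := by
      refine h.eq_of_normal p1 q1 (div_pos (h.g0_pos (p := Sw p') q3) g0) (ext3 ?_ ?_ ?_)
      · simp only [PiLp.smul_apply, smul_eq_mul]
        field_simp
      · simp only [PiLp.smul_apply, smul_eq_mul, p4, q4, q5]
        field_simp
      · simp only [PiLp.smul_apply, smul_eq_mul, p5, q5]
        field_simp
    exact not_both h hp B.arc B'.arc (fun s hs t ht => cross h hp B.arc B' hs ht) p1 p2 p3 p6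
      (by rwa [e, Sw_Sw])
  linarith

end Pool.Agent.MP_c01216_gt
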