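import Pool.Agent.MP_c01216_gt.Conv
import Pool.Agent.MP_019006_gt.FlowExist

set_option autoImplicit false

namespace Pool.Agent.MP_c01216_gt

open Set Filter Topology

variable {F : E3 → ℝ} {γ v : ℝ → E3}

theorem Geo.cγ (g : Geo F γ v) : Continuous γ :=
  continuous_iff_continuousAt.2 fun t => (g.d1 t).continuousAt

theorem Geo.cv (g : Geo F γ v) : Continuous v :=
  continuous_iff_continuousAt.2 fun t => (g.d2 t).continuousAt

theorem Geo.dx (g : Geo F γ v) (i : Fin 3) (t : ℝ) : HasDerivAt (fun s => γ s i) (v t i) t :=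
  hasDerivAt_co (g.d1 t) i

theorem Geo.dv (g : Geo F γ v) (i : Fin 3) (t : ℝ) :
    HasDerivAt (fun s => v s i) (-(mu F (γ t) (v t) * gradient F (γ t) i)) t := by
  simpa using hasDerivAt_co (g.d2 t) i

theorem Geo.sq (g : Geo F γ v) (t : ℝ) : v t 0 ^ 2 + v t 1 ^ 2 + v t 2 ^ 2 = 1 := by
  rw [← norm_sq3, g.unit, one_pow]

theorem Geo.tan (h : Body F) (g : Geo F γ v) (t : ℝ) :
    gradient F (γ t) 0 * v t 0 + gradient F (γ t) 1 * v t 1 + gradient F (γ t) 2 * v t 2 = 0 := by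
  have h1 := h.hasDerivAt (g.d1 t)
  rw [funext g.on, fderiv_eq3] at h1
  exact h1.unique (hasDerivAt_const t 0)

theorem flow_mu_pos (h : Body F) {p w : E3} (hp : F p = 0) (hw : ‖w‖ = 1) : 0 < mu F p w :=
  div_pos (h.conv _ _ (norm_ne_zero_iff.1 (by rw [hw]; exact one_ne_zero)))
    (pow_pos (norm_pos_iff.2 (h.grad_ne hp)) 2)

theorem Geo.mu_pos (h : Body F) (g : Geo F γ v) (t : ℝ) : 0 < mu F (γ t) (v t) :=
  flow_mu_pos h (g.on t) (g.unit t)

theorem Geo.cmu (h : Body F) (g : Geo F γ v) : Continuous fun t => mu F (γ t) (v t) :=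
  (h.cont_hess.comp (g.cγ.prodMk g.cv)).div ((h.cont_grad.comp g.cγ).norm.pow 2)
    fun t => pow_ne_zero _ (norm_ne_zero_iff.2 (h.grad_ne (g.on t)))

theorem Geo.contDiff (h : Body F) (g : Geo F γ v) : ContDiff ℝ 2 γ := by
  have e1 : deriv γ = v := funext fun t => (g.d1 t).deriv
  have e2 : deriv v = fun t => -(mu F (γ t) (v t)) • gradient F (γ t) :=
    funext fun t => (g.d2 t).deriv
  rw [show (2 : WithTop ℕ∞) = 1 + 1 from rfl, contDiff_succ_iff_deriv, e1, contDiff_one_iff_deriv,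
    e2]
  exact ⟨fun t => (g.d1 t).differentiableAt, by simp, fun t => (g.d2 t).differentiableAt,
    (g.cmu h).neg.smul (h.cont_grad.comp g.cγ)⟩

theorem Geo.rev (g : Geo F γ v) (c : ℝ) : Geo F (fun t => γ (c - t)) fun t => -v (c - t) :=
  ⟨fun t => g.on _, fun t => by rw [norm_neg, g.unit], fun t => (g.d1 (c - t)).comp_const_sub c t,
    fun t => by simpa [mu] using ((g.d2 (c - t)).comp_const_sub c t).fun_neg⟩

theorem Geo.shift (g : Geo F γ v) (c : ℝ) : Geo F (fun t => γ (c + t)) fun t => v (c + t) :=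
  ⟨fun _ => g.on _, fun _ => g.unit _, fun t => (g.d1 (c + t)).comp_const_add c t,
    fun t => (g.d2 (c + t)).comp_const_add c t⟩

theorem flow_iso (L : E3 ≃ₗᵢ[ℝ] E3) (g : Geo (fun p => F (L p)) γ v) :
    Geo F (fun t => L (γ t)) fun t => L (v t) := by
  refine ⟨g.on, fun t => by rw [L.norm_map, g.unit],
    fun t => L.toContinuousLinearEquiv.hasFDerivAt.comp_hasDerivAt t (g.d1 t), fun t => ?_⟩
  have := L.toContinuousLinearEquiv.hasFDerivAt.comp_hasDerivAt t (g.d2 t)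
  simpa [mu, hess_iso, grad_iso, Function.comp_def] using this

theorem Geo.rx (h : Body F) (g : Geo F γ v) : Geo F (fun t => Rx (γ t)) fun t => Rx (v t) :=
  flow_iso Rx (by rwa [funext h.sx])

theorem Geo.rz (h : Body F) (g : Geo F γ v) : Geo F (fun t => Rz (γ t)) fun t => Rz (v t) :=
  flow_iso Rz (by rwa [funext h.sz])

theorem Geo.sw (g : Geo (fun p => F (Sw p)) γ v) :
    Geo F (fun t => Sw (γ t)) fun t => Sw (v t) := flow_iso Sw g

/-- The geodesic field. -/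
noncomputable def flowX (F : E3 → ℝ) (q : E3 × E3) : E3 × E3 :=
  (q.2, -(mu F q.1 q.2) • gradient F q.1)

theorem flow_compact (h : Body F) : IsCompact {q : E3 × E3 | F q.1 = 0 ∧ ‖q.2‖ = 1} := by
  have h1 : IsCompact {p | F p = 0} :=
    h.compact.of_isClosed_subset (isClosed_eq h.cont continuous_const) fun p hp => le_of_eq hp
  convert h1.prod (isCompact_sphere (0 : E3) 1) using 1
  ext q
  simp

theorem flow_hess2 (h : Body F) : ContDiff ℝ 2 (fderiv ℝ (fderiv ℝ F)) :=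
  (h.smooth.fderiv_right (m := 3) (by norm_num)).fderiv_right (by norm_num)

theorem flow_mu (h : Body F) :
    ContDiffOn ℝ 2 (fun q : E3 × E3 => mu F q.1 q.2) {q | gradient F q.1 ≠ 0} :=
  ((((flow_hess2 h).comp contDiff_fst).clm_apply contDiff_snd).clm_apply
    contDiff_snd).contDiffOn.div
    (((h.contDiff_grad.of_le (by norm_num)).comp contDiff_fst).norm_sq ℝ).contDiffOn
    fun _ hq => pow_ne_zero _ (norm_ne_zero_iff.2 hq)

theorem flow_X (h : Body F) : ContDiffOn ℝ 2 (flowX F) {q | gradient F q.1 ≠ 0} :=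
  contDiff_snd.contDiffOn.prodMk ((flow_mu h).neg.smul
    ((h.contDiff_grad.of_le (by norm_num)).comp contDiff_fst).contDiffOn)

theorem flow_cut (h : Body F) : ∃ (χ : E3 × E3 → ℝ) (K K₂ : NNReal),
    (∀ x, x ∉ {q : E3 × E3 | gradient F q.1 ≠ 0} → χ x = 0) ∧
    (∀ x : E3 × E3, F x.1 = 0 → ‖x.2‖ = 1 → χ x • flowX F x = flowX F x) ∧
    Differentiable ℝ (fun y => χ y • flowX F y) ∧ LipschitzWith K (fun y => χ y • flowX F y) ∧
    LipschitzWith K₂ (fderiv ℝ fun y => χ y • flowX F y) := by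
  obtain ⟨χ, K, K₂, -, h1, h2, h3⟩ := MP_019006_gt.FE.exists_cutoff
    (isOpen_ne_fun (h.cont_grad.comp continuous_fst) continuous_const) (flow_X h) (flow_compact h)
    fun q hq => h.grad_ne hq.1
  exact ⟨χ, K, K₂, h1, fun x a b => (h2 x ⟨a, b⟩).eq_of_nhds, h3⟩

theorem Geo.uniq (h : Body F) {γ' v' : ℝ → E3} (g : Geo F γ v) (g' : Geo F γ' v') {t₀ : ℝ}
    (e : γ t₀ = γ' t₀) (e' : v t₀ = v' t₀) (t : ℝ) : γ t = γ' t ∧ v t = v' t := by
  obtain ⟨χ, K, -, -, h2, -, hK, -⟩ := flow_cut h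
  have key : ∀ {γ v : ℝ → E3}, Geo F γ v → ∀ s,
      HasDerivAt (fun s => (γ s, v s)) (χ (γ s, v s) • flowX F (γ s, v s)) s := by
    intro γ v g s
    rw [h2 (γ s, v s) (g.on s) (g.unit s)]
    exact (g.d1 s).prodMk (g.d2 s)
  exact Prod.mk.inj (MP_019006_gt.FE.uniq_Ioo (f := fun _ y => χ y • flowX F y) (fun _ => hK)
    (a := min t t₀ - 1) (b := max t t₀ + 1) (t₀ := t₀)
    ⟨by linarith [min_le_right t t₀], by linarith [le_max_right t t₀]⟩
    (fun s _ => key g s) (fun s _ => key g' s) (Prod.ext e e')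
    (show t ∈ _ from ⟨by linarith [min_le_left t t₀], by linarith [le_max_left t t₀]⟩))

theorem Geo.sym_x (h : Body F) (g : Geo F γ v) (h0 : γ 0 0 = 0) (h1 : v 0 = pt 1 0 0) (t : ℝ) :
    γ (-t) = Rx (γ t) ∧ v (-t) = -Rx (v t) := by
  have := (g.rev 0).uniq h (g.rx h) (t₀ := 0) (ext3 (by simp [h0]) (by simp) (by simp))
    (ext3 (by simp [h1]) (by simp [h1]) (by simp [h1])) t
  simp only [zero_sub] at this
  exact ⟨this.1, neg_eq_iff_eq_neg.1 this.2⟩

theorem Geo.plane (h : Body F) (g : Geo F γ v) {t₀ : ℝ} (h0 : γ t₀ 2 = 0) (h1 : v t₀ 2 = 0)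
    (t : ℝ) : γ t 2 = 0 ∧ v t 2 = 0 := by
  have := g.uniq h (g.rz h) (t₀ := t₀) (ext3 rfl rfl (by simp [h0])) (ext3 rfl rfl (by simp [h1])) t
  have e1 : γ t 2 = -γ t 2 := congrArg (· 2) this.1
  have e2 : v t 2 = -v t 2 := congrArg (· 2) this.2
  constructor <;> linarith

theorem flow_anti (h : Body F) (g : Geo F γ v) {a b : ℝ} (i : Fin 3)
    (hx : ∀ t ∈ Ioo a b, 0 < gradient F (γ t) i) : StrictAntiOn (fun t => v t i) (Icc a b) := by
  refine strictAntiOn_of_deriv_neg (convex_Icc a b) (continuous_co g.cv i).continuousOn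
    fun t ht => ?_
  rw [interior_Icc] at ht
  rw [(g.dv i t).deriv]
  exact neg_neg_of_pos (mul_pos (g.mu_pos h t) (hx t ht))

theorem Geo.anti0 (h : Body F) (g : Geo F γ v) {a b : ℝ} (hx : ∀ t ∈ Ioo a b, 0 < γ t 0) :
    StrictAntiOn (fun t => v t 0) (Icc a b) := flow_anti h g 0 fun t ht => h.g0_pos (hx t ht)

theorem Geo.anti2 (h : Body F) (g : Geo F γ v) {a b : ℝ} (hz : ∀ t ∈ Ioo a b, 0 < γ t 2) :
    StrictAntiOn (fun t => v t 2) (Icc a b) := flow_anti h g 2 fun t ht => h.g2_pos (hz t ht)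

theorem flow_conc (g : Geo F γ v) {a b : ℝ} (i : Fin 3)
    (hx : StrictAntiOn (fun t => v t i) (Icc a b)) : ConcaveOn ℝ (Icc a b) fun t => γ t i := by
  refine AntitoneOn.concaveOn_of_deriv (convex_Icc a b) (continuous_co g.cγ i).continuousOn
    (fun t _ => (g.dx i t).differentiableAt.differentiableWithinAt) ?_
  rw [show (deriv fun t => γ t i) = fun t => v t i from funext fun t => (g.dx i t).deriv]
  exact hx.antitoneOn.mono interior_subset

theorem Geo.concave0 (h : Body F) (g : Geo F γ v) {a b : ℝ} (hx : ∀ t ∈ Ioo a b, 0 < γ t 0) :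
    ConcaveOn ℝ (Icc a b) fun t => γ t 0 := flow_conc g 0 (g.anti0 h hx)

theorem Geo.concave2 (h : Body F) (g : Geo F γ v) {a b : ℝ} (hz : ∀ t ∈ Ioo a b, 0 < γ t 2) :
    ConcaveOn ℝ (Icc a b) fun t => γ t 2 := flow_conc g 2 (g.anti2 h hz)

theorem flow_dd (h : Body F) {p w : ℝ → E3} {p' w' : E3} {t : ℝ} (hp : HasDerivAt p p' t)
    (hw : HasDerivAt w w' t) : HasDerivAt (fun s => fderiv ℝ F (p s) (w s))
      (fderiv ℝ (fderiv ℝ F) (p t) p' (w t) + fderiv ℝ F (p t) w') t :=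
  ((((h.smooth.fderiv_right (m := 3) (by norm_num)).differentiable
    (by norm_num)) (p t)).hasFDerivAt.comp_hasDerivAt t hp).clm_apply hw

theorem flow_kappa (h : Body F) :
    ∃ κ : ℝ, 0 < κ ∧ ∀ p, F p = 0 → 0 < p 0 → κ * p 0 ≤ gradient F p 0 := by
  obtain ⟨κ, hκ, hb⟩ := h.compact.exists_forall_le'
    (f := fun p => fderiv ℝ (fderiv ℝ F) p (pt 1 0 0) (pt 1 0 0)) (a := 0)
    (h.cont_hess.comp (continuous_id.prodMk continuous_const)).continuousOn
    fun p _ => h.conv p _ fun e => one_ne_zero (congrArg (· 0) e)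
  refine ⟨κ, hκ, fun p hp h0 => ?_⟩
  have hd : ∀ s, HasDerivAt (fun s => gradient F (pt s (p 1) (p 2)) 0)
      (fderiv ℝ (fderiv ℝ F) (pt s (p 1) (p 2)) (pt 1 0 0) (pt 1 0 0)) s := fun s => by
    have h1 : HasDerivAt (fun s => pt s (p 1) (p 2)) (pt 1 0 0) s := by
      have e : (fun s => pt s (p 1) (p 2)) = fun s => s • pt 1 0 0 + pt 0 (p 1) (p 2) :=
        funext fun s => ext3 (by simp) (by simp) (by simp)
      rw [e]
      simpa using ((hasDerivAt_id' s).smul_const (pt 1 0 0)).add_const (pt 0 (p 1) (p 2))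
    have h2 := flow_dd h h1 (hasDerivAt_const s (pt 1 0 0))
    simpa [fderiv_eq3 F] using h2
  have := (convex_Icc 0 (p 0)).mul_sub_le_image_sub_of_le_deriv
    (f := fun s => gradient F (pt s (p 1) (p 2)) 0) (C := κ)
    (fun s _ => (hd s).continuousAt.continuousWithinAt)
    (fun s _ => (hd s).differentiableAt.differentiableWithinAt) (fun s hs => by
      rw [interior_Icc] at hs
      rw [(hd s).deriv]
      have := h.mono0 (p 1) (p 2) hs.1.le hs.2
      rw [pt_eta, hp] at this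
      exact hb _ this.le) 0 ⟨le_rfl, h0.le⟩ (p 0) ⟨h0.le, le_rfl⟩ h0.le
  rwa [pt_eta, h.g0_zero (p := pt 0 (p 1) (p 2)) rfl, sub_zero, sub_zero] at this

theorem flow_sturm {x x' x'' : ℝ → ℝ} {w : ℝ} (hw : 0 < w) (h1 : ∀ t, HasDerivAt x (x' t) t)
    (h2 : ∀ t, HasDerivAt x' (x'' t) t) (h3 : ∀ t, 0 < x t → x'' t + w ^ 2 * x t ≤ 0) :
    ∃ t ∈ Ioc 0 (2 * (Real.pi / w)), x t ≤ 0 := by
  have hπ : 0 < Real.pi / w := by positivity
  by_contra hn
  push Not at hn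
  have hd : ∀ t, HasDerivAt (fun t => x' t * Real.sin (w * t) - w * (x t * Real.cos (w * t)))
      ((x'' t + w ^ 2 * x t) * Real.sin (w * t)) t := fun t => by
    have h0 := (hasDerivAt_id' t).const_mul w
    refine (((h2 t).fun_mul h0.sin).fun_sub (((h1 t).fun_mul h0.cos).const_mul w)).congr_deriv ?_
    ring
  have hle : Real.pi / w ≤ 2 * (Real.pi / w) := by linarith
  have := monotoneOn_of_deriv_nonneg (convex_Icc (Real.pi / w) (2 * (Real.pi / w)))
    (fun s _ => (hd s).continuousAt.continuousWithinAt)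
    (fun s _ => (hd s).differentiableAt.differentiableWithinAt) (fun s hs => by
      rw [interior_Icc] at hs
      rw [(hd s).deriv]
      have h5 : Real.pi < w * s := by rw [mul_comm]; exact (div_lt_iff₀ hw).1 hs.1
      have h6 : w * s < 2 * Real.pi := by
        rw [mul_comm, ← lt_div_iff₀ hw, mul_div_assoc]; exact hs.2
      have h7 := Real.sin_nonneg_of_nonneg_of_le_pi (x := w * s - Real.pi) (by linarith)
        (by linarith)
      rw [Real.sin_sub_pi] at h7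
      exact mul_nonneg_of_nonpos_of_nonpos (h3 s (hn s ⟨hπ.trans hs.1, hs.2.le⟩)) (by linarith))
    ⟨le_rfl, hle⟩ ⟨hle, le_rfl⟩ hle
  have e1 : w * (Real.pi / w) = Real.pi := by field_simp
  have e2 : w * (2 * (Real.pi / w)) = 2 * Real.pi := by field_simp
  simp only [e1, e2, Real.sin_pi, Real.cos_pi, Real.sin_two_pi, Real.cos_two_pi] at this
  have h1 := mul_pos hw (hn _ ⟨hπ, hle⟩)
  have h2 := mul_pos hw (hn _ ⟨hπ.trans_le hle, le_rfl⟩)
  linarith

theorem flow_time (h : Body F) :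
    ∃ T₀ : ℝ, 0 < T₀ ∧ ∀ γ v : ℝ → E3, Geo F γ v → ∃ t ∈ Ioc 0 T₀, γ t 0 ≤ 0 := by
  obtain ⟨κ, hκ, hb⟩ := flow_kappa h
  obtain ⟨m, hm, hc⟩ := (flow_compact h).exists_forall_le'
    ((flow_mu h).continuousOn.mono fun q hq => h.grad_ne hq.1) (a := 0)
    fun q hq => flow_mu_pos h hq.1 hq.2
  obtain ⟨w, hw, hw2⟩ : ∃ w : ℝ, 0 < w ∧ w ^ 2 = m * κ :=
    ⟨√(m * κ), by positivity, Real.sq_sqrt (by positivity)⟩
  refine ⟨_, by positivity, fun γ v g => flow_sturm hw (g.dx 0) (g.dv 0) fun s h1 => ?_⟩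
  have h3 : m ≤ mu F (γ s) (v s) := hc (γ s, v s) ⟨g.on s, g.unit s⟩
  have h4 := mul_le_mul h3 (hb _ (g.on s) h1) (mul_pos hκ h1).le (hm.le.trans h3)
  rw [hw2]
  linarith

theorem Body.exists_time (h : Body F) : ∃ T₀ : ℝ, 0 < T₀ ∧ ∀ γ v : ℝ → E3, Geo F γ v →
    (∃ t ∈ Ioc 0 T₀, γ t 0 ≤ 0) ∧ ∃ t ∈ Ioc 0 T₀, γ t 2 ≤ 0 := by
  obtain ⟨T, hT, h1⟩ := flow_time h
  obtain ⟨T', -, h2⟩ := flow_time h.swap
  refine ⟨max T T', lt_max_of_lt_left hT, fun γ v g => ⟨?_, ?_⟩⟩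
  · obtain ⟨t, ht, e⟩ := h1 γ v g
    exact ⟨t, ⟨ht.1, ht.2.trans (le_max_left _ _)⟩, e⟩
  · obtain ⟨t, ht, e⟩ := h2 _ _ (flow_iso (γ := γ) (v := v) Sw (by simpa using g))
    exact ⟨t, ⟨ht.1, ht.2.trans (le_max_right _ _)⟩, e⟩

theorem Body.exists_acc (h : Body F) : ∃ M : ℝ, 0 < M ∧ ∀ γ v : ℝ → E3, Geo F γ v → ∀ s t,
    ‖γ t - γ s - (t - s) • v s‖ ≤ M * (t - s) ^ 2 := by
  obtain ⟨M, hM⟩ := (flow_compact h).exists_bound_of_continuousOn
    ((flow_X h).continuousOn.mono fun q hq => h.grad_ne hq.1).snd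
  refine ⟨|M| + 1, by positivity, fun γ v g s t => ?_⟩
  have h1 : ∀ r, ‖v r - v s‖ ≤ (|M| + 1) * ‖r - s‖ := fun r =>
    Convex.norm_image_sub_le_of_norm_hasDerivWithin_le (fun x _ => (g.d2 x).hasDerivWithinAt)
      (fun x _ => (hM (γ x, v x) ⟨g.on x, g.unit x⟩).trans (by linarith [le_abs_self M]))
      convex_univ (mem_univ s) (mem_univ r)
  have h2 := Convex.norm_image_sub_le_of_norm_hasDerivWithin_le (C := (|M| + 1) * ‖t - s‖)
    (f := fun r => γ r - r • v s) (f' := fun r => v r - v s) (s := uIcc s t)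
    (fun x _ => by
      simpa using ((g.d1 x).fun_sub ((hasDerivAt_id' x).smul_const (v s))).hasDerivWithinAt)
    (fun x hx => (h1 x).trans (mul_le_mul_of_nonneg_left (abs_sub_left_of_mem_uIcc hx)
      (by positivity))) (convex_uIcc s t) left_mem_uIcc right_mem_uIcc
  rw [mul_assoc, ← sq, Real.norm_eq_abs, sq_abs] at h2
  rwa [show γ t - γ s - (t - s) • v s = γ t - t • v s - (γ s - s • v s) by rw [sub_smul]; abel]

theorem Body.exists_flow (h : Body F) : ∃ Γ V : E3 × E3 → ℝ → E3,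
    (Continuous fun q : (E3 × E3) × ℝ => Γ q.1 q.2) ∧
    (Continuous fun q : (E3 × E3) × ℝ => V q.1 q.2) ∧ (∀ q, Γ q 0 = q.1 ∧ V q 0 = q.2) ∧
    ∀ q : E3 × E3, F q.1 = 0 → fderiv ℝ F q.1 q.2 = 0 → ‖q.2‖ = 1 → Geo F (Γ q) (V q) := by
  obtain ⟨χ, K, K₂, h1, h2, h3, hK, hK₂⟩ := flow_cut h
  obtain ⟨ψ, N, hψ⟩ := MP_019006_gt.FE.exists_gflow h3 hK hK₂
  have hc := hψ.cont.comp continuous_swap
  refine ⟨fun q t => (ψ t q).1, fun q t => (ψ t q).2, hc.fst, hc.snd,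
    fun q => by simp [hψ.zero], fun q a b c => ?_⟩
  have hO : ∀ t, gradient F (ψ t q).1 ≠ 0 := fun t => hψ.stay h1 hK (h.grad_ne a) t
  have d1 : ∀ t, HasDerivAt (fun s => (ψ s q).1) (χ (ψ t q) • flowX F (ψ t q)).1 t := fun t =>
    (ContinuousLinearMap.fst ℝ E3 E3).hasFDerivAt.comp_hasDerivAt t (hψ.deriv t q)
  have d2 : ∀ t, HasDerivAt (fun s => (ψ s q).2) (χ (ψ t q) • flowX F (ψ t q)).2 t := fun t =>
    (ContinuousLinearMap.snd ℝ E3 E3).hasFDerivAt.comp_hasDerivAt t (hψ.deriv t q)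
  have hconst : ∀ {f : E3 × E3 → ℝ}, (∀ t, HasDerivAt (fun s => f (ψ s q)) 0 t) →
      ∀ t, f (ψ t q) = f q := fun {f} hf t => by
    have := is_const_of_deriv_eq_zero (fun t => (hf t).differentiableAt) (fun t => (hf t).deriv) t 0
    rwa [hψ.zero] at this
  have hH : ∀ t, fderiv ℝ F (ψ t q).1 (ψ t q).2 = 0 := fun t => by
    refine (hconst (f := fun x => fderiv ℝ F x.1 x.2) (fun t => ?_) t).trans b
    convert flow_dd h (d1 t) (d2 t) using 1
    have := norm_ne_zero_iff.2 (hO t)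
    simp only [flowX, Prod.smul_mk, map_smul, smul_apply, smul_eq_mul,
      fderiv_eq_inner F _ (gradient _ _), real_inner_self_eq_norm_sq, mu]
    field_simp
    ring
  have hF : ∀ t, F (ψ t q).1 = 0 := fun t => by
    refine (hconst (f := fun x => F x.1) (fun t => ?_) t).trans a
    convert h.hasDerivAt (d1 t) using 1
    simp [flowX, hH]
  have hU : ∀ t, ‖(ψ t q).2‖ = 1 := fun t => by
    have := hconst (f := fun x => ‖x.2‖ ^ 2) (fun t => by
      convert (d2 t).norm_sq using 1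
      have := hH t
      rw [fderiv_eq_inner, real_inner_comm] at this
      simp [flowX, inner_smul_right, this]) t
    rwa [pow_left_inj₀ (norm_nonneg _) (norm_nonneg _) two_ne_zero, c] at this
  refine ⟨hF, hU, fun t => ?_, fun t => ?_⟩
  · have := d1 t
    rwa [h2 _ (hF t) (hU t)] at this
  · have := d2 t
    rwa [h2 _ (hF t) (hU t)] at this

end Pool.Agent.MP_c01216_gt
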