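import Pool.Agent.MP_c01216_gt.Flow

set_option autoImplicit false

namespace Pool.Agent.MP_c01216_gt

open Set Filter Topology

/-- `τ` inverts the decreasing function `h` on `[0,T]`. -/
structure Inv (h : ℝ → ℝ) (T : ℝ) (τ : ℝ → ℝ) : Prop where
  cont : Continuous τ
  anti : Antitone τ
  mem : ∀ z, τ z ∈ Icc 0 T
  left : ∀ t ∈ Icc 0 T, τ (h t) = t
  right : ∀ z ∈ Icc (h T) (h 0), h (τ z) = z

theorem exists_inv {h : ℝ → ℝ} {T : ℝ} (hT : 0 < T) (hc : Continuous h)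
    (ha : StrictAntiOn h (Icc 0 T)) : ∃ τ, Inv h T τ := by
  let c : ℝ → ℝ := fun t => max 0 (min t T)
  have hcm : ∀ t, c t ∈ Icc 0 T := fun t => ⟨le_max_left _ _, max_le hT.le (min_le_right _ _)⟩
  have hce : ∀ t ∈ Icc 0 T, c t = t := fun t ht => by
    simp only [c, min_eq_left ht.2, max_eq_right ht.1]
  have hcc : Continuous c := by fun_prop
  have hmono : Monotone c := fun s t hst => max_le_max le_rfl (min_le_min hst le_rfl)
  let K : ℝ → ℝ := fun t => -h (c t) + (t - c t)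
  have hK : StrictMono K := by
    intro s t hst
    have h1 : s - c s ≤ t - c t := by
      simp only [c, max_def, min_def]
      split_ifs <;> linarith
    rcases (hmono hst.le).eq_or_lt with e | e
    · simp only [K, e]
      linarith
    · have := ha (hcm s) (hcm t) e
      simp only [K]
      linarith
  have hKc : Continuous K := by fun_prop
  have hs : Function.Surjective K := by
    refine hKc.surjective ?_ ?_
    · refine (tendsto_atTop_add_const_right _ (-h T - T) tendsto_id).congr' ?_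
      filter_upwards [eventually_ge_atTop T] with t ht
      simp only [K, c, min_eq_right ht, max_eq_right hT.le, id]
      ring
    · refine (tendsto_atBot_add_const_right _ (-h 0) tendsto_id).congr' ?_
      filter_upwards [eventually_le_atBot 0] with t ht
      simp only [K, c, max_eq_left ((min_le_left t T).trans ht), id]
      ring
  let e := hK.orderIsoOfSurjective K hs
  have he : ∀ t ∈ Icc 0 T, e.symm (-h t) = t := fun t ht => by
    rw [e.symm_apply_eq]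
    change _ = K t
    simp only [K, hce t ht, sub_self, add_zero]
  refine ⟨fun z => c (e.symm (-z)), hcc.comp (e.symm.continuous.comp continuous_neg),
    fun z z' hz => hmono (e.symm.monotone (neg_le_neg hz)), fun z => hcm _,
    fun t ht => by rw [he t ht, hce t ht], fun z hz => ?_⟩
  obtain ⟨t, ht, rfl⟩ := intermediate_value_Icc' hT.le hc.continuousOn hz
  rw [he t ht, hce t ht]

namespace Inv

variable {h τ : ℝ → ℝ} {T : ℝ}

theorem pos (I : Inv h T τ) : 0 ≤ T := (I.mem 0).1.trans (I.mem 0).2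

theorem zero (I : Inv h T τ) {z : ℝ} (hz : h 0 ≤ z) : τ z = 0 :=
  le_antisymm ((I.anti hz).trans_eq (I.left 0 ⟨le_rfl, I.pos⟩)) (I.mem z).1

theorem last (I : Inv h T τ) {z : ℝ} (hz : z ≤ h T) : τ z = T :=
  le_antisymm (I.mem z).2 ((I.left T ⟨I.pos, le_rfl⟩).ge.trans (I.anti hz))

theorem eq_of_mem (I : Inv h T τ) {z : ℝ} (h1 : 0 < τ z) (h2 : τ z < T) : h (τ z) = z :=
  I.right z ⟨le_of_not_ge fun e => h2.ne (I.last e), le_of_not_ge fun e => h1.ne' (I.zero e)⟩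

theorem lt_of (I : Inv h T τ) {z t : ℝ} (ht : t ∈ Ioc 0 T) (hz : h t < z) : τ z < t := by
  have h1 : τ z ≤ t := (I.anti hz.le).trans_eq (I.left t ⟨ht.1.le, ht.2⟩)
  refine h1.lt_of_ne fun e => ?_
  by_cases h2 : h 0 ≤ z
  · exact ht.1.ne' (e.symm.trans (I.zero h2))
  by_cases h3 : h T ≤ z
  · have := I.right z ⟨h3, le_of_not_ge h2⟩
    rw [e] at this
    exact hz.ne this
  · rw [I.last (le_of_not_ge h3)] at e
    exact h3 (e ▸ hz.le)

theorem gt_of (I : Inv h T τ) {z t : ℝ} (ht : t ∈ Ico 0 T) (hz : z < h t) : t < τ z := by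
  have h1 : t ≤ τ z := (I.left t ⟨ht.1, ht.2.le⟩).ge.trans (I.anti hz.le)
  refine h1.lt_of_ne fun e => ?_
  by_cases h2 : z ≤ h T
  · exact ht.2.ne (e.trans (I.last h2))
  by_cases h3 : z ≤ h 0
  · have := I.right z ⟨le_of_not_ge h2, h3⟩
    rw [← e] at this
    exact hz.ne' this
  · rw [I.zero (le_of_not_ge h3)] at e
    exact h3 (e ▸ hz.le)

theorem hasDerivAt (I : Inv h T τ) (ha : StrictAntiOn h (Icc 0 T)) {t h' : ℝ} (ht : t ∈ Ioo 0 T)
    (hd : HasDerivAt h h' t) (h0 : h' ≠ 0) : HasDerivAt τ h'⁻¹ (h t) := by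
  have ht' := Ioo_subset_Icc_self ht
  refine HasDerivAt.of_local_left_inverse I.cont.continuousAt (by rwa [I.left t ht']) h0 ?_
  filter_upwards [Icc_mem_nhds (ha ht' ⟨I.pos, le_rfl⟩ ht.2) (ha ⟨le_rfl, I.pos⟩ ht' ht.1)] with z hz
  exact I.right z hz

end Inv

variable {F : E3 → ℝ} {a v : ℝ → E3} {T y₂ y₁ : ℝ} {τ : ℝ → ℝ}

theorem Shot.anti (s : Shot F a v T) : StrictAntiOn (fun t => a t 2) (Icc 0 T) := by
  refine strictAntiOn_of_deriv_neg (convex_Icc _ _) (continuous_co s.geo.cγ 2).continuousOn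
    fun t ht => ?_
  rw [interior_Icc] at ht
  rw [(s.geo.dx 2 t).deriv]
  exact s.vz t ⟨ht.1, ht.2.le⟩

theorem Shot.znn (s : Shot F a v T) {t : ℝ} (ht : t ∈ Icc 0 T) : 0 ≤ a t 2 := by
  rcases ht.2.eq_or_lt with e | e
  · rw [e, s.zT]
  · exact (s.zpos t ⟨ht.1, e⟩).le

theorem Shot.xnn (s : Shot F a v T) {t : ℝ} (ht : t ∈ Icc 0 T) : 0 ≤ a t 0 := by
  rw [← closure_Ioo s.pos.ne] at ht
  exact closure_minimal (fun u hu => (s.xpos u hu).le)
    (isClosed_le continuous_const (continuous_co s.geo.cγ 0)) ht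

theorem Shot.vznp (s : Shot F a v T) {t : ℝ} (ht : t ∈ Icc 0 T) : v t 2 ≤ 0 := by
  rcases ht.1.eq_or_lt with e | e
  · rw [← e, s.v0, pt_2]
  · exact (s.vz t ⟨e, ht.2⟩).le

theorem Shot.exists_inv (s : Shot F a v T) : ∃ τ, Inv (fun t => a t 2) T τ :=
  MP_c01216_gt.exists_inv s.pos (continuous_co s.geo.cγ 2) s.anti

/-- The height of `p` above the arc `a` along the level curves of `z`. -/
noncomputable def side (a : ℝ → E3) (τ : ℝ → ℝ) (p : E3) : ℝ := p 1 - a (τ (p 2)) 1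

theorem Shot.cont_side (s : Shot F a v T) (I : Inv (fun t => a t 2) T τ) :
    Continuous (side a τ) := by
  have := s.geo.cγ
  have := I.cont
  unfold side
  fun_prop

theorem Shot.on_of_side (h : Body F) (s : Shot F a v T) (I : Inv (fun t => a t 2) T τ) {p : E3}
    (hp : F p = 0) (h0 : 0 ≤ p 0) (h2 : 0 ≤ p 2) (e : side a τ p = 0) :
    ∃ t ∈ Icc 0 T, a t = p := by
  have e' : a (τ (p 2)) 1 = p 1 := (sub_eq_zero.1 e).symm
  by_cases hz : p 2 ≤ a 0 2
  · exact ⟨_, I.mem _, h.eq_of_yz (s.geo.on _) hp (s.xnn (I.mem _)) h0 e'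
      (I.right _ ⟨s.zT.trans_le h2, hz⟩)⟩
  · push Not at hz
    rw [I.zero hz.le] at e'
    have h1 := h.mono2 0 (p 1) (s.znn ⟨le_rfl, s.pos.le⟩) hz
    have h3 : pt 0 (p 1) (a 0 2) = a 0 := ext3 s.x0.symm e'.symm rfl
    rw [h3, s.geo.on] at h1
    rcases h0.eq_or_lt with e0 | e0
    · have h4 : pt 0 (p 1) (p 2) = p := ext3 e0 rfl rfl
      rw [h4, hp] at h1
      exact absurd h1 (lt_irrefl _)
    · have h4 := h.mono0 (p 1) (p 2) le_rfl e0
      rw [pt_eta, hp] at h4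
      exact absurd (h1.trans h4) (lt_irrefl _)

theorem Shot.side_of_below (I : Inv (fun t => a t 2) T τ) {p : E3} (hb : Below a T p) :
    side a τ p < 0 := by
  rcases hb with ⟨t, ht, e, h1⟩ | ⟨h1, h2⟩
  · rw [side, ← e, I.left t ht]
    linarith
  · rw [side, I.zero h1.le]
    linarith

theorem Shot.below_of_side (s : Shot F a v T) (I : Inv (fun t => a t 2) T τ) {p : E3}
    (h2 : 0 ≤ p 2) (hb : side a τ p < 0) : Below a T p := by
  by_cases hz : p 2 ≤ a 0 2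
  · exact Or.inl ⟨_, I.mem _, I.right _ ⟨s.zT.trans_le h2, hz⟩, sub_neg.1 hb⟩
  · push Not at hz
    rw [side, I.zero hz.le] at hb
    exact Or.inr ⟨hz, sub_neg.1 hb⟩

theorem Shot.side_neg (h : Body F) (s : Shot F a v T) (I : Inv (fun t => a t 2) T τ) {p : E3}
    (hp : F p = 0) (h0 : p 0 = 0) (h2 : 0 < p 2) (h1 : p 1 < a 0 1) : side a τ p < 0 := by
  by_cases hz : a 0 2 ≤ p 2
  · rw [side, I.zero hz]
    linarith
  push Not at hz
  have t1 : 0 < τ (p 2) := I.gt_of ⟨le_rfl, s.pos⟩ hz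
  have t2 : τ (p 2) < T := I.lt_of ⟨s.pos, le_rfl⟩ (s.zT.trans_lt h2)
  have e : a (τ (p 2)) 2 = p 2 := I.eq_of_mem t1 t2
  by_contra hc
  have h3 : a (τ (p 2)) 1 ≤ p 1 := sub_nonneg.1 (not_lt.1 hc)
  have h4 := h.mono0 (a (τ (p 2)) 1) (a (τ (p 2)) 2) le_rfl (s.xpos _ ⟨t1, t2⟩)
  rw [pt_eta, s.geo.on, e] at h4
  have h5 := h.mono2 (a 0 0) (a 0 1) h2.le hz
  rw [pt_eta, s.geo.on, s.x0] at h5
  obtain ⟨c, d, hc0, hd0, hcd, e'⟩ := (Convex.mem_Icc (h3.trans h1.le)).1 ⟨h3, h1.le⟩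
  have h6 := h.convexOn.le_on_segment' (mem_univ (pt 0 (a (τ (p 2)) 1) (p 2)))
    (mem_univ (pt 0 (a 0 1) (p 2))) hc0 hd0 hcd
  have h7 : c • pt 0 (a (τ (p 2)) 1) (p 2) + d • pt 0 (a 0 1) (p 2) = p :=
    ext3 (by simp [h0]) (by simpa using e') (by simp [← add_mul, hcd])
  rw [h7, hp] at h6
  exact absurd (h6.trans_lt (max_lt h4 h5)) (lt_irrefl _)

theorem Arc.side_zero (A : Arc F y₂ a v T) (I : Inv (fun t => a t 2) T τ) {p : E3}
    (h2 : p 2 = 0) : side a τ p = p 1 - y₂ := by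
  rw [side, I.last (h2.trans_le A.zT.ge), A.stop, pt_1]

theorem Arc.v1 (h : Body F) (hp : Poles F y₂ y₁) (A : Arc F y₂ a v T) : v T 1 = 0 := by
  have h1 := A.geo.tan h T
  rw [A.stop, h.g0_zero (pt_0 _ _ _), h.g2_zero (pt_2 _ _ _)] at h1
  have := hp.gbot
  exact (mul_eq_zero.1 (by linarith : gradient F (pt 0 y₂ 0) 1 * v T 1 = 0)).resolve_left this.ne

theorem Arc.near (h : Body F) (hp : Poles F y₂ y₁) (A : Arc F y₂ a v T) :
    ∀ᶠ t in 𝓝[<] T, a t 0 < a t 2 := by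
  have h1 := A.geo.sq T
  rw [A.v1 h hp] at h1
  have h2 := A.vz T ⟨A.pos, le_rfl⟩
  have h3 : v T 2 - v T 0 < 0 := by nlinarith [A.vneg, A.small]
  have h4 := ((A.geo.dx 2 T).sub (A.geo.dx 0 T)).tendsto_slope
  have h5 := (h4.mono_left (nhdsLT_le_nhdsNE T)).eventually_lt_const h3
  filter_upwards [h5, self_mem_nhdsWithin] with t ht ht'
  rw [slope_def_field, Pi.sub_apply, Pi.sub_apply, A.stop, pt_0, pt_2, sub_zero, sub_zero,
    div_neg_iff] at ht
  rcases ht with ht | ht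
  · linarith [ht.1]
  · exact absurd (sub_pos.1 ht.2) (not_lt.2 (le_of_lt ht'))

end Pool.Agent.MP_c01216_gt
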